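import Pool.Agent.H69.PG.Mkv

/-!
# BDY: the boundary terms

`0 ≤ om n ≤ 1` (`q ≥ 0`, `∑_{a=1}^m q_a = 1`), and `om n = 0` if `|sp n| < N` and `∑ v(n_i) + vm ≤ l` (all `a` are allowed). So for `n ∈ Cf`:
`om n ^ 2 ≤ |sp n|/N + (∑ v(n_i))/(l - vm)` (one of the two quotients is at least `1` if `om n ≠ 0`). The left side of `bdy` is at most
`∑_{n ∈ Cf} om(n)^2 (∏ s(n)) ∑_{k ∉ sp n} V(insert k (sp n)) ≤ μ ∑_{n ∈ Cf} om(n)^2 ms(n)` (`n k = 0` iff `k ∉ sp n`), and `mkv` with `w = 1_{a ≠ 0}` and with `w = v`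
gives the claim.
-/

open Finset

namespace H69PG

variable {ι : Type} [Fintype ι] [DecidableEq ι]

theorem om_nonneg {m N : ℕ} {v : ℕ → ℝ} {l : ℝ} {q : ℕ → ℝ} (hq : ∀ a, 0 ≤ q a) (hq1 : ∑ a ∈ Icc 1 m, q a = 1)
    (n : ι → Fin (m + 1)) : 0 ≤ om N v l q n := by
  classical
  unfold om
  have h : (∑ a ∈ Icc 1 m, if (sp n).card + 1 ≤ N ∧ ∑ i, v (n i) + v a ≤ l then q a else 0) ≤ ∑ a ∈ Icc 1 m, q a := by
    refine Finset.sum_le_sum fun a _ => ?_
    split_ifs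
    · exact le_refl _
    · exact hq a
  rw [hq1] at h
  have h' := sub_nonneg.2 h
  convert h'

theorem om_le_one {m N : ℕ} {v : ℕ → ℝ} {l : ℝ} {q : ℕ → ℝ} (hq : ∀ a, 0 ≤ q a)
    (n : ι → Fin (m + 1)) : om N v l q n ≤ 1 := by
  classical
  unfold om
  have h : 0 ≤ (∑ a ∈ Icc 1 m, if (sp n).card + 1 ≤ N ∧ ∑ i, v (n i) + v a ≤ l then q a else 0) := by
    refine Finset.sum_nonneg fun a _ => ?_
    split_ifs
    · exact hq a
    · exact le_refl _
  have h' : (1 : ℝ) - (∑ a ∈ Icc 1 m, if (sp n).card + 1 ≤ N ∧ ∑ i, v (n i) + v a ≤ l then q a else 0) ≤ 1 := by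
    linarith
  convert h'

theorem Bdy_om_sq_le {m N : ℕ} (hN : 1 ≤ N) {v : ℕ → ℝ} {l vm : ℝ}
    (hv : ∀ a, 0 ≤ v a) (hvm : ∀ a ∈ Icc 1 m, v a ≤ vm) (hl : vm < l)
    {q : ℕ → ℝ} (hq : ∀ a, 0 ≤ q a) (hq1 : ∑ a ∈ Icc 1 m, q a = 1)
    (n : ι → Fin (m + 1)) (hn : n ∈ Cf ι m N v l) :
    om N v l q n ^ 2 ≤ ((sp n).card : ℝ) / N + (∑ i, v (n i)) / (l - vm) := by
  classical
  have h0 := om_nonneg (N := N) (v := v) (l := l) hq hq1 n
  have h1 := om_le_one (N := N) (v := v) (l := l) hq n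
  have hsq : om N v l q n ^ 2 ≤ 1 := by nlinarith
  have hNr : (0 : ℝ) < N := by exact_mod_cast hN
  have hlv : 0 < l - vm := by linarith
  have hsv : 0 ≤ ∑ i, v (n i) := Finset.sum_nonneg fun i _ => hv _
  have hA : 0 ≤ ((sp n).card : ℝ) / N := by positivity
  have hB : 0 ≤ (∑ i, v (n i)) / (l - vm) := div_nonneg hsv hlv.le
  by_cases hc : (sp n).card + 1 ≤ N
  · by_cases hd : ∑ i, v (n i) + vm ≤ l
    · have hz : om N v l q n = 0 := by
        unfold om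
        have hs : (∑ a ∈ Icc 1 m, if (sp n).card + 1 ≤ N ∧ ∑ i, v (n i) + v a ≤ l then q a else 0) =
            ∑ a ∈ Icc 1 m, q a := by
          refine Finset.sum_congr rfl fun a ha => ?_
          rw [if_pos ⟨hc, by linarith [hvm a ha]⟩]
        rw [hq1] at hs
        have hs' : (1 : ℝ) - (∑ a ∈ Icc 1 m, if (sp n).card + 1 ≤ N ∧ ∑ i, v (n i) + v a ≤ l then q a else 0) = 0 := by
          rw [hs]; norm_num
        convert hs'
      rw [hz]
      have : (0 : ℝ) ^ 2 = 0 := by norm_num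
      rw [this]
      linarith
    · push Not at hd
      have : 1 ≤ (∑ i, v (n i)) / (l - vm) := by
        rw [le_div_iff₀ hlv]; linarith
      linarith
  · have hle : N ≤ (sp n).card := by omega
    have : (1 : ℝ) ≤ ((sp n).card : ℝ) / N := by
      rw [le_div_iff₀ hNr, one_mul]
      exact_mod_cast hle
    linarith

theorem bdy {m N : ℕ} (hN : 1 ≤ N) {v : ℕ → ℝ} {l vm : ℝ} {V : Finset ι → ℝ} {μ : ℝ} (h : Vh V μ (N + 1)) {s q : ℕ → ℝ}
    (hs : ∀ a, 0 ≤ s a) (hs0 : s 0 = 1) (hv : ∀ a, 0 ≤ v a) (hv0 : v 0 = 0) (hvm : ∀ a ∈ Icc 1 m, v a ≤ vm) (hl : vm < l)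
    (hq : ∀ a, 0 ≤ q a) (hq1 : ∑ a ∈ Icc 1 m, q a = 1) :
    ∑ k : ι, ∑ n ∈ (Cf ι m N v l).filter (fun n => n k = 0),
      om N v l q n ^ 2 * (V (insert k (sp n)) * ∏ i, s (n i)) ≤
        μ * (μ * (∑ a ∈ Icc 1 m, s a) / N + μ * (∑ a ∈ Icc 1 m, s a * v a) / (l - vm)) * MM m N v l V s := by
  classical
  have hNr : (0 : ℝ) < N := by exact_mod_cast hN
  have hlv : 0 < l - vm := by linarith
  have hVh : Vh V μ N := ⟨h.nonneg, h.empty, h.μ_nonneg, fun A hA => h.step A (by omega)⟩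
  have hms : ∀ n : ι → Fin (m + 1), 0 ≤ ms V s n := fun n =>
    mul_nonneg (h.nonneg _) (Finset.prod_nonneg fun i _ => hs _)
  -- swap the sums
  have e1 : ∑ k : ι, ∑ n ∈ (Cf ι m N v l).filter (fun n => n k = 0),
      om N v l q n ^ 2 * (V (insert k (sp n)) * ∏ i, s (n i)) =
      ∑ n ∈ Cf ι m N v l, ∑ k ∈ (sp n)ᶜ, om N v l q n ^ 2 * (V (insert k (sp n)) * ∏ i, s (n i)) := by
    simp_rw [Finset.sum_filter]
    rw [Finset.sum_comm]
    refine Finset.sum_congr rfl fun n _ => ?_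
    rw [← Finset.sum_filter]
    refine Finset.sum_congr ?_ fun _ _ => rfl
    ext k
    simp [sp]
  have e2 : ∀ n ∈ Cf ι m N v l, ∑ k ∈ (sp n)ᶜ, om N v l q n ^ 2 * (V (insert k (sp n)) * ∏ i, s (n i)) ≤
      om N v l q n ^ 2 * (μ * ms V s n) := by
    intro n hn
    have hcard : (sp n).card < N + 1 := by
      have := (Finset.mem_filter.1 hn).2.1
      omega
    have hst := h.step (sp n) hcard
    rw [← Finset.mul_sum, ← Finset.sum_mul]
    refine mul_le_mul_of_nonneg_left ?_ (sq_nonneg _)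
    unfold ms
    rw [← mul_assoc]
    exact mul_le_mul_of_nonneg_right hst (Finset.prod_nonneg fun i _ => hs _)
  let w : ℕ → ℝ := fun a => if a = 0 then 0 else 1
  have hcs : ∀ n : ι → Fin (m + 1), ((sp n).card : ℝ) = ∑ i, w (n i) := by
    intro n
    have : ∀ i, w (n i) = if n i ≠ 0 then (1 : ℝ) else 0 := by
      intro i
      show (if ((n i : Fin (m + 1)) : ℕ) = 0 then (0 : ℝ) else 1) = _
      by_cases hi : n i = 0
      · simp [hi]
      · have : ((n i : Fin (m + 1)) : ℕ) ≠ 0 := fun hh => hi (Fin.ext (by simpa using hh))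
        simp [hi, this]
    simp_rw [this]
    rw [← Finset.sum_filter]
    simp [sp]
  have hm1 := mkv (m := m) (l := l) hVh (s := s) (w := w) hs hs0 hv hv0
    (fun a => by show 0 ≤ (if a = 0 then (0 : ℝ) else 1); split_ifs <;> norm_num) (by simp [w])
  have hm2 := mkv (m := m) (l := l) hVh (s := s) (w := v) hs hs0 hv hv0 hv hv0
  have hw1 : ∑ a ∈ Icc 1 m, s a * w a = ∑ a ∈ Icc 1 m, s a := by
    refine Finset.sum_congr rfl fun a ha => ?_
    have : a ≠ 0 := by have := (Finset.mem_Icc.1 ha).1; omega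
    simp [w, this]
  rw [hw1] at hm1
  have e3 : ∀ n ∈ Cf ι m N v l, om N v l q n ^ 2 * (μ * ms V s n) ≤
      μ * (1 / N * ((∑ i, w (n i)) * ms V s n) + 1 / (l - vm) * ((∑ i, v (n i)) * ms V s n)) := by
    intro n hn
    have hb := Bdy_om_sq_le hN hv hvm hl hq hq1 n hn
    rw [hcs n] at hb
    have hb2 := mul_le_mul_of_nonneg_right hb (mul_nonneg h.μ_nonneg (hms n))
    refine hb2.trans (le_of_eq ?_)
    ring
  calc ∑ k : ι, ∑ n ∈ (Cf ι m N v l).filter (fun n => n k = 0),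
      om N v l q n ^ 2 * (V (insert k (sp n)) * ∏ i, s (n i))
      = ∑ n ∈ Cf ι m N v l, ∑ k ∈ (sp n)ᶜ, om N v l q n ^ 2 * (V (insert k (sp n)) * ∏ i, s (n i)) := e1
    _ ≤ ∑ n ∈ Cf ι m N v l, om N v l q n ^ 2 * (μ * ms V s n) := Finset.sum_le_sum e2
    _ ≤ ∑ n ∈ Cf ι m N v l, μ * (1 / N * ((∑ i, w (n i)) * ms V s n) + 1 / (l - vm) * ((∑ i, v (n i)) * ms V s n)) :=
        Finset.sum_le_sum e3
    _ = μ * (1 / N * (∑ n ∈ Cf ι m N v l, (∑ i, w (n i)) * ms V s n) +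
          1 / (l - vm) * (∑ n ∈ Cf ι m N v l, (∑ i, v (n i)) * ms V s n)) := by
        rw [← Finset.mul_sum, Finset.sum_add_distrib, ← Finset.mul_sum, ← Finset.mul_sum]
    _ ≤ μ * (1 / N * (μ * (∑ a ∈ Icc 1 m, s a) * MM m N v l V s) +
          1 / (l - vm) * (μ * (∑ a ∈ Icc 1 m, s a * v a) * MM m N v l V s)) := by
        refine mul_le_mul_of_nonneg_left ?_ h.μ_nonneg
        have ha : (0 : ℝ) ≤ 1 / N := by positivity
        have hb : (0 : ℝ) ≤ 1 / (l - vm) := by positivity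
        exact add_le_add (mul_le_mul_of_nonneg_left hm1 ha) (mul_le_mul_of_nonneg_left hm2 hb)
    _ = μ * (μ * (∑ a ∈ Icc 1 m, s a) / N + μ * (∑ a ∈ Icc 1 m, s a * v a) / (l - vm)) * MM m N v l V s := by
        ring

end H69PG
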