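import Pool.Agent.H69.PG.Ab0

/-!
# RGH: the amplitude when one coordinate is rough

Split `Cf` according to `n k = 0` or `n k = a ≥ 1`. The configurations with `n k = a ≥ 1` are the `update n' k a`, `n' k = 0`, with
`|sp n'| + 1 ≤ N` and `∑ v(n'_i) + v(a) ≤ l` (`v 0 = 0`; such an `n'` is in `Cf` because `v ≥ 0`), and
`∏ g_i(n_i) = g_k(a) ∏_{i ≠ k} g_i(n'_i) = -q_a ∏_i g_i(n'_i)` as `g_k(0) = 1`.
-/

open Finset

namespace H69PG

variable {ι : Type} [Fintype ι] [DecidableEq ι]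

theorem Rgh_sp {m : ℕ} (n : ι → Fin (m + 1)) (k : ι) (h0 : n k = 0) {b : Fin (m + 1)} (hb : b ≠ 0) :
    (sp (Function.update n k b)).card = (sp n).card + 1 := by
  have e : sp (Function.update n k b) = insert k (sp n) := by
    ext i
    unfold sp
    rw [mem_filter, mem_insert, mem_filter]
    by_cases hi : i = k
    · subst hi
      simp [hb]
    · rw [Function.update_of_ne hi]
      simp [hi]
  have hk : k ∉ sp n := by
    unfold sp
    rw [mem_filter]
    exact fun h => h.2 h0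
  rw [e, card_insert_of_notMem hk]

theorem Rgh_sum {m : ℕ} {v : ℕ → ℝ} (hv0 : v 0 = 0) (n : ι → Fin (m + 1)) (k : ι) (h0 : n k = 0)
    (b : Fin (m + 1)) :
    ∑ i, v (Function.update n k b i) = ∑ i, v (n i) + v b := by
  rw [← add_sum_erase univ (fun i => v (Function.update n k b i)) (mem_univ k),
    ← add_sum_erase univ (fun i => v (n i)) (mem_univ k)]
  have e : ∑ i ∈ univ.erase k, v (Function.update n k b i) = ∑ i ∈ univ.erase k, v (n i) := by
    refine sum_congr rfl fun i hi => ?_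
    rw [Function.update_of_ne (ne_of_mem_erase hi)]
  rw [e, Function.update_self, h0, Fin.val_zero, hv0]
  ring

theorem Rgh_prod {m : ℕ} {g : ι → ℕ → ℕ → ℝ} {t : ℕ} (hg0 : ∀ i, g i 0 t = 1) (n : ι → Fin (m + 1)) (k : ι)
    (h0 : n k = 0) (b : Fin (m + 1)) :
    ∏ i, g i (Function.update n k b i) t = g k b t * ∏ i, g i (n i) t := by
  rw [← mul_prod_erase univ (fun i => g i (Function.update n k b i) t) (mem_univ k),
    ← mul_prod_erase univ (fun i => g i (n i) t) (mem_univ k)]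
  have e : ∏ i ∈ univ.erase k, g i (Function.update n k b i) t = ∏ i ∈ univ.erase k, g i (n i) t := by
    refine prod_congr rfl fun i hi => ?_
    rw [Function.update_of_ne (ne_of_mem_erase hi)]
  rw [e, Function.update_self, h0, Fin.val_zero, hg0, one_mul]

theorem Rgh_mem {m N : ℕ} {v : ℕ → ℝ} {l : ℝ} (n : ι → Fin (m + 1)) :
    n ∈ Cf ι m N v l ↔ (sp n).card ≤ N ∧ ∑ i, v (n i) ≤ l := by
  classical
  unfold Cf
  rw [mem_filter]
  simp

open Classical in
theorem Rgh_split {m N : ℕ} {v : ℕ → ℝ} {l : ℝ} {q : ℕ → ℝ} (hv : ∀ a, 0 ≤ v a) (hv0 : v 0 = 0)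
    {g : ι → ℕ → ℕ → ℝ} {t : ℕ} (hg0 : ∀ i, g i 0 t = 1) {k : ι} (hr : ∀ a ∈ Icc 1 m, g k a t = - q a) :
    ∑ n ∈ (Cf ι m N v l).filter (fun n => ¬ n k = 0), ∏ i, g i (n i) t =
      ∑ x ∈ (((Cf ι m N v l).filter (fun n => n k = 0)) ×ˢ Icc 1 m).filter
        (fun x => (sp x.1).card + 1 ≤ N ∧ ∑ i, v (x.1 i) + v x.2 ≤ l), -(q x.2 * ∏ i, g i (x.1 i) t) := by
  have hupd : ∀ n : ι → Fin (m + 1), Function.update (Function.update n k 0) k (n k) = n := by
    intro n
    rw [Function.update_idem, Function.update_eq_self]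
  have h0 : ∀ n : ι → Fin (m + 1), (Function.update n k 0 : ι → Fin (m + 1)) k = 0 := fun n => Function.update_self k 0 n
  refine sum_bij' (fun n _ => (Function.update n k 0, (n k : ℕ))) (fun x _ => Function.update x.1 k (Fin.ofNat (m + 1) x.2))
    ?_ ?_ ?_ ?_ ?_
  · intro n hn
    rw [mem_filter, Rgh_mem] at hn
    obtain ⟨⟨h1, h2⟩, h3⟩ := hn
    have e1 := Rgh_sp (Function.update n k 0) k (h0 n) h3
    have e2 := Rgh_sum hv0 (Function.update n k 0) k (h0 n) (n k)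
    rw [hupd] at e1 e2
    have h4 := hv (n k : ℕ)
    have h5 : (sp (Function.update n k 0)).card + 1 ≤ N := by rw [← e1]; exact h1
    have h6 : ∑ i, v (Function.update n k 0 i) + v (n k) ≤ l := by rw [← e2]; exact h2
    rw [mem_filter, mem_product, mem_filter, Rgh_mem, mem_Icc]
    refine ⟨⟨⟨⟨(Nat.le_succ _).trans h5, by linarith⟩, h0 n⟩, ?_, ?_⟩, h5, h6⟩
    · rw [Nat.one_le_iff_ne_zero]
      intro h
      exact h3 (Fin.ext h)
    · exact Nat.lt_succ_iff.mp (n k).2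
  · intro x hx
    rw [mem_filter, mem_product, mem_filter, Rgh_mem, mem_Icc] at hx
    obtain ⟨⟨⟨⟨h1, h2⟩, h3⟩, h4, h5⟩, h6, h7⟩ := hx
    have hval : ((Fin.ofNat (m + 1) x.2 : Fin (m + 1)) : ℕ) = x.2 := Nat.mod_eq_of_lt (by omega)
    have hne : (Fin.ofNat (m + 1) x.2 : Fin (m + 1)) ≠ 0 := by
      intro h
      have := congrArg Fin.val h
      rw [hval, Fin.val_zero] at this
      omega
    rw [mem_filter, Rgh_mem, Rgh_sp x.1 k h3 hne, Rgh_sum hv0 x.1 k h3, hval, Function.update_self]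
    exact ⟨⟨h6, h7⟩, hne⟩
  · intro n hn
    have hval : (Fin.ofNat (m + 1) (n k : ℕ) : Fin (m + 1)) = n k := Fin.ext (Nat.mod_eq_of_lt (n k).2)
    change Function.update (Function.update n k 0) k (Fin.ofNat (m + 1) (n k : ℕ)) = n
    rw [hval, hupd]
  · intro x hx
    rw [mem_filter, mem_product, mem_filter, Rgh_mem, mem_Icc] at hx
    obtain ⟨⟨⟨⟨h1, h2⟩, h3⟩, h4, h5⟩, h6, h7⟩ := hx
    have hval : ((Fin.ofNat (m + 1) x.2 : Fin (m + 1)) : ℕ) = x.2 := Nat.mod_eq_of_lt (by omega)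
    refine Prod.ext ?_ ?_
    · change Function.update (Function.update x.1 k (Fin.ofNat (m + 1) x.2)) k 0 = x.1
      rw [Function.update_idem, ← h3, Function.update_eq_self]
    · change ((Function.update x.1 k (Fin.ofNat (m + 1) x.2) k : Fin (m + 1)) : ℕ) = x.2
      rw [Function.update_self, hval]
  · intro n hn
    rw [mem_filter, Rgh_mem] at hn
    obtain ⟨⟨h1, h2⟩, h3⟩ := hn
    have e1 := Rgh_prod hg0 (Function.update n k 0) k (h0 n) (n k)
    rw [hupd] at e1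
    change ∏ i, g i (n i) t = -(q (n k : ℕ) * ∏ i, g i (Function.update n k 0 i) t)
    rw [e1, hr (n k : ℕ) (mem_Icc.mpr ⟨?_, Nat.lt_succ_iff.mp (n k).2⟩)]
    · ring
    · rw [Nat.one_le_iff_ne_zero]
      intro h
      exact h3 (Fin.ext h)

theorem rgh {m N : ℕ} {v : ℕ → ℝ} {l : ℝ} {q : ℕ → ℝ} (hv : ∀ a, 0 ≤ v a) (hv0 : v 0 = 0)
    {g : ι → ℕ → ℕ → ℝ} {t : ℕ} (hg0 : ∀ i, g i 0 t = 1) {k : ι} (hr : ∀ a ∈ Icc 1 m, g k a t = - q a) :
    Ps m N v l g t = ∑ n ∈ (Cf ι m N v l).filter (fun n => n k = 0), om N v l q n * ∏ i, g i (n i) t := by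
  classical
  unfold Ps
  rw [← sum_filter_add_sum_filter_not (Cf ι m N v l) (fun n => n k = 0), Rgh_split hv hv0 hg0 hr,
    sum_filter (fun x : (ι → Fin (m + 1)) × ℕ => (sp x.1).card + 1 ≤ N ∧ ∑ i, v (x.1 i) + v x.2 ≤ l), sum_product,
    ← sum_add_distrib]
  refine sum_congr rfl fun n hn => ?_
  unfold om
  rw [sub_mul, one_mul, sub_eq_add_neg, sum_mul, ← sum_neg_distrib]
  congr 1
  refine sum_congr rfl fun a ha => ?_
  split_ifs
  · rfl
  · rw [zero_mul, neg_zero]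

end H69PG
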