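import Pool.Agent.H69.PG.Ar0
import Pool.Agent.H6.EG.SelU
import Pool.Agent.H6.EG.Ssu
import Pool.Agent.H6.EG.LamB

/-!
# QFB: the square of the Selberg sum

`DB Q R = lcD (sq Q R) (sq Q R)`, `fB Q R = lcf ...` with the coefficients `lb Q R = lam Q R (1/GG)`, `|lb| ≤ 1` (`lam_sel_le`).
* `fB_one`: `∑ lb lb/lcm = ∑_{r ∈ sq Q R} (1/GG)²/φ(r) = 1/GG` (`lcf_sum`, `selU` with `b = 1`).
* `fB_ctrl`: `ctrl_of_U` (`c = 4`, `p = 1`), `selB` with `N = N' = 1` (`∑ (1/GG)²/φ ≤ 1/GG ≤ 1`).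
* `fB_sum`: as `fAB_sum` in `Qfa.lean`: `∑_{d,d'} 1/lcm(d,d') ≤ (∑_{sq} 1/g)^3 ≤ Γ³` (via `g = gcd`, `d = g e`, `d' = g e'`). `fB_abs`: `lcf_abs`.
* `fB_be`: `fn_mul`.
-/

open Finset EG

namespace H69PG

theorem Qfb_good (Q R : ℕ) : Good Q (sq Q R) := fun _ hB => (selT_mem.mp hB).2

theorem Qfb_pos (Q R : ℕ) (hR : 1 ≤ R) : 0 < GG Q R := by
  unfold GG
  refine sum_pos (fun r hr => ?_) ⟨1, selT_mem.mpr ⟨⟨le_rfl, hR⟩, squarefree_one, Nat.coprime_one_left Q⟩⟩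
  have h1 : 1 ≤ r := (selT_mem.mp hr).1.1
  have h2 : (0 : ℝ) < (Nat.totient r : ℝ) := by exact_mod_cast Nat.totient_pos.mpr h1
  positivity

theorem Qfb_one_le (Q R : ℕ) (hR : 1 ≤ R) : 1 ≤ GG Q R := by
  unfold GG
  have h : ∀ s ∈ sq Q R, (0 : ℝ) ≤ 1 / (Nat.totient s : ℝ) := fun s _ => by positivity
  refine le_trans ?_ (single_le_sum h (selT_mem.mpr ⟨⟨le_rfl, hR⟩, squarefree_one, Nat.coprime_one_left Q⟩))
  simp

theorem Qfb_N (Q R : ℕ) (hR : 1 ≤ R) (c : ℕ) :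
    ∑ r ∈ sq Q R, (if r * c ∈ sq Q R then ((fun _ => (GG Q R)⁻¹ : ℕ → ℝ) (r * c)) ^ 2 else 0) / (Nat.totient r : ℝ) ≤ 1 := by
  have hG := Qfb_pos Q R hR
  have h1 : ∀ r ∈ sq Q R, (if r * c ∈ sq Q R then ((fun _ => (GG Q R)⁻¹ : ℕ → ℝ) (r * c)) ^ 2 else 0) / (Nat.totient r : ℝ) ≤
      ((GG Q R)⁻¹) ^ 2 * (1 / (Nat.totient r : ℝ)) := by
    intro r _
    have h2 : (0 : ℝ) ≤ (Nat.totient r : ℝ) := Nat.cast_nonneg _
    rw [mul_one_div]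
    refine div_le_div_of_nonneg_right ?_ h2
    split_ifs
    · exact le_rfl
    · positivity
  refine (sum_le_sum h1).trans ?_
  rw [← mul_sum]
  change ((GG Q R)⁻¹) ^ 2 * GG Q R ≤ 1
  have h3 : ((GG Q R)⁻¹) ^ 2 * GG Q R = (GG Q R)⁻¹ := by field_simp
  rw [h3]
  exact inv_le_one_of_one_le₀ (Qfb_one_le Q R hR)

/-- `∑_{d, d'} 1/lcm(d, d') ≤ (∑ 1/g)^3` -/
theorem Qfb_lcm (Q R : ℕ) :
    ∑ d ∈ sq Q R, ∑ d' ∈ sq Q R, 1 / (Nat.lcm d d' : ℝ) ≤ (∑ g ∈ sq Q R, 1 / (g : ℝ)) ^ 3 := by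
  classical
  have h3 : (∑ g ∈ sq Q R, 1 / (g : ℝ)) ^ 3 =
      ∑ x ∈ sq Q R ×ˢ (sq Q R ×ˢ sq Q R), 1 / ((x.1 * (x.2.1 * x.2.2) : ℕ) : ℝ) := by
    have e : ∀ (f : ℕ → ℝ) (s : Finset ℕ), (∑ g ∈ s, f g) ^ 3 = ∑ a ∈ s, ∑ b ∈ s, ∑ c ∈ s, f a * (f b * f c) := by
      intro f s
      rw [pow_succ', pow_two, sum_mul]
      refine sum_congr rfl fun a _ => ?_
      rw [sum_mul_sum, mul_sum]
      refine sum_congr rfl fun b _ => ?_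
      rw [mul_sum]
    rw [e, sum_product]
    refine sum_congr rfl fun x _ => ?_
    rw [sum_product]
    refine sum_congr rfl fun y _ => sum_congr rfl fun z _ => ?_
    push_cast
    rw [one_div_mul_one_div, one_div_mul_one_div]
  rw [h3, ← sum_product']
  have hmem : ∀ {a b : ℕ}, b ∈ sq Q R → a ∣ b → a ∈ sq Q R := fun h1 h2 => selT_dvd h1 h2
  have key : ∀ x ∈ sq Q R ×ˢ sq Q R, 1 / (Nat.lcm x.1 x.2 : ℝ) =
      1 / (((Nat.gcd x.1 x.2) * ((x.1 / Nat.gcd x.1 x.2) * (x.2 / Nat.gcd x.1 x.2)) : ℕ) : ℝ) := by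
    rintro ⟨d, d'⟩ hx
    obtain ⟨hd, hd'⟩ := mem_product.mp hx
    have hd0 : 0 < d := (selT_mem.mp hd).1.1
    have hg0 : 0 < Nat.gcd d d' := Nat.gcd_pos_of_pos_left d' hd0
    have e1 : Nat.gcd d d' * (d / Nat.gcd d d' * (d' / Nat.gcd d d')) = Nat.lcm d d' := by
      rw [← mul_assoc, Nat.mul_div_cancel' (Nat.gcd_dvd_left d d'), Nat.lcm, Nat.mul_div_assoc _ (Nat.gcd_dvd_right d d')]
    simp only
    rw [e1]
  rw [sum_congr rfl key]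
  have hinj : Set.InjOn (fun x : ℕ × ℕ => (Nat.gcd x.1 x.2, (x.1 / Nat.gcd x.1 x.2, x.2 / Nat.gcd x.1 x.2)))
      (sq Q R ×ˢ sq Q R : Finset (ℕ × ℕ)) := by
    rintro ⟨d, d'⟩ hx ⟨e, e'⟩ hy heq
    simp only [Prod.mk.injEq] at heq
    obtain ⟨h1, h2, h4⟩ := heq
    have hd : d = e := by
      calc d = Nat.gcd d d' * (d / Nat.gcd d d') := (Nat.mul_div_cancel' (Nat.gcd_dvd_left d d')).symm
        _ = Nat.gcd e e' * (e / Nat.gcd e e') := by rw [h2, h1]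
        _ = e := Nat.mul_div_cancel' (Nat.gcd_dvd_left e e')
    have hd' : d' = e' := by
      calc d' = Nat.gcd d d' * (d' / Nat.gcd d d') := (Nat.mul_div_cancel' (Nat.gcd_dvd_right d d')).symm
        _ = Nat.gcd e e' * (e' / Nat.gcd e e') := by rw [h4, h1]
        _ = e' := Nat.mul_div_cancel' (Nat.gcd_dvd_right e e')
    rw [hd, hd']
  have h5 := sum_image (f := fun x : ℕ × ℕ × ℕ => 1 / ((x.1 * (x.2.1 * x.2.2) : ℕ) : ℝ)) hinj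
  simp only at h5
  rw [← h5]
  refine sum_le_sum_of_subset_of_nonneg ?_ fun x _ _ => by positivity
  intro y hy
  obtain ⟨⟨d, d'⟩, hx, rfl⟩ := mem_image.mp hy
  obtain ⟨hd, hd'⟩ := mem_product.mp hx
  simp only at hd hd' ⊢
  rw [mem_product, mem_product]
  exact ⟨hmem hd (Nat.gcd_dvd_left d d'), hmem hd (Nat.div_dvd_of_dvd (Nat.gcd_dvd_left d d')),
    hmem hd' (Nat.div_dvd_of_dvd (Nat.gcd_dvd_right d d'))⟩

theorem Qfb_inv (Q R : ℕ) : ∑ g ∈ sq Q R, 1 / (g : ℝ) ≤ GG Q R := by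
  unfold GG
  refine sum_le_sum fun g hg => ?_
  have h1 : 1 ≤ g := (selT_mem.mp hg).1.1
  have h2 : (0 : ℝ) < (Nat.totient g : ℝ) := by exact_mod_cast Nat.totient_pos.mpr h1
  exact one_div_le_one_div_of_le h2 (by exact_mod_cast Nat.totient_le g)

theorem Qfb_lb {Q R : ℕ} (hR : 1 ≤ R) (d : ℕ) : |lb Q R d| ≤ 1 := lam_sel_le Q R hR d

theorem fB_good (Q R : ℕ) : Good Q (DB Q R) := good_lcD (Qfb_good Q R) (Qfb_good Q R)

theorem fB_be (Q R n : ℕ) : Fn (DB Q R) (fB Q R) n = be Q R n := by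
  unfold DB fB be
  rw [← fn_mul, pow_two]

theorem fB_one {Q R : ℕ} (hR : 1 ≤ R) : SS (DB Q R) (fB Q R) 1 = 1 / GG Q R := by
  have hG := Qfb_pos Q R hR
  have hgood := Qfb_good Q R
  have h1 : SS (DB Q R) (fB Q R) 1 =
      ∑ B ∈ lcD (sq Q R) (sq Q R), lcf (sq Q R) (sq Q R) (lb Q R) (lb Q R) B * ((Nat.gcd 1 B : ℝ) / B) := by
    unfold SS DB fB
    rw [filter_true_of_mem (fun B _ => one_dvd B)]
    refine sum_congr rfl fun B _ => ?_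
    rw [Nat.gcd_one_left, Nat.cast_one, mul_one_div]
  rw [h1, lcf_gcd hgood hgood (lb Q R) (lb Q R) le_rfl]
  have h2 := selU Q R R (fun _ => (GG Q R)⁻¹) (fun _ => (GG Q R)⁻¹) (b := 1) squarefree_one (Nat.coprime_one_left Q)
  have h3 : ((1 : ℕ) : ℝ) * ∑ d ∈ sq Q R, ∑ d' ∈ sq Q R, lb Q R d * lb Q R d' / (Nat.lcm 1 (Nat.lcm d d') : ℝ) =
      ((1 : ℕ) : ℝ) * ∑ d ∈ sq Q R, ∑ d' ∈ sq Q R, lam Q R (fun _ => (GG Q R)⁻¹) d * lam Q R (fun _ => (GG Q R)⁻¹) d' / (Nat.lcm 1 (Nat.lcm d d') : ℝ) := rfl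
  rw [h3, h2]
  have h4 : (sq Q R).filter (fun r => Nat.Coprime r 1) = sq Q R :=
    filter_true_of_mem (fun r _ => Nat.coprime_one_right r)
  rw [h4]
  have h5 : ∀ r ∈ sq Q R, Yb Q R (fun _ => (GG Q R)⁻¹) 1 r * Yb Q R (fun _ => (GG Q R)⁻¹) 1 r / (Nat.totient r : ℝ) =
      ((GG Q R)⁻¹) ^ 2 * (1 / (Nat.totient r : ℝ)) := by
    intro r hr
    have h6 : Yb Q R (fun _ => (GG Q R)⁻¹) 1 r = (GG Q R)⁻¹ := by
      unfold Yb
      rw [Nat.divisors_one, sum_singleton, mul_one, if_pos hr]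
      simp
    rw [h6]
    ring
  rw [sum_congr rfl h5, ← mul_sum]
  change ((GG Q R)⁻¹) ^ 2 * GG Q R = 1 / GG Q R
  field_simp

theorem fB_ctrl {Q R : ℕ} (hR : 1 ≤ R) {Γ : ℝ} (hΓ : 1 ≤ Γ) : Ctrl 10 (10 * Γ) 1 (DB Q R) (fB Q R) := by
  have h7 := ctrl_of_U (Q := Q) (D := DB Q R) (fB_good Q R) (f := fB Q R)
      (a := 10 * Γ) (c := 4) (by linarith) (by norm_num) 1 ?_
  · have h8 : (2 * (1 + 4) : ℝ) = 10 := by norm_num
    rw [h8] at h7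
    exact h7
  · intro e he hecop
    have h9 := selB Q R R (fun _ => (GG Q R)⁻¹) (fun _ => (GG Q R)⁻¹)
      (N := 1) (N' := 1) (fun c _ => Qfb_N Q R hR c) (fun c _ => Qfb_N Q R hR c) he hecop
    rw [one_mul, Real.sqrt_one, mul_one] at h9
    have h11 : ∑ B ∈ DB Q R, fB Q R B * ((Nat.gcd e B : ℝ) / B) =
        ∑ B ∈ lcD (sq Q R) (sq Q R), lcf (sq Q R) (sq Q R)
          (lam Q R (fun _ => (GG Q R)⁻¹)) (lam Q R (fun _ => (GG Q R)⁻¹)) B * ((Nat.gcd e B : ℝ) / B) := rfl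
    rw [h11]
    refine h9.trans ?_
    rw [Nat.gcd_one_right, Nat.cast_one, mul_one]
    have h12 : (0 : ℝ) ≤ 4 ^ e.primeFactors.card := by positivity
    nlinarith

theorem fB_sum {Q R : ℕ} (hR : 1 ≤ R) {Γ : ℝ} (h : GG Q R ≤ Γ) : ∑ B ∈ DB Q R, |fB Q R B| / (B : ℝ) ≤ Γ ^ 3 := by
  have h1 : ∑ B ∈ DB Q R, |fB Q R B| / (B : ℝ) ≤
      ∑ B ∈ lcD (sq Q R) (sq Q R), lcf (sq Q R) (sq Q R) (fun d => |lb Q R d|) (fun d => |lb Q R d|) B * (1 / (B : ℝ)) := by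
    unfold DB fB
    refine sum_le_sum fun B _ => ?_
    rw [mul_one_div]
    refine div_le_div_of_nonneg_right ?_ (Nat.cast_nonneg B)
    unfold lcf
    refine (abs_sum_le_sum_abs _ _).trans (le_of_eq ?_)
    refine sum_congr rfl fun p _ => ?_
    rw [abs_mul]
  rw [lcf_sum (h := fun B => 1 / (B : ℝ))] at h1
  have h2 : ∑ d ∈ sq Q R, ∑ d' ∈ sq Q R, |lb Q R d| * |lb Q R d'| * (1 / (Nat.lcm d d' : ℝ)) ≤
      ∑ d ∈ sq Q R, ∑ d' ∈ sq Q R, 1 / (Nat.lcm d d' : ℝ) := by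
    refine sum_le_sum fun d _ => sum_le_sum fun d' _ => ?_
    have h3 : |lb Q R d| * |lb Q R d'| ≤ 1 := mul_le_one₀ (Qfb_lb hR d) (abs_nonneg _) (Qfb_lb hR d')
    exact mul_le_of_le_one_left (by positivity) h3
  have h4 : 0 ≤ ∑ g ∈ sq Q R, 1 / (g : ℝ) := sum_nonneg fun g _ => by positivity
  exact h1.trans (h2.trans ((Qfb_lcm Q R).trans (pow_le_pow_left₀ h4 ((Qfb_inv Q R).trans h) 3)))

theorem fB_abs {Q R : ℕ} (hR : 1 ≤ R) : ∑ B ∈ DB Q R, |fB Q R B| ≤ (R : ℝ) ^ 2 := by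
  have h1 := lcf_abs (sq Q R) (sq Q R) (lb Q R) (lb Q R)
  have h2 : ∑ d ∈ sq Q R, |lb Q R d| ≤ (R : ℝ) := by
    calc ∑ d ∈ sq Q R, |lb Q R d| ≤ ∑ _d ∈ sq Q R, (1 : ℝ) := sum_le_sum fun d _ => Qfb_lb hR d
      _ = ((sq Q R).card : ℝ) := by simp
      _ ≤ (R : ℝ) := by
        have h3 : (sq Q R).card ≤ (Icc 1 R).card := card_le_card (filter_subset _ _)
        rw [Nat.card_Icc] at h3
        exact_mod_cast (by omega : (sq Q R).card ≤ R)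
  have h0 : 0 ≤ ∑ d ∈ sq Q R, |lb Q R d| := sum_nonneg fun d _ => abs_nonneg _
  refine h1.trans ?_
  rw [pow_two]
  exact mul_le_mul h2 h2 h0 (Nat.cast_nonneg R)

end H69PG
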