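import Pool.Agent.H69.PG.Sys

/-!
# H4V: the other hypotheses of the abstract theorem

* `h4v`: `elu` (`J0 = 4N + 2`) with `D i = {1}`, `f i = 1`: `Fn = 1`, `SS = 1`, `Γc = A1 = A2 = 1` (`Ctrl 10 1 1 {1} 1`: `SS {1} 1 b` is `1` if `b = 1` and `0` otherwise), so
  `∑_t ∏ th0 ≤ T VV_j (1 + e^(-b0) + C/√z) + z^(..) ≤ 2 T VV_j`, `j = |U| ≤ 4N`, by `hη4` and `vv_anti`.
* `vh`: `∑_{k ∉ A} Vf(insert k A) = (|ι| - |A|) VV_{|A|+1} ≤ |ι| VV_1 VV_|A|` (`vv_succ`), for `|A| < 4N`; `Vf ≥ 0`, `Vf ∅ = VV_0 = 1`.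
* `gA_abs`: `|Fn (sq Q (Z a)) (lamA a) L| ≤ 2 Γ #{d ∈ sq Q (Z a) : d ∣ L} ≤ 2 Γ 2^ω`, `ω` the number of primes `p > z` dividing `L` (`d` is squarefree and composed of such primes); `L ≤ z^M'` gives `ω ≤ M'`.
* `rough`: if no prime `p ≤ y` divides `L` then `th0 = 1` (`z ≤ y`), the only divisor of `L` in `sq Q (Z a)`, `sq Q R` is `1` (`Z a, R ≤ y`), so `Fn = lamA 1 = wA` (`lamA_one`) and `be = (lb 1)² = 1` (`lam_sel_one`).
-/

open Finset EG

namespace H69PG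

theorem H4v_good (Q : ℕ) : Good Q {1} := by
  intro B hB
  rw [Finset.mem_singleton] at hB
  subst hB
  exact ⟨squarefree_one, Nat.coprime_one_left Q⟩

theorem H4v_SS (b : ℕ) : SS {1} (fun _ => (1 : ℝ)) b = if b ∣ 1 then 1 else 0 := by
  unfold SS
  rw [Finset.filter_singleton]
  split_ifs <;> simp

theorem H4v_ctrl : Ctrl 10 1 1 {1} (fun _ => (1 : ℝ)) := by
  intro b hb
  rw [H4v_SS]
  by_cases h : b ∣ 1
  · have hb1 : b = 1 := Nat.dvd_one.1 h
    subst hb1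
    simp
  · rw [if_neg h]
    simp only [abs_zero]
    positivity

theorem H4v_Fn (L : ℕ) : Fn {1} (fun _ => (1 : ℝ)) L = 1 := by
  unfold Fn
  rw [Finset.filter_singleton, if_pos (one_dvd L)]
  simp

theorem h4v (N : ℕ) : ∃ C1 : ℕ, ∀ (ι : Type) [Fintype ι] [DecidableEq ι] (C m M K z Q0 T R b0 : ℕ) (Z : ℕ → ℕ) (v f0 : ℕ → ℝ)
    (l Γ Pl η : ℝ) (c : ι → ℕ), C1 ≤ C → Sys C N m M K z Q0 T R b0 Z v f0 l Γ Pl η c →
    ∀ U : Finset ι, U.card ≤ 4 * N →
      ∑ t ∈ range T, ∏ i ∈ U, th0 K z (Q0 * t + c i) ≤ 2 * ((range T).card : ℝ) * Vf N K z U := by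
  obtain ⟨C0, hC01, hC0⟩ := elu (4 * N)
  refine ⟨C0, ?_⟩
  intro ι _ _ C m M K z Q0 T R b0 Z v f0 l Γ Pl η c hC hS U hU
  have hK := hS.hK
  have hKz := hS.hKz
  have h1 := hC0 b0 (hC.trans hS.hCb) ι K z Q0 (by omega) (by omega) hKz (hC.trans hS.hCz) c hS.fm T U hU
    (fun _ => {1}) (fun _ _ => 1) (fun _ => 1) (fun _ => 1) (fun _ => 1) (fun _ _ => H4v_good _) (fun _ _ => zero_le_one)
    (fun _ _ => H4v_ctrl) (fun _ _ => by simp) (fun _ _ => by simp)
  simp only [H4v_Fn, mul_one, Finset.prod_const_one] at h1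
  have hSS : ∏ _i ∈ U, SS {1} (fun _ => (1 : ℝ)) 1 = 1 := by
    rw [H4v_SS, if_pos (one_dvd 1), Finset.prod_const_one]
  rw [hSS, mul_one] at h1
  have hVf : Vf N K z U = VV K z U.card := by
    unfold Vf
    rw [if_pos (by omega)]
  rw [hVf, Finset.card_range]
  have hV4 : 0 < VV K z (4 * N) := vv_pos (by omega)
  have hVj : VV K z (4 * N) ≤ VV K z U.card := vv_anti hU (by omega)
  have hVj0 : 0 < VV K z U.card := lt_of_lt_of_le hV4 hVj
  have hT : (1 : ℝ) ≤ T := by exact_mod_cast hS.T_pos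
  have hT0 : (0 : ℝ) < T := by linarith
  have hη := hS.hη4
  set W : ℝ := (z : ℝ) ^ (3 * (4 * b0 + 10)) with hW
  have hW0 : 0 ≤ W := by positivity
  have e1 : W ≤ (T : ℝ) * VV K z U.card * (W / (T * VV K z (4 * N))) := by
    have e2 : (T : ℝ) * VV K z U.card * (W / (T * VV K z (4 * N))) = W * (VV K z U.card / VV K z (4 * N)) := by
      field_simp
    rw [e2]
    have e3 : 1 ≤ VV K z U.card / VV K z (4 * N) := (one_le_div hV4).2 hVj
    nlinarith
  have e4 : (C0 : ℝ) / Real.sqrt z ≤ (C : ℝ) / Real.sqrt z := by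
    have : (C0 : ℝ) ≤ C := by exact_mod_cast hC
    gcongr
  have hTV : 0 ≤ (T : ℝ) * VV K z U.card := by positivity
  have h2 := (abs_le.1 h1).2
  have h3 : (T : ℝ) * VV K z U.card * (Real.exp (-(b0 : ℝ)) + C0 / Real.sqrt z) + W ≤
      (T : ℝ) * VV K z U.card * 1 := by
    calc (T : ℝ) * VV K z U.card * (Real.exp (-(b0 : ℝ)) + C0 / Real.sqrt z) + W
        ≤ (T : ℝ) * VV K z U.card * (Real.exp (-(b0 : ℝ)) + C / Real.sqrt z) +
            (T : ℝ) * VV K z U.card * (W / (T * VV K z (4 * N))) :=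
          add_le_add (mul_le_mul_of_nonneg_left (by linarith) hTV) e1
      _ = (T : ℝ) * VV K z U.card * (Real.exp (-(b0 : ℝ)) + C / Real.sqrt z + W / (T * VV K z (4 * N))) := by ring
      _ ≤ (T : ℝ) * VV K z U.card * 1 := mul_le_mul_of_nonneg_left hη hTV
  linarith

theorem vh {ι : Type} [Fintype ι] [DecidableEq ι] {N K z : ℕ} (hK : 8 * N + 8 ≤ K) :
    Vh (Vf N K z : Finset ι → ℝ) ((Fintype.card ι : ℝ) * VV K z 1) (4 * N) where
  nonneg := by
    intro U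
    unfold Vf
    split_ifs with h
    · exact (vv_pos (by omega)).le
    · exact le_rfl
  empty := by
    unfold Vf
    rw [if_pos (by simp), Finset.card_empty, vv_zero]
  μ_nonneg := mul_nonneg (Nat.cast_nonneg _) (vv_pos (by omega)).le
  step := by
    intro A hA
    have h0 : Vf N K z A = VV K z A.card := by
      unfold Vf
      rw [if_pos (by omega)]
    have h1 : ∀ k ∈ Aᶜ, Vf N K z (insert k A) ≤ VV K z 1 * VV K z A.card := by
      intro k hk
      have hk' : k ∉ A := by rwa [Finset.mem_compl] at hk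
      unfold Vf
      rw [Finset.card_insert_of_notMem hk', if_pos (by omega)]
      exact vv_succ (by omega)
    refine (Finset.sum_le_sum h1).trans ?_
    rw [Finset.sum_const, nsmul_eq_mul, h0]
    have h2 : ((Aᶜ).card : ℝ) ≤ Fintype.card ι := by
      exact_mod_cast Finset.card_le_univ _
    have h3 : 0 ≤ VV K z 1 * VV K z A.card := mul_nonneg (vv_pos (by omega)).le (vv_pos (by omega)).le
    calc ((Aᶜ).card : ℝ) * (VV K z 1 * VV K z A.card) ≤ (Fintype.card ι : ℝ) * (VV K z 1 * VV K z A.card) :=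
          mul_le_mul_of_nonneg_right h2 h3
      _ = _ := by ring

theorem H4v_th0 (K z L : ℕ) : 0 ≤ th0 K z L := by
  unfold th0
  split_ifs
  · exact zero_le_one
  · exact le_rfl

theorem H4v_mem {Q z r : ℕ} : r ∈ sq Q z ↔ (1 ≤ r ∧ r ≤ z) ∧ Squarefree r ∧ Nat.Coprime r Q := by
  unfold EG.sq
  rw [Finset.mem_filter, Finset.mem_Icc]

theorem H4v_omega {z L M' : ℕ} (hz : 2 ≤ z) (hL1 : 1 ≤ L) (hL : L ≤ z ^ M') :
    (L.primeFactors.filter (fun p => z < p)).card ≤ M' := by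
  by_contra hcon
  push Not at hcon
  set W := L.primeFactors.filter (fun p => z < p) with hW
  have h1 : ∏ p ∈ W, p ∣ L := (Finset.prod_dvd_prod_of_subset _ _ _ (Finset.filter_subset _ _)).trans (Nat.prod_primeFactors_dvd L)
  have h2 : ∏ p ∈ W, p ≤ L := Nat.le_of_dvd hL1 h1
  have h3 : z ^ W.card ≤ ∏ p ∈ W, p := by
    rw [← Finset.prod_const]
    refine Finset.prod_le_prod' fun p hp => ?_
    rw [hW, Finset.mem_filter] at hp
    exact hp.2.le
  have h4 : z ^ M' < z ^ W.card := Nat.pow_lt_pow_right (by omega) hcon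
  omega

theorem H4v_count {z L M' y : ℕ} (hz : 2 ≤ z) (hL1 : 1 ≤ L) (hL : L ≤ z ^ M') :
    ((sq (primorial z) y).filter (fun B => B ∣ L)).card ≤ 2 ^ M' := by
  have h1 : ((sq (primorial z) y).filter (fun B => B ∣ L)).card ≤
      ((L.primeFactors.filter (fun p => z < p)).powerset).card := by
    refine Finset.card_le_card_of_injOn (fun B => B.primeFactors) ?_ ?_
    · intro B hB
      rw [Finset.mem_coe, Finset.mem_filter, H4v_mem] at hB
      obtain ⟨⟨_, _, hcop⟩, hdvd⟩ := hB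
      rw [Finset.mem_coe, Finset.mem_powerset]
      intro p hp
      have hpp := Nat.prime_of_mem_primeFactors hp
      have hpB := Nat.dvd_of_mem_primeFactors hp
      rw [Finset.mem_filter, Nat.mem_primeFactors]
      refine ⟨⟨hpp, hpB.trans hdvd, by omega⟩, ?_⟩
      by_contra hle
      have hdv : p ∣ primorial z := (hpp.dvd_primorial_iff).2 (not_lt.1 hle)
      have := Nat.dvd_gcd hpB hdv
      rw [hcop] at this
      exact hpp.one_lt.ne' (Nat.dvd_one.1 this)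
    · intro B hB B' hB' h
      rw [Finset.mem_coe, Finset.mem_filter, H4v_mem] at hB hB'
      have e1 := Nat.prod_primeFactors_of_squarefree hB.1.2.1
      have e2 := Nat.prod_primeFactors_of_squarefree hB'.1.2.1
      have h' : B.primeFactors = B'.primeFactors := h
      rw [← e1, ← e2, h']
  rw [Finset.card_powerset] at h1
  exact h1.trans (Nat.pow_le_pow_right (by norm_num) (H4v_omega hz hL1 hL))

theorem gA_abs {ι : Type} {K z Q0 m M M' : ℕ} {Z : ℕ → ℕ} {f0 : ℕ → ℝ} {Γ : ℝ} {c : ι → ℕ} (hz : 2 ≤ z) (hM : 2 * M ≤ z)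
    (hΓ : 1 ≤ Γ) (hZM : ∀ a ≤ m, Z a ≤ z ^ M) (hG : ∀ a ≤ m, GG (primorial z) (Z a) ≤ Γ) (hf : ∀ a, |f0 a| ≤ 1)
    {i : ι} {t : ℕ} (hL1 : 1 ≤ Q0 * t + c i) (hL : Q0 * t + c i ≤ z ^ M') {a : ℕ} (ha : a ∈ Icc 1 m) :
    |gA K z Q0 Z f0 c i a t| ≤ (2 * Γ * 2 ^ M') * th0 K z (Q0 * t + c i) := by
  rw [Finset.mem_Icc] at ha
  unfold gA
  rw [if_neg (by omega), abs_mul, abs_neg, abs_mul, abs_of_nonneg (H4v_th0 _ _ _)]
  have h1 : |Fn (sq (primorial z) (Z a)) (lamA Z (primorial z) a) (Q0 * t + c i)| ≤ 2 * Γ * 2 ^ M' := by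
    unfold Fn
    refine (Finset.abs_sum_le_sum_abs _ _).trans ?_
    refine (Finset.sum_le_sum fun B _ => lamA_abs (by omega) (hZM a ha.2) hM (hG a ha.2) B).trans ?_
    rw [Finset.sum_const, nsmul_eq_mul]
    have h2 : ((((sq (primorial z) (Z a)).filter (fun B => B ∣ Q0 * t + c i)).card : ℕ) : ℝ) ≤ 2 ^ M' := by
      exact_mod_cast H4v_count hz hL1 hL
    nlinarith
  have h0 := H4v_th0 K z (Q0 * t + c i)
  calc |f0 a| * (th0 K z (Q0 * t + c i) * |Fn (sq (primorial z) (Z a)) (lamA Z (primorial z) a) (Q0 * t + c i)|)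
      ≤ 1 * (th0 K z (Q0 * t + c i) * (2 * Γ * 2 ^ M')) :=
        mul_le_mul (hf a) (mul_le_mul_of_nonneg_left h1 h0) (mul_nonneg h0 (abs_nonneg _)) zero_le_one
    _ = _ := by ring

theorem H4v_filter {Q x y L : ℕ} (hx : 1 ≤ x) (hxy : x ≤ y) (hr : ∀ p : ℕ, p.Prime → p ≤ y → ¬ p ∣ L) :
    (sq Q x).filter (fun B => B ∣ L) = {1} := by
  ext B
  rw [Finset.mem_filter, H4v_mem, Finset.mem_singleton]
  constructor
  · rintro ⟨⟨⟨h1, h2⟩, _, _⟩, h3⟩
    by_contra hne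
    obtain ⟨p, hp, hpB⟩ := Nat.exists_prime_and_dvd hne
    exact hr p hp ((Nat.le_of_dvd h1 hpB).trans (h2.trans hxy)) (hpB.trans h3)
  · rintro rfl
    exact ⟨⟨⟨le_rfl, hx⟩, squarefree_one, Nat.coprime_one_left Q⟩, one_dvd L⟩

theorem rough {ι : Type} {K z Q0 m R y : ℕ} {Z : ℕ → ℕ} {f0 : ℕ → ℝ} {c : ι → ℕ} (hZ0 : Z 0 = 1) (hZ : Monotone Z)
    (hR : 1 ≤ R) (hRy : R ≤ y) (hzy : z ≤ y) (hZy : ∀ a ≤ m, Z a ≤ y) {i : ι} {t : ℕ}
    (hr : ∀ p : ℕ, p.Prime → p ≤ y → ¬ p ∣ Q0 * t + c i) :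
    1 ≤ bA K z Q0 R c i t ∧ ∀ a ∈ Icc 1 m, gA K z Q0 Z f0 c i a t = - (f0 a * wA Z (primorial z) a) := by
  have hth : th0 K z (Q0 * t + c i) = 1 := by
    unfold th0
    rw [if_pos]
    intro p hp
    unfold PK at hp
    rw [Finset.mem_filter, Finset.mem_Ioc] at hp
    exact hr p hp.2 (hp.1.2.trans hzy)
  constructor
  · unfold bA be Fn
    rw [hth, H4v_filter hR hRy hr, Finset.sum_singleton]
    unfold lb
    rw [lam_sel_one _ R hR]
    norm_num
  · intro a ha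
    rw [Finset.mem_Icc] at ha
    unfold gA
    rw [if_neg (by omega), hth]
    have hZa : 1 ≤ Z a := by
      have := hZ (Nat.zero_le a)
      rw [hZ0] at this
      exact this
    have h1 : Fn (sq (primorial z) (Z a)) (lamA Z (primorial z) a) (Q0 * t + c i) = wA Z (primorial z) a := by
      unfold Fn
      rw [H4v_filter hZa (hZy a ha.2) hr, Finset.sum_singleton, lamA_one _ hZ0 hZ]
    rw [h1]
    ring

end H69PG
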