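import Pool.Agent.H69.PG.Ar0
import Pool.Agent.H67.GT.MERT

/-!
# VVF: the products `VV`

For `p ∈ PK K z`: `p > K ≥ 2 j`, so `j/p ≤ 1/2`.
* `vv_pos`: all factors are positive. `vv_anti`: factor by factor. `vv_succ`: `(1 - 1/p)(1 - j/p) = 1 - (j+1)/p + j/p² ≥ 1 - (j+1)/p ≥ 0` (`2(j+1) ≤ K`).
* `vv_le_one`. `vv_low`: `1 - x ≥ exp(-2x) ≥ (1 - 1/p)^(2j)` for `x = j/p ≤ 1/2` (`1 - 1/p ≤ exp(-1/p)`), so `VV K z j ≥ (VV K z 1)^(2j)`, and `VV K z 1 ≥ V univ z ≥ 1/(c log z)` by the fourth part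
  of `Mert` (`mert` in `Pool/Agent/H67/GT/MERT.lean`; `V univ z = ∏_{p ≤ z} (1 - 1/p)`).
* `vv_mu`: `φ(primorial z0)/primorial z0 = V univ z0 ≤ c/log z0`, `VV K z 1 = V univ z/V univ K ≤ (c/log z)(c log K)` by `Mert`.
-/

open Finset EG

namespace H69PG

namespace VVFaux

open Pool.Agent.H67.GT (prs V Mert)

lemma mem_PK {K z p : ℕ} : p ∈ PK K z ↔ K < p ∧ p ≤ z ∧ p.Prime := by
  unfold PK
  rw [mem_filter, mem_Ioc]
  tauto

/-- for `p ∈ PK K z` and `2 j ≤ K` -/
lemma frac {K z j p : ℕ} (h : 2 * j ≤ K) (hp : p ∈ PK K z) :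
    0 < (p : ℝ) ∧ (j : ℝ) / p ≤ 1 / 2 ∧ 0 ≤ (j : ℝ) / p := by
  rw [mem_PK] at hp
  have hp0 : 0 < p := hp.2.2.pos
  have hpr : (0 : ℝ) < p := by exact_mod_cast hp0
  refine ⟨hpr, ?_, by positivity⟩
  rw [div_le_iff₀ hpr]
  have : 2 * j ≤ p := by omega
  have h2 : (2 : ℝ) * j ≤ p := by exact_mod_cast this
  linarith

lemma prs_univ (z : ℕ) : prs Set.univ z = (Icc 1 z).filter Nat.Prime := by
  unfold prs
  ext p
  simp

lemma vuniv_split {K z : ℕ} (h : K ≤ z) : V Set.univ z = V Set.univ K * VV K z 1 := by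
  unfold V VV
  rw [prs_univ, prs_univ]
  have e : (Icc 1 z).filter Nat.Prime = ((Icc 1 K).filter Nat.Prime) ∪ PK K z := by
    ext p
    rw [mem_union, mem_PK, mem_filter, mem_filter, mem_Icc, mem_Icc]
    constructor
    · rintro ⟨⟨h1, h2⟩, h3⟩
      rcases le_or_gt p K with hk | hk
      · exact Or.inl ⟨⟨h1, hk⟩, h3⟩
      · exact Or.inr ⟨hk, h2, h3⟩
    · rintro (⟨⟨h1, h2⟩, h3⟩ | ⟨h1, h2, h3⟩)
      · exact ⟨⟨h1, h2.trans h⟩, h3⟩
      · exact ⟨⟨h3.one_lt.le, h2⟩, h3⟩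
  have d : Disjoint ((Icc 1 K).filter Nat.Prime) (PK K z) := by
    rw [Finset.disjoint_left]
    intro p hp hq
    rw [mem_PK] at hq
    rw [mem_filter, mem_Icc] at hp
    omega
  rw [e, Finset.prod_union d]
  simp

lemma vuniv_pos (z : ℕ) : 0 < V Set.univ z := by
  unfold V
  rw [prs_univ]
  refine Finset.prod_pos (fun p hp => ?_)
  rw [mem_filter] at hp
  have h2 : (2 : ℝ) ≤ p := by exact_mod_cast hp.2.two_le
  have : 1 / (p : ℝ) ≤ 1 / 2 := by
    apply one_div_le_one_div_of_le <;> linarith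
  linarith

lemma vuniv_le_one (z : ℕ) : V Set.univ z ≤ 1 := by
  unfold V
  rw [prs_univ]
  refine Finset.prod_le_one (fun p hp => ?_) (fun p hp => ?_)
  · rw [mem_filter] at hp
    have h2 : (2 : ℝ) ≤ p := by exact_mod_cast hp.2.two_le
    have : 1 / (p : ℝ) ≤ 1 / 2 := by
      apply one_div_le_one_div_of_le <;> linarith
    linarith
  · have : (0 : ℝ) ≤ 1 / (p : ℝ) := by positivity
    linarith

lemma tot_primorial (z : ℕ) :
    (Nat.totient (primorial z) : ℝ) / (primorial z : ℝ) = V Set.univ z := by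
  have hpos : (0 : ℝ) < (primorial z : ℝ) := by exact_mod_cast primorial_pos z
  have h := Nat.totient_eq_mul_prod_factors (primorial z)
  have h' : (Nat.totient (primorial z) : ℝ) =
      (primorial z : ℝ) * ∏ p ∈ (primorial z).primeFactors, (1 - (p : ℝ)⁻¹) := by
    have := congrArg (fun x : ℚ => (x : ℝ)) h
    push_cast at this
    exact this
  rw [h', mul_div_cancel_left₀ _ hpos.ne', primeFactors_primorial]
  unfold V
  rw [prs_univ]
  apply Finset.prod_congr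
  · ext p
    rw [Nat.mem_primesLE, mem_filter, mem_Icc]
    constructor
    · rintro ⟨h1, h2⟩
      exact ⟨⟨h2.one_lt.le, h1⟩, h2⟩
    · rintro ⟨⟨h1, h2⟩, h3⟩
      exact ⟨h2, h3⟩
  · intro p _
    rw [one_div]

end VVFaux

open VVFaux
open Pool.Agent.H67.GT (V Mert)

theorem vv_pos {K z j : ℕ} (h : 2 * j ≤ K) : 0 < VV K z j := by
  unfold VV
  refine Finset.prod_pos (fun p hp => ?_)
  obtain ⟨_, h1, _⟩ := frac h hp
  linarith

theorem vv_le_one {K z j : ℕ} (h : 2 * j ≤ K) : VV K z j ≤ 1 := by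
  unfold VV
  refine Finset.prod_le_one (fun p hp => ?_) (fun p hp => ?_)
  · obtain ⟨_, h1, _⟩ := frac h hp
    linarith
  · obtain ⟨_, _, h1⟩ := frac h hp
    linarith

theorem vv_anti {K z j j' : ℕ} (hj : j ≤ j') (h : 2 * j' ≤ K) : VV K z j' ≤ VV K z j := by
  unfold VV
  refine Finset.prod_le_prod (fun p hp => ?_) (fun p hp => ?_)
  · obtain ⟨_, h1, _⟩ := frac h hp
    linarith
  · obtain ⟨h0, _, _⟩ := frac h hp
    have hjj : (j : ℝ) ≤ j' := by exact_mod_cast hj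
    have : (j : ℝ) / p ≤ (j' : ℝ) / p := by gcongr
    linarith

theorem vv_succ {K z j : ℕ} (h : 2 * (j + 1) ≤ K) : VV K z (j + 1) ≤ VV K z 1 * VV K z j := by
  unfold VV
  rw [← Finset.prod_mul_distrib]
  refine Finset.prod_le_prod (fun p hp => ?_) (fun p hp => ?_)
  · obtain ⟨_, h1, _⟩ := frac h hp
    linarith
  · obtain ⟨h0, _, _⟩ := frac h hp
    have e : (1 - ((1 : ℕ) : ℝ) / p) * (1 - (j : ℝ) / p) =
        1 - ((j + 1 : ℕ) : ℝ) / p + (j : ℝ) / (p * p) := by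
      push_cast
      field_simp
      ring
    rw [e]
    have : (0 : ℝ) ≤ (j : ℝ) / (p * p) := by positivity
    linarith

theorem vv_zero (K z : ℕ) : VV K z 0 = 1 := by
  unfold VV
  simp

theorem vv_low : ∃ C : ℝ, 1 ≤ C ∧ ∀ K z j : ℕ, 2 * j ≤ K → 2 ≤ K → K ≤ z →
    1 / (C * Real.log z) ^ (2 * j) ≤ VV K z j := by
  obtain ⟨c, hc, _, _, _, h4, _⟩ := Pool.Agent.H67.GT.MERT.mert
  refine ⟨c, hc, ?_⟩
  intro K z j hj hK hz
  have hz2 : 2 ≤ z := hK.trans hz
  have hV := h4 Set.univ z hz2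
  have hlog : 0 < Real.log z := Real.log_pos (by exact_mod_cast (by omega : 1 < z))
  have h1 : 2 * 1 ≤ K := by omega
  have hVV1 : V Set.univ z ≤ VV K z 1 := by
    rw [vuniv_split hz]
    have := vv_pos (K := K) (z := z) h1
    have h2 := vuniv_le_one K
    nlinarith
  have h5 : 1 / (c * Real.log z) ≤ VV K z 1 := hV.trans hVV1
  have h6 : (VV K z 1) ^ (2 * j) ≤ VV K z j := by
    unfold VV
    rw [← Finset.prod_pow]
    refine Finset.prod_le_prod (fun p hp => ?_) (fun p hp => ?_)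
    · obtain ⟨_, h1, _⟩ := frac (j := 1) h1 hp
      have : 0 ≤ 1 - ((1 : ℕ) : ℝ) / p := by linarith
      positivity
    · obtain ⟨hp0, hx1, hx0⟩ := frac hj hp
      obtain ⟨_, hy1, _⟩ := frac (j := 1) h1 hp
      have hb0 : 0 ≤ 1 - ((1 : ℕ) : ℝ) / p := by linarith
      have hb : 1 - ((1 : ℕ) : ℝ) / p ≤ Real.exp (-(1 / (p : ℝ))) := by
        have := Real.add_one_le_exp (-(1 / (p : ℝ)))
        push_cast
        linarith
      have hb2 : (1 - ((1 : ℕ) : ℝ) / p) ^ (2 * j) ≤ Real.exp (-(1 / (p : ℝ))) ^ (2 * j) :=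
        pow_le_pow_left₀ hb0 hb _
      refine hb2.trans ?_
      rw [← Real.exp_nat_mul]
      set x : ℝ := (j : ℝ) / p with hx
      have e : ((2 * j : ℕ) : ℝ) * -(1 / (p : ℝ)) = -(2 * x) := by
        rw [hx]; push_cast; ring
      rw [e, Real.exp_neg]
      have h7 : 1 + 2 * x ≤ Real.exp (2 * x) := by
        have := Real.add_one_le_exp (2 * x)
        linarith
      have h8 : (Real.exp (2 * x))⁻¹ ≤ (1 + 2 * x)⁻¹ := by
        apply inv_anti₀ (by linarith) h7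
      refine h8.trans ?_
      rw [inv_le_iff_one_le_mul₀ (by linarith)]
      nlinarith
  refine le_trans ?_ h6
  rw [show 1 / (c * Real.log z) ^ (2 * j) = (1 / (c * Real.log z)) ^ (2 * j) by
    rw [one_div_pow]]
  apply pow_le_pow_left₀ _ h5
  positivity

theorem vv_mu : ∃ C : ℝ, 1 ≤ C ∧ ∀ z0 K z : ℕ, 2 ≤ z0 → 2 ≤ K → K ≤ z →
    (Nat.totient (primorial z0) : ℝ) / (primorial z0 : ℝ) * VV K z 1 ≤ C * Real.log K / (Real.log z0 * Real.log z) := by
  obtain ⟨c, hc, _, _, _, h4, h5⟩ := Pool.Agent.H67.GT.MERT.mert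
  refine ⟨c * c * c, ?_, ?_⟩
  · have : 1 ≤ c * c := by nlinarith
    nlinarith
  intro z0 K z hz0 hK hz
  have hz2 : 2 ≤ z := hK.trans hz
  have l0 : 0 < Real.log z0 := Real.log_pos (by exact_mod_cast (by omega : 1 < z0))
  have lK : 0 < Real.log K := Real.log_pos (by exact_mod_cast (by omega : 1 < K))
  have lz : 0 < Real.log z := Real.log_pos (by exact_mod_cast (by omega : 1 < z))
  rw [tot_primorial]
  have a0 : V Set.univ z0 ≤ c / Real.log z0 := by
    rw [le_div_iff₀ l0]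
    exact h5 z0 hz0
  have az : V Set.univ z ≤ c / Real.log z := by
    rw [le_div_iff₀ lz]
    exact h5 z hz2
  have aK : 1 / (c * Real.log K) ≤ V Set.univ K := h4 Set.univ K hK
  have hcK : 0 < c * Real.log K := by positivity
  have hKp := vuniv_pos K
  have b1 : VV K z 1 = V Set.univ z / V Set.univ K := by
    rw [vuniv_split hz]
    field_simp
  have b2 : VV K z 1 ≤ (c / Real.log z) * (c * Real.log K) := by
    rw [b1, div_le_iff₀ hKp]
    have : 1 ≤ (c * Real.log K) * V Set.univ K := by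
      rw [div_le_iff₀ hcK] at aK
      linarith
    have h9 : 0 ≤ c / Real.log z := by positivity
    calc V Set.univ z ≤ c / Real.log z := az
      _ = (c / Real.log z) * 1 := by ring
      _ ≤ (c / Real.log z) * ((c * Real.log K) * V Set.univ K) := by gcongr
      _ = _ := by ring
  have b3 : 0 ≤ VV K z 1 := (vv_pos (by omega : 2 * 1 ≤ K)).le
  calc V Set.univ z0 * VV K z 1 ≤ (c / Real.log z0) * ((c / Real.log z) * (c * Real.log K)) := by
        apply mul_le_mul a0 b2 b3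
        positivity
    _ = c * c * c * Real.log K / (Real.log z0 * Real.log z) := by
        field_simp

end H69PG
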