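import Mathlib

/-!
# EPS: choice of `ε`

All conditions hold for all sufficiently small `ε > 0`: `⌊1/(60ε)⌋₊ ≥ 1/(60ε) - 1` tends to infinity, and `exp(1 - 1/(60ε))` times a polynomial in `1/ε` tends to `0`
(put `u = 1/ε`; `u^k e^(-u/60) → 0`).
-/

namespace H69PG

theorem epsch (N m C : ℕ) {D Λ v1 : ℝ} (hD : 1 ≤ D) (hΛ : 1 ≤ Λ) (hv1 : 0 < v1) :
    ∃ ε : ℝ, 0 < ε ∧ ε ≤ v1 / (4 * D) ∧ ε ≤ 1 / 1000 ∧ C ≤ ⌊1 / (60 * ε)⌋₊ ∧
      Real.exp (-(⌊1 / (60 * ε)⌋₊ : ℝ)) ≤ 1 / 4 ∧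
      3 * Real.exp (-(⌊1 / (60 * ε)⌋₊ : ℝ)) * (4 * (2 * D / ε) ^ 5) ^ (2 * N + 1) *
        ((2 * (N : ℝ) + 1) * (1 + ((m : ℝ) + 1) ^ 2 * (8 * D * Λ / ε)) ^ (2 * N + 1)) ≤ 1 / 8 := by
  obtain ⟨A, hA⟩ : ∃ A : ℝ, A = (4 * (120 * D) ^ 5) ^ (2 * N + 1) *
      ((2 * (N : ℝ) + 1) * (1 + ((m : ℝ) + 1) ^ 2 * (480 * D * Λ)) ^ (2 * N + 1)) := ⟨_, rfl⟩
  have hD0 : 0 < D := by linarith
  have hΛ0 : 0 < Λ := by linarith
  have hlim : Filter.Tendsto (fun n : ℕ => 3 * A * ((n : ℝ) ^ (6 * (2 * N + 1)) * Real.exp (-(n : ℝ))))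
      Filter.atTop (nhds (3 * A * 0)) :=
    ((Real.tendsto_pow_mul_exp_neg_atTop_nhds_zero (6 * (2 * N + 1))).comp
      tendsto_natCast_atTop_atTop).const_mul (3 * A)
  rw [mul_zero] at hlim
  have hev := hlim.eventually (Iic_mem_nhds (show (0 : ℝ) < 1 / 8 by norm_num))
  have hev2 : ∀ᶠ n : ℕ in Filter.atTop, 4 * D / v1 ≤ (n : ℝ) :=
    tendsto_natCast_atTop_atTop.eventually_ge_atTop _
  obtain ⟨n, hn1, hn2, hn3, hn4⟩ := (hev.and (hev2.and ((Filter.eventually_ge_atTop 17).and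
    (Filter.eventually_ge_atTop C)))).exists
  have hn1' : 3 * A * ((n : ℝ) ^ (6 * (2 * N + 1)) * Real.exp (-(n : ℝ))) ≤ 1 / 8 := hn1
  have hn0 : (0 : ℝ) < n := by
    have : 0 < n := by omega
    exact_mod_cast this
  have hn17 : (17 : ℝ) ≤ n := by exact_mod_cast hn3
  have he : 1 / (60 * (1 / (60 * (n : ℝ)))) = n := by field_simp
  refine ⟨1 / (60 * (n : ℝ)), by positivity, ?_, ?_, ?_, ?_, ?_⟩
  · rw [div_le_div_iff₀ (by positivity) (by positivity)]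
    rw [div_le_iff₀ hv1] at hn2
    nlinarith [mul_pos hn0 hv1]
  · rw [div_le_div_iff₀ (by positivity) (by norm_num)]
    linarith
  · rw [he, Nat.floor_natCast]
    exact hn4
  · rw [he, Nat.floor_natCast, Real.exp_neg]
    have h1 : (4 : ℝ) ≤ Real.exp n := by
      have := Real.add_one_le_exp (n : ℝ)
      linarith
    rw [inv_eq_one_div]
    exact one_div_le_one_div_of_le (by norm_num) h1
  · rw [he, Nat.floor_natCast]
    have e1 : 2 * D / (1 / (60 * (n : ℝ))) = 120 * D * n := by field_simp; ring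
    have e2 : 8 * D * Λ / (1 / (60 * (n : ℝ))) = 480 * D * Λ * n := by field_simp; ring
    rw [e1, e2]
    refine le_trans ?_ hn1'
    have hn1 : (1 : ℝ) ≤ n := by linarith
    have e3 : (4 * (120 * D * (n : ℝ)) ^ 5) ^ (2 * N + 1) =
        (4 * (120 * D) ^ 5) ^ (2 * N + 1) * (n : ℝ) ^ (5 * (2 * N + 1)) := by
      rw [mul_pow (120 * D) (n : ℝ) 5, ← mul_assoc, mul_pow, ← pow_mul]
    have h4 : 1 + ((m : ℝ) + 1) ^ 2 * (480 * D * Λ * n) ≤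
        (1 + ((m : ℝ) + 1) ^ 2 * (480 * D * Λ)) * n := by
      nlinarith
    have h5 : (1 + ((m : ℝ) + 1) ^ 2 * (480 * D * Λ * n)) ^ (2 * N + 1) ≤
        (1 + ((m : ℝ) + 1) ^ 2 * (480 * D * Λ)) ^ (2 * N + 1) * (n : ℝ) ^ (2 * N + 1) := by
      rw [← mul_pow]
      exact pow_le_pow_left₀ (by positivity) h4 _
    rw [e3]
    calc 3 * Real.exp (-(n : ℝ)) * ((4 * (120 * D) ^ 5) ^ (2 * N + 1) * (n : ℝ) ^ (5 * (2 * N + 1))) *
        ((2 * (N : ℝ) + 1) * (1 + ((m : ℝ) + 1) ^ 2 * (480 * D * Λ * n)) ^ (2 * N + 1))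
        ≤ 3 * Real.exp (-(n : ℝ)) * ((4 * (120 * D) ^ 5) ^ (2 * N + 1) * (n : ℝ) ^ (5 * (2 * N + 1))) *
        ((2 * (N : ℝ) + 1) * ((1 + ((m : ℝ) + 1) ^ 2 * (480 * D * Λ)) ^ (2 * N + 1) *
          (n : ℝ) ^ (2 * N + 1))) := by
          refine mul_le_mul_of_nonneg_left ?_ (by positivity)
          exact mul_le_mul_of_nonneg_left h5 (by positivity)
      _ = 3 * A * ((n : ℝ) ^ (6 * (2 * N + 1)) * Real.exp (-(n : ℝ))) := by
          rw [hA, show 6 * (2 * N + 1) = 5 * (2 * N + 1) + (2 * N + 1) by ring, pow_add]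
          ring

end H69PG
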