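import Pool.Agent.H69.PG.Zfl
import Pool.Agent.H69.PG.VVf

/-!
# EVT: conditions which hold for large `x`

`K = ⌊Λ log x⌋₊`, `z = zf ε x`, `R = zf r x`, `T = ⌊x/primorial ⌊log x/100⌋₊⌋₊ ≥ x^(97/100)` (`tlow`), `b0 = ⌊1/(60ε)⌋₊`. All inequalities are immediate for large `x`:
* `z ≥ x^(ε/2)` (`zfl`), so `z^M ≥ x` for `M = ⌈2/ε⌉₊` and `z^M' ≥ x^(A+2) ≥ x + x^A` for `M' = ⌈2(A+2)/ε⌉₊`; `K ≤ Λ log x ≤ z`; `C/√z → 0`.
* `z^(3(4 b0 + 10)) ≤ x^(ε(12 b0 + 30)) ≤ x^(1/5 + 30/1000) ≤ x^(1/4)`; `(x^(1/8))² R² ≤ x^(1/4 + 1/8)` (`r ≤ 1/16`); `T VV ≥ x^(97/100)/(C' log z)^(2j)` (`vv_low`), `log z ≤ log x`. So the quotients are at most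
  a constant times `x^(1/4 + 3/8 - 97/100) (C' log x)^(8N+4) → 0`.
-/

open Finset EG

namespace H69PG

theorem Evt_small (G c : ℝ) (k : ℕ) {s δ : ℝ} (hs : 0 < s) (hδ : 0 < δ) :
    ∀ᶠ x : ℝ in Filter.atTop, G * (c * Real.log x) ^ k ≤ δ * x ^ s := by
  have h0 : 0 < δ / (|G * c ^ k| + 1) := by positivity
  have h := (isLittleO_log_rpow_rpow_atTop (k : ℝ) hs).def h0
  filter_upwards [h, Filter.eventually_ge_atTop 1] with x hx hx1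
  have hxs : 0 ≤ x ^ s := Real.rpow_nonneg (by linarith) s
  rw [Real.rpow_natCast, Real.norm_eq_abs, Real.norm_eq_abs, abs_of_nonneg hxs] at hx
  calc G * (c * Real.log x) ^ k = (G * c ^ k) * (Real.log x) ^ k := by rw [mul_pow]; ring
    _ ≤ |G * c ^ k| * |(Real.log x) ^ k| := by rw [← abs_mul]; exact le_abs_self _
    _ ≤ (|G * c ^ k| + 1) * (δ / (|G * c ^ k| + 1) * x ^ s) :=
        mul_le_mul (by linarith) hx (abs_nonneg _) (by positivity)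
    _ = δ * x ^ s := by field_simp

theorem Evt_quot {Nn T' V G l x a κ : ℝ} {k : ℕ} (hN : Nn ≤ G * x ^ a)
    (hT : x ^ (97 / 100 : ℝ) ≤ T') (hl : 0 < l) (hV : 1 / l ^ k ≤ V)
    (hs : G * l ^ k ≤ κ * x ^ (97 / 100 - a)) (hx : 1 ≤ x) (hκ : 0 ≤ κ) : Nn / (T' * V) ≤ κ := by
  have hx0 : 0 < x := by linarith
  have hlk : 0 < l ^ k := pow_pos hl k
  have h1 : 0 < x ^ (97 / 100 : ℝ) := Real.rpow_pos_of_pos hx0 _
  have h2 : 0 < 1 / l ^ k := by positivity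
  have h3 : x ^ (97 / 100 : ℝ) * (1 / l ^ k) ≤ T' * V := mul_le_mul hT hV h2.le (h1.le.trans hT)
  have h4 : 0 < T' * V := lt_of_lt_of_le (mul_pos h1 h2) h3
  rw [div_le_iff₀ h4]
  have hxa : 0 < x ^ a := Real.rpow_pos_of_pos hx0 _
  have h5 : x ^ (97 / 100 : ℝ) = x ^ (97 / 100 - a) * x ^ a := by
    rw [← Real.rpow_add hx0]
    congr 1
    ring
  have h6 : G * x ^ a ≤ κ * (x ^ (97 / 100 : ℝ) * (1 / l ^ k)) := by
    rw [h5, mul_one_div, ← mul_div_assoc, le_div_iff₀ hlk]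
    calc G * x ^ a * l ^ k = (G * l ^ k) * x ^ a := by ring
      _ ≤ (κ * x ^ (97 / 100 - a)) * x ^ a := mul_le_mul_of_nonneg_right hs hxa.le
      _ = κ * (x ^ (97 / 100 - a) * x ^ a) := by ring
  exact hN.trans (h6.trans (mul_le_mul_of_nonneg_left h3 hκ))

/-- the power of `z` -/
theorem Evt_zpow {ε x z : ℝ} (hε : 0 < ε) (hε1 : ε ≤ 1 / 1000) (hx : 1 ≤ x) (hz0 : 0 ≤ z)
    (hz : z ≤ x ^ ε) : z ^ (3 * (4 * ⌊1 / (60 * ε)⌋₊ + 10)) ≤ x ^ (1 / 4 : ℝ) := by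
  have hx0 : 0 < x := by linarith
  refine (pow_le_pow_left₀ hz0 hz _).trans ?_
  rw [← Real.rpow_natCast, ← Real.rpow_mul hx0.le]
  apply Real.rpow_le_rpow_of_exponent_le hx
  have h1 : ((⌊1 / (60 * ε)⌋₊ : ℕ) : ℝ) ≤ 1 / (60 * ε) := Nat.floor_le (by positivity)
  have h2 : ε * ((⌊1 / (60 * ε)⌋₊ : ℕ) : ℝ) ≤ 1 / 60 := by
    calc ε * ((⌊1 / (60 * ε)⌋₊ : ℕ) : ℝ) ≤ ε * (1 / (60 * ε)) := mul_le_mul_of_nonneg_left h1 hε.le
      _ = 1 / 60 := by field_simp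
  push_cast
  nlinarith

theorem evt (N C : ℕ) {Λ ε r A G0 κ0 : ℝ} (hΛ : 1 ≤ Λ) (hε : 0 < ε) (hε1 : ε ≤ 1 / 1000) (hr : 0 < r) (hr1 : r ≤ 1 / 16)
    (hA : 0 < A) (hG0 : 1 ≤ G0) (hκ : 0 < κ0) : ∃ x0 : ℝ, 1 ≤ x0 ∧ ∀ x : ℝ, x0 ≤ x →
    8 * N + 8 ≤ ⌊Λ * Real.log x⌋₊ ∧ ⌊Λ * Real.log x⌋₊ ≤ zf ε x ∧ C ≤ zf ε x ∧ 2 * ⌈2 / ε⌉₊ ≤ zf ε x ∧
    x ≤ (zf ε x : ℝ) ^ ⌈2 / ε⌉₊ ∧ x + x ^ A ≤ (zf ε x : ℝ) ^ ⌈2 * (A + 2) / ε⌉₊ ∧
    1 ≤ ⌊x / (primorial ⌊Real.log x / 100⌋₊ : ℝ)⌋₊ ∧ 1 ≤ zf r x ∧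
    C / Real.sqrt (zf ε x) * (10 * G0) ^ (2 * N + 1) ≤ κ0 ∧
    (zf ε x : ℝ) ^ (3 * (4 * ⌊1 / (60 * ε)⌋₊ + 10)) * (4 * G0 ^ 2) ^ (2 * N + 1) * ((x ^ (1 / 8 : ℝ)) ^ 2 * (zf r x : ℝ) ^ 2) /
      ((⌊x / (primorial ⌊Real.log x / 100⌋₊ : ℝ)⌋₊ : ℝ) * VV ⌊Λ * Real.log x⌋₊ (zf ε x) (2 * N + 1)) ≤ κ0 ∧
    C / Real.sqrt (zf ε x) ≤ 1 / 4 ∧
    (zf ε x : ℝ) ^ (3 * (4 * ⌊1 / (60 * ε)⌋₊ + 10)) /
      ((⌊x / (primorial ⌊Real.log x / 100⌋₊ : ℝ)⌋₊ : ℝ) * VV ⌊Λ * Real.log x⌋₊ (zf ε x) (4 * N)) ≤ 1 / 4 := by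
  obtain ⟨C', hC', hVV⟩ := vv_low
  obtain ⟨x1, hzfl⟩ := zfl hε
  obtain ⟨x2, htl⟩ := tlow
  have hzinf : Filter.Tendsto (fun x : ℝ => (zf ε x : ℝ)) Filter.atTop Filter.atTop := by
    unfold zf
    exact tendsto_natCast_atTop_atTop.comp (tendsto_nat_floor_atTop.comp (tendsto_rpow_atTop hε))
  have hq : Filter.Tendsto (fun x : ℝ => (C : ℝ) / Real.sqrt (zf ε x)) Filter.atTop (nhds 0) :=
    tendsto_const_nhds.div_atTop (Real.tendsto_sqrt_atTop.comp hzinf)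
  have hq2 : Filter.Tendsto (fun x : ℝ => (C : ℝ) / Real.sqrt (zf ε x) * (10 * G0) ^ (2 * N + 1))
      Filter.atTop (nhds 0) := by
    have := hq.mul_const ((10 * G0) ^ (2 * N + 1))
    rwa [zero_mul] at this
  have e9 := hq2.eventually_le_const hκ
  have e11 := hq.eventually_le_const (show (0 : ℝ) < 1 / 4 by norm_num)
  have e1 := Real.tendsto_log_atTop.eventually_ge_atTop (8 * (N : ℝ) + 8)
  have e2 := Evt_small 1 Λ 1 hε one_pos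
  have e3 := hzinf.eventually_ge_atTop (C : ℝ)
  have e4 := hzinf.eventually_ge_atTop ((2 * ⌈2 / ε⌉₊ : ℕ) : ℝ)
  have e10 := Evt_small ((4 * G0 ^ 2) ^ (2 * N + 1)) C' (2 * (2 * N + 1))
    (show (0 : ℝ) < 97 / 100 - 5 / 8 by norm_num) hκ
  have e12 := Evt_small 1 C' (2 * (4 * N)) (show (0 : ℝ) < 97 / 100 - 1 / 4 by norm_num)
    (show (0 : ℝ) < 1 / 4 by norm_num)
  have hall := e9.and (e11.and (e1.and (e2.and (e3.and (e4.and (e10.and (e12.and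
    ((Filter.eventually_ge_atTop x1).and ((Filter.eventually_ge_atTop x2).and
      (Filter.eventually_ge_atTop (2 : ℝ)))))))))))
  obtain ⟨x0, hx0⟩ := Filter.eventually_atTop.mp hall
  refine ⟨max 1 x0, le_max_left _ _, fun x hx => ?_⟩
  obtain ⟨c9, c11, c1, c2, c3, c4, c10, c12, cx1, cx2, cx⟩ := hx0 x ((le_max_right _ _).trans hx)
  have hx1 : (1 : ℝ) ≤ x := by linarith
  have hxp : (0 : ℝ) < x := by linarith
  obtain ⟨z1, z2⟩ := hzfl x cx1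
  have t1 := htl x cx2
  set L := Real.log x with hL
  have hL8 : 8 ≤ L := by
    have : (0 : ℝ) ≤ 8 * (N : ℝ) := by positivity
    linarith
  have hLp : 0 < L := by linarith
  set z := zf ε x with hz
  have hlz : 0 < Real.log z := lt_of_lt_of_le (by positivity) z1
  have hz0 : (0 : ℝ) < z := by
    rcases Nat.eq_zero_or_pos z with h | h
    · rw [h] at hlz
      simp at hlz
    · exact_mod_cast h
  have hzle : (z : ℝ) ≤ x ^ ε := zf_le hxp.le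
  have hzL : Real.log z ≤ L := by nlinarith
  have hK1 : 8 * N + 8 ≤ ⌊Λ * L⌋₊ := by
    apply Nat.le_floor
    push_cast
    nlinarith
  have hK2 : ⌊Λ * L⌋₊ ≤ z := by
    rw [hz]
    unfold zf
    apply Nat.floor_le_floor
    rw [pow_one, one_mul, one_mul] at c2
    exact c2
  have hpow : ∀ (M : ℕ) (B : ℝ), B ≤ M * (ε / 2) → x ^ B ≤ (z : ℝ) ^ M := by
    intro M B hB
    have h1 : B * L ≤ M * Real.log z := by
      calc B * L ≤ (M * (ε / 2)) * L := mul_le_mul_of_nonneg_right hB hLp.le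
        _ = M * (ε / 2 * L) := by ring
        _ ≤ M * Real.log z := mul_le_mul_of_nonneg_left z1 (Nat.cast_nonneg M)
    rw [Real.rpow_def_of_pos hxp, ← Real.exp_log (pow_pos hz0 M), Real.log_pow]
    apply Real.exp_le_exp.mpr
    linarith
  have hVlow : ∀ j : ℕ, 2 * j ≤ ⌊Λ * L⌋₊ → 1 / (C' * L) ^ (2 * j) ≤ VV ⌊Λ * L⌋₊ z j := by
    intro j hj
    refine le_trans ?_ (hVV _ z j hj (by omega) hK2)
    have hC'p : 0 < C' := by linarith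
    apply one_div_le_one_div_of_le (by positivity)
    exact pow_le_pow_left₀ (by positivity) (mul_le_mul_of_nonneg_left hzL hC'p.le) _
  have hzp : (z : ℝ) ^ (3 * (4 * ⌊1 / (60 * ε)⌋₊ + 10)) ≤ x ^ (1 / 4 : ℝ) :=
    Evt_zpow hε hε1 hx1 hz0.le hzle
  have hC'L : 0 < C' * L := by
    have : 0 < C' := by linarith
    positivity
  refine ⟨hK1, hK2, by exact_mod_cast c3, by exact_mod_cast c4, ?_, ?_, ?_, ?_, c9, ?_, c11, ?_⟩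
  · have h1 := hpow ⌈2 / ε⌉₊ 1 (by
      have h2 := Nat.le_ceil (2 / ε)
      calc (1 : ℝ) = 2 / ε * (ε / 2) := by field_simp
        _ ≤ (⌈2 / ε⌉₊ : ℝ) * (ε / 2) := mul_le_mul_of_nonneg_right h2 (by positivity))
    rwa [Real.rpow_one] at h1
  · have h1 := hpow ⌈2 * (A + 2) / ε⌉₊ (A + 2) (by
      have h2 := Nat.le_ceil (2 * (A + 2) / ε)
      calc A + 2 = 2 * (A + 2) / ε * (ε / 2) := by field_simp
        _ ≤ (⌈2 * (A + 2) / ε⌉₊ : ℝ) * (ε / 2) := mul_le_mul_of_nonneg_right h2 (by positivity))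
    refine le_trans ?_ h1
    have h2 : x ≤ x ^ (A + 1) := by
      calc x = x ^ (1 : ℝ) := (Real.rpow_one x).symm
        _ ≤ x ^ (A + 1) := Real.rpow_le_rpow_of_exponent_le hx1 (by linarith)
    have h3 : x ^ A ≤ x ^ (A + 1) := Real.rpow_le_rpow_of_exponent_le hx1 (by linarith)
    have h4 : x ^ (A + 2) = x * x ^ (A + 1) := by
      rw [show A + 2 = 1 + (A + 1) by ring, Real.rpow_add hxp 1 (A + 1), Real.rpow_one]
    rw [h4]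
    have h5 : 0 ≤ x ^ (A + 1) := Real.rpow_nonneg hxp.le _
    nlinarith
  · have h1 : (1 : ℝ) ≤ (⌊x / (primorial ⌊L / 100⌋₊ : ℝ)⌋₊ : ℝ) :=
      (Real.one_le_rpow hx1 (by norm_num)).trans t1
    exact_mod_cast h1
  · unfold zf
    rw [Nat.one_le_floor_iff]
    exact Real.one_le_rpow hx1 hr.le
  · have hR : (zf r x : ℝ) ^ 2 ≤ x ^ (1 / 8 : ℝ) := by
      have h1 : (zf r x : ℝ) ≤ x ^ r := zf_le hxp.le
      calc (zf r x : ℝ) ^ 2 ≤ (x ^ r) ^ 2 := pow_le_pow_left₀ (Nat.cast_nonneg _) h1 2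
        _ = x ^ (r * 2) := by
          rw [← Real.rpow_natCast, ← Real.rpow_mul hxp.le]
          norm_num
        _ ≤ x ^ (1 / 8 : ℝ) := Real.rpow_le_rpow_of_exponent_le hx1 (by linarith)
    have h8 : (x ^ (1 / 8 : ℝ)) ^ 2 = x ^ (1 / 4 : ℝ) := by
      rw [← Real.rpow_natCast, ← Real.rpow_mul hxp.le]
      norm_num
    have hG : 0 ≤ (4 * G0 ^ 2) ^ (2 * N + 1) := by positivity
    refine Evt_quot (a := 5 / 8) (k := 2 * (2 * N + 1)) (G := (4 * G0 ^ 2) ^ (2 * N + 1)) (l := C' * L)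
      ?_ t1 hC'L (hVlow (2 * N + 1) (by omega)) c10 hx1 hκ.le
    rw [h8]
    have h9 : x ^ (5 / 8 : ℝ) = x ^ (1 / 4 : ℝ) * (x ^ (1 / 4 : ℝ) * x ^ (1 / 8 : ℝ)) := by
      rw [← Real.rpow_add hxp, ← Real.rpow_add hxp]
      norm_num
    rw [h9]
    have p1 : 0 ≤ x ^ (1 / 4 : ℝ) := Real.rpow_nonneg hxp.le _
    calc (z : ℝ) ^ (3 * (4 * ⌊1 / (60 * ε)⌋₊ + 10)) * (4 * G0 ^ 2) ^ (2 * N + 1) *
          (x ^ (1 / 4 : ℝ) * (zf r x : ℝ) ^ 2)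
        ≤ x ^ (1 / 4 : ℝ) * (4 * G0 ^ 2) ^ (2 * N + 1) * (x ^ (1 / 4 : ℝ) * x ^ (1 / 8 : ℝ)) := by
          apply mul_le_mul (mul_le_mul_of_nonneg_right hzp hG)
            (mul_le_mul_of_nonneg_left hR p1) (by positivity) (by positivity)
      _ = (4 * G0 ^ 2) ^ (2 * N + 1) * (x ^ (1 / 4 : ℝ) * (x ^ (1 / 4 : ℝ) * x ^ (1 / 8 : ℝ))) := by ring
  · refine Evt_quot (a := 1 / 4) (k := 2 * (4 * N)) (G := 1) (l := C' * L)
      ?_ t1 hC'L (hVlow (4 * N) (by omega)) c12 hx1 (by norm_num)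
    rw [one_mul]
    exact hzp

end H69PG
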