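import Pool.Agent.H69.PG.Zfl
import Pool.Agent.H69.PG.VVf

/-!
# MUB: the expected number of survivors

`K = ⌊Λ log x⌋₊`, `z0 = ⌊log x/100⌋₊`, `z = zf ε x`; for large `x`: `2 ≤ z0`, `2 ≤ K ≤ z`. `vv_mu`: the product is at most `2 K D log K/(log z0 log z)`, with `K ≤ Λ log x`,
`log K ≤ log(Λ log x) ≤ 2 log z0` (large `x`), `log z ≥ (ε/2) log x` (`zfl`): at most `2 Λ log x · D · 2/((ε/2) log x) = 8 D Λ/ε`.
-/

open Finset EG

namespace H69PG

theorem Mub_rpow {Λ ε : ℝ} (hΛ : 1 ≤ Λ) (hε : 0 < ε) : ∃ x0 : ℝ, ∀ x : ℝ, x0 ≤ x →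
    Λ * Real.log x ≤ x ^ ε := by
  have h := (isLittleO_log_rpow_atTop hε).bound (show (0:ℝ) < 1 / Λ by positivity)
  obtain ⟨x0, h0⟩ := Filter.eventually_atTop.1 h
  refine ⟨max x0 1, fun x hx => ?_⟩
  have h1 := h0 x ((le_max_left _ _).trans hx)
  have hx1 : 1 ≤ x := (le_max_right _ _).trans hx
  rw [Real.norm_eq_abs, Real.norm_eq_abs, abs_of_nonneg (Real.log_nonneg hx1),
    abs_of_nonneg (Real.rpow_nonneg (by linarith) _)] at h1
  calc Λ * Real.log x ≤ Λ * (1 / Λ * x ^ ε) := by gcongr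
    _ = x ^ ε := by field_simp

theorem mub : ∃ D : ℝ, 1 ≤ D ∧ ∀ Λ ε : ℝ, 1 ≤ Λ → 0 < ε → ∃ x0 : ℝ, ∀ x : ℝ, x0 ≤ x →
    2 * (⌊Λ * Real.log x⌋₊ : ℝ) * ((Nat.totient (primorial ⌊Real.log x / 100⌋₊) : ℝ) / (primorial ⌊Real.log x / 100⌋₊ : ℝ)) *
      VV ⌊Λ * Real.log x⌋₊ (zf ε x) 1 ≤ 8 * D * Λ / ε := by
  obtain ⟨D, hD, hmu⟩ := vv_mu
  refine ⟨D, hD, fun Λ ε hΛ hε => ?_⟩
  obtain ⟨x1, h1⟩ := zfl hε
  obtain ⟨x2, h2⟩ := Mub_rpow hΛ hε
  refine ⟨max (max x1 x2) (Real.exp (40000 * Λ)), fun x hx => ?_⟩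
  have hx1 : x1 ≤ x := ((le_max_left _ _).trans (le_max_left _ _)).trans hx
  have hx2 : x2 ≤ x := ((le_max_right _ _).trans (le_max_left _ _)).trans hx
  have hx3 : Real.exp (40000 * Λ) ≤ x := (le_max_right _ _).trans hx
  have hx0 : 0 < x := (Real.exp_pos _).trans_le hx3
  set L := Real.log x with hL
  have hL1 : 40000 * Λ ≤ L := (Real.le_log_iff_exp_le hx0).2 hx3
  have hL2 : 40000 ≤ L := by linarith
  set z0 := ⌊L / 100⌋₊ with hz0
  set K := ⌊Λ * L⌋₊ with hK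
  set z := zf ε x with hz
  have hz0l : L / 200 ≤ (z0 : ℝ) := by
    have := Nat.sub_one_lt_floor (L / 100)
    linarith
  have hz02 : 2 ≤ z0 := by
    have : (2 : ℝ) ≤ (z0 : ℝ) := by linarith
    exact_mod_cast this
  have hKu : (K : ℝ) ≤ Λ * L := Nat.floor_le (by nlinarith)
  have hK2 : 2 ≤ K := by
    apply Nat.le_floor
    push_cast
    nlinarith
  have hKz : K ≤ z := Nat.floor_mono (h2 x hx2)
  obtain ⟨hzl, -⟩ := h1 x hx1
  have hm := hmu z0 K z hz02 hK2 hKz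
  have hKpos : (0 : ℝ) < K := by
    have : 0 < K := by omega
    exact_mod_cast this
  have hz0pos : (0 : ℝ) < z0 := by
    have : 0 < z0 := by omega
    exact_mod_cast this
  have lz0 : 0 < Real.log z0 := Real.log_pos (by exact_mod_cast (by omega : 1 < z0))
  have lz : 0 < Real.log z := by
    have : 0 < ε / 2 * L := by positivity
    linarith
  have lK : Real.log K ≤ 2 * Real.log z0 := by
    rw [show 2 * Real.log (z0 : ℝ) = Real.log ((z0 : ℝ) ^ 2) by rw [Real.log_pow]; norm_num]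
    apply Real.log_le_log hKpos
    calc (K : ℝ) ≤ Λ * L := hKu
      _ ≤ (L / 200) ^ 2 := by nlinarith
      _ ≤ (z0 : ℝ) ^ 2 := by gcongr
  have hb : (Nat.totient (primorial z0) : ℝ) / (primorial z0 : ℝ) * VV K z 1 ≤
      D * 2 / (ε / 2 * L) := by
    refine hm.trans ?_
    rw [div_le_div_iff₀ (by positivity) (by positivity)]
    calc D * Real.log K * (ε / 2 * L) ≤ D * (2 * Real.log z0) * Real.log z := by
          have : 0 ≤ Real.log z0 := lz0.le
          gcongr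
      _ = D * 2 * (Real.log z0 * Real.log z) := by ring
  calc 2 * (K : ℝ) * ((Nat.totient (primorial z0) : ℝ) / (primorial z0 : ℝ)) * VV K z 1
      = 2 * (K : ℝ) * ((Nat.totient (primorial z0) : ℝ) / (primorial z0 : ℝ) * VV K z 1) := by ring
    _ ≤ 2 * (Λ * L) * (D * 2 / (ε / 2 * L)) := by
        have : 0 ≤ D * 2 / (ε / 2 * L) := by positivity
        have h3 : 2 * (K : ℝ) * ((Nat.totient (primorial z0) : ℝ) / (primorial z0 : ℝ) * VV K z 1) ≤
          2 * (K : ℝ) * (D * 2 / (ε / 2 * L)) := by gcongr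
        refine h3.trans ?_
        gcongr
    _ = 8 * D * Λ / ε := by
        have : L ≠ 0 := by linarith
        field_simp
        ring

end H69PG
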