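import Pool.Agent.H69.PG.Ar0
import Pool.Agent.H67.GT.MERT

/-!
# GGB: the sums `GG (primorial z) y`, up to constants

Lower bound: every `n ≤ y` is uniquely `a b` with `a` composed of primes `≤ z` and `b` coprime to `primorial z`, so
`log y ≤ ∑_{n ≤ y} 1/n ≤ ∏_{p ≤ z} (1 - 1/p)^(-1) ∑_{b ≤ y, (b, primorial z) = 1} 1/b` and the last sum is at most `GG (primorial z) y` (`gq_lower` in `Pool/Agent/H6/EG/Gq.lean`).
`∏_{p ≤ z} (1 - 1/p) = V univ z ≥ 1/(c log z)` (`Mert`).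
(Alternative for the first step: `∑_{n ≤ y, (n,Q)=1} 1/n ≥ (φ(Q)/Q) ∑_{n ≤ y} 1/n`, e.g. adding the primes `p ∣ Q` one at a time: `∑_{n ≤ y, (n,Q)=1} 1/n ≤ (1 - 1/p)^(-1) ∑_{n ≤ y, (n,Qp)=1} 1/n`.)
Upper bound: a squarefree `s ≤ y` coprime to `primorial z` is a product of different primes in `(z, y]`: `GG ≤ ∏_{z < p ≤ y} (1 + 1/(p-1)) = V univ z/V univ y ≤ c log y/log z` (`Mert`, third part).
-/

open Finset EG

namespace H69PG

open Pool.Agent.H67.GT

theorem Ggb_mem {Q z r : ℕ} : r ∈ EG.sq Q z ↔ (1 ≤ r ∧ r ≤ z) ∧ Squarefree r ∧ Nat.Coprime r Q := by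
  unfold EG.sq
  rw [Finset.mem_filter, Finset.mem_Icc]

/-- harmonic sums over the integers without prime factors in `S` -/
noncomputable def Ggb_H (S : Finset ℕ) (y : ℕ) : ℝ :=
  ∑ n ∈ (Icc 1 y).filter (fun n => ∀ p ∈ S, ¬ p ∣ n), ((n : ℝ))⁻¹

theorem Ggb_H_ins (S : Finset ℕ) {p : ℕ} (hp : 0 < p) (y : ℕ) :
    (1 - 1 / (p : ℝ)) * Ggb_H S y ≤ Ggb_H (insert p S) y := by
  have hp' : (0 : ℝ) < p := by exact_mod_cast hp
  set F1 := (Icc 1 y).filter (fun n => ∀ q ∈ insert p S, ¬ q ∣ n) with hF1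
  set F2 := ((Icc 1 y).filter (fun n => ∀ q ∈ S, ¬ q ∣ n)).filter (fun n => p ∣ n) with hF2
  have h1 : Ggb_H S y = (∑ n ∈ F2, ((n : ℝ))⁻¹) + Ggb_H (insert p S) y := by
    unfold Ggb_H
    rw [← Finset.sum_filter_add_sum_filter_not _ (fun n => p ∣ n)]
    congr 1
    apply Finset.sum_congr _ (fun _ _ => rfl)
    ext n
    simp only [Finset.mem_filter, Finset.mem_insert, forall_eq_or_imp]
    tauto
  have h2 : (∑ n ∈ F2, ((n : ℝ))⁻¹) ≤ 1 / (p : ℝ) * Ggb_H S y := by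
    have e1 : ∀ n ∈ F2, ((n : ℝ))⁻¹ = 1 / (p : ℝ) * (((n / p : ℕ) : ℝ))⁻¹ := by
      intro n hn
      obtain ⟨k, rfl⟩ := (Finset.mem_filter.mp hn).2
      rw [Nat.mul_div_cancel_left k hp]
      push_cast
      rw [mul_inv, one_div]
    rw [Finset.sum_congr rfl e1, ← Finset.mul_sum]
    apply mul_le_mul_of_nonneg_left _ (by positivity)
    have hinj : Set.InjOn (fun n : ℕ => n / p) (F2 : Set ℕ) := by
      intro a ha b hb hab
      obtain ⟨k, rfl⟩ := (Finset.mem_filter.mp (Finset.mem_coe.mp ha)).2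
      obtain ⟨l, rfl⟩ := (Finset.mem_filter.mp (Finset.mem_coe.mp hb)).2
      have h3 : p * k / p = p * l / p := hab
      rw [Nat.mul_div_cancel_left k hp, Nat.mul_div_cancel_left l hp] at h3
      rw [h3]
    have e2 : ∑ n ∈ F2, (((n / p : ℕ) : ℝ))⁻¹ = ∑ m ∈ F2.image (fun n => n / p), ((m : ℝ))⁻¹ :=
      (Finset.sum_image (f := fun m : ℕ => ((m : ℝ))⁻¹) hinj).symm
    rw [e2]
    unfold Ggb_H
    apply Finset.sum_le_sum_of_subset_of_nonneg
    · intro m hm
      obtain ⟨n, hn, rfl⟩ := Finset.mem_image.mp hm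
      rw [hF2, Finset.mem_filter, Finset.mem_filter, Finset.mem_Icc] at hn
      obtain ⟨⟨⟨a1, a2⟩, a3⟩, k, rfl⟩ := hn
      rw [Nat.mul_div_cancel_left k hp, Finset.mem_filter, Finset.mem_Icc]
      have hk : 1 ≤ k := by
        rcases Nat.eq_zero_or_pos k with h | h
        · subst h; simp at a1
        · exact h
      refine ⟨⟨hk, (Nat.le_mul_of_pos_left k hp).trans a2⟩, fun q hq hd => a3 q hq (hd.mul_left p)⟩
    · intro m _ _
      positivity
  have h3 : (1 - 1 / (p : ℝ)) * Ggb_H S y = Ggb_H S y - 1 / (p : ℝ) * Ggb_H S y := by ring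
  rw [h3]
  linarith

theorem Ggb_H_prod (S : Finset ℕ) (hS : ∀ p ∈ S, Nat.Prime p) (y : ℕ) :
    (∏ p ∈ S, (1 - 1 / (p : ℝ))) * Ggb_H ∅ y ≤ Ggb_H S y := by
  induction S using Finset.induction_on with
  | empty => simp
  | insert p S hp ih =>
    have hpp := hS p (Finset.mem_insert_self p S)
    have ih' := ih (fun q hq => hS q (Finset.mem_insert_of_mem hq))
    rw [Finset.prod_insert hp, mul_assoc]
    refine (mul_le_mul_of_nonneg_left ih' ?_).trans (Ggb_H_ins S hpp.pos y)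
    rw [sub_nonneg, div_le_one (by exact_mod_cast hpp.pos)]
    exact_mod_cast hpp.one_lt.le

theorem Ggb_prs {z p : ℕ} : p ∈ prs Set.univ z ↔ p.Prime ∧ p ≤ z := by
  unfold prs
  simp only [Finset.mem_filter, Finset.mem_Icc, Set.mem_univ, and_true]
  exact ⟨fun h => ⟨h.2, h.1.2⟩, fun h => ⟨⟨h.1.one_lt.le, h.2⟩, h.1⟩⟩

theorem Ggb_cop {n z : ℕ} : Nat.Coprime n (primorial z) ↔ ∀ p ∈ prs Set.univ z, ¬ p ∣ n := by
  constructor
  · intro h p hp hd
    obtain ⟨h1, h2⟩ := Ggb_prs.mp hp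
    have h3 := Nat.dvd_gcd hd (h1.dvd_primorial_iff.mpr h2)
    rw [Nat.Coprime] at h
    rw [h] at h3
    exact h1.one_lt.ne' (Nat.dvd_one.mp h3)
  · intro h
    apply Nat.Coprime.symm
    apply Nat.coprime_of_dvd
    intro k hk hk1 hk2
    exact h k (Ggb_prs.mpr ⟨hk, hk.dvd_primorial_iff.mp hk1⟩) hk2

theorem Ggb_gqH (z y : ℕ) : gqH (primorial z) y = Ggb_H (prs Set.univ z) y := by
  unfold gqH Ggb_H
  apply Finset.sum_congr _ (fun _ _ => rfl)
  apply Finset.filter_congr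
  intro n _
  exact Ggb_cop

theorem Ggb_harm {y : ℕ} (hy : 1 ≤ y) : Real.log y ≤ Ggb_H ∅ y := by
  have h1 := log_add_one_le_harmonic y
  have h2 : (harmonic y : ℝ) = Ggb_H ∅ y := by
    rw [harmonic_eq_sum_Icc]
    unfold Ggb_H
    push_cast
    apply Finset.sum_congr _ (fun _ _ => rfl)
    ext n
    simp
  rw [h2] at h1
  refine le_trans ?_ h1
  apply Real.log_le_log (by exact_mod_cast hy)
  push_cast
  linarith

theorem Ggb_tot {s : ℕ} (hs : Squarefree s) :
    (Nat.totient s : ℝ) = ∏ p ∈ s.primeFactors, ((p : ℝ) - 1) := by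
  rw [Nat.totient_eq_div_primeFactors_mul, Nat.prod_primeFactors_of_squarefree hs,
    Nat.div_self (Nat.pos_of_ne_zero hs.ne_zero), one_mul]
  push_cast
  apply Finset.prod_congr rfl
  intro p hp
  rw [Nat.cast_sub (Nat.prime_of_mem_primeFactors hp).one_lt.le]
  simp

theorem Ggb_upper (z y : ℕ) (hzy : z ≤ y) :
    GG (primorial z) y * V Set.univ y ≤ V Set.univ z := by
  set P := (prs Set.univ y).filter (fun p => z < p) with hP
  have hmP : ∀ p, p ∈ P ↔ p.Prime ∧ p ≤ y ∧ z < p := by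
    intro p
    rw [hP, Finset.mem_filter, Ggb_prs]
    tauto
  have h1 : GG (primorial z) y ≤ ∏ p ∈ P, (1 + 1 / ((p : ℝ) - 1)) := by
    rw [Finset.prod_one_add]
    unfold GG
    have e1 : ∀ s ∈ EG.sq (primorial z) y, 1 / (Nat.totient s : ℝ) =
        ∏ p ∈ s.primeFactors, 1 / ((p : ℝ) - 1) := by
      intro s hs
      rw [Ggb_tot (Ggb_mem.mp hs).2.1, Finset.prod_div_distrib, Finset.prod_const_one]
    rw [Finset.sum_congr rfl e1]
    have hinj : Set.InjOn (fun s : ℕ => s.primeFactors) (EG.sq (primorial z) y : Set ℕ) := by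
      intro a ha b hb hab
      have ha' := (Ggb_mem.mp (Finset.mem_coe.mp ha)).2.1
      have hb' := (Ggb_mem.mp (Finset.mem_coe.mp hb)).2.1
      rw [← Nat.prod_primeFactors_of_squarefree ha', ← Nat.prod_primeFactors_of_squarefree hb']
      have h2 : a.primeFactors = b.primeFactors := hab
      rw [h2]
    have e2 : ∑ s ∈ EG.sq (primorial z) y, ∏ p ∈ s.primeFactors, 1 / ((p : ℝ) - 1) =
        ∑ T ∈ (EG.sq (primorial z) y).image (fun s : ℕ => s.primeFactors), ∏ p ∈ (T : Finset ℕ), 1 / ((p : ℝ) - 1) :=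
      (Finset.sum_image (f := fun T : Finset ℕ => ∏ p ∈ T, 1 / ((p : ℝ) - 1)) hinj).symm
    rw [e2]
    apply Finset.sum_le_sum_of_subset_of_nonneg
    · intro T hT
      obtain ⟨s, hs, rfl⟩ := Finset.mem_image.mp hT
      obtain ⟨⟨hs1, hs2⟩, hs3, hs4⟩ := Ggb_mem.mp hs
      rw [Finset.mem_powerset]
      intro p hp
      have hpp := Nat.prime_of_mem_primeFactors hp
      have hpd := Nat.dvd_of_mem_primeFactors hp
      rw [hmP]
      refine ⟨hpp, (Nat.le_of_dvd (by omega) hpd).trans hs2, ?_⟩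
      by_contra hcon
      push Not at hcon
      exact Ggb_cop.mp hs4 p (Ggb_prs.mpr ⟨hpp, hcon⟩) hpd
    · intro T hT _
      apply Finset.prod_nonneg
      intro p hp
      apply div_nonneg zero_le_one
      by_cases h : 1 ≤ p
      · rw [sub_nonneg]
        exact_mod_cast h
      · exfalso
        have hT' : T ∈ P.powerset := hT
        have := ((hmP p).mp (Finset.mem_powerset.mp hT' hp)).1.one_lt
        omega
  have h2 : V Set.univ y = V Set.univ z * ∏ p ∈ P, (1 - 1 / (p : ℝ)) := by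
    unfold V
    rw [← Finset.prod_filter_mul_prod_filter_not (prs Set.univ y) (fun p => z < p), mul_comm]
    congr 1
    apply Finset.prod_congr _ (fun _ _ => rfl)
    ext p
    rw [Finset.mem_filter, Ggb_prs, Ggb_prs]
    constructor
    · rintro ⟨⟨a, b⟩, c⟩
      exact ⟨a, by omega⟩
    · rintro ⟨a, b⟩
      exact ⟨⟨a, b.trans hzy⟩, by omega⟩
  have h3 : (∏ p ∈ P, (1 + 1 / ((p : ℝ) - 1))) * ∏ p ∈ P, (1 - 1 / (p : ℝ)) = 1 := by
    rw [← Finset.prod_mul_distrib]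
    apply Finset.prod_eq_one
    intro p hp
    have hp1 : (1 : ℝ) < p := by exact_mod_cast ((hmP p).mp hp).1.one_lt
    have hp2 : (p : ℝ) - 1 ≠ 0 := by linarith
    have hp3 : (p : ℝ) ≠ 0 := by linarith
    field_simp
    ring
  have hVz : 0 ≤ V Set.univ z := by
    unfold V
    apply Finset.prod_nonneg
    intro p hp
    have hpp := (Ggb_prs.mp hp).1
    rw [sub_nonneg, div_le_one (by exact_mod_cast hpp.pos)]
    exact_mod_cast hpp.one_lt.le
  have hP0 : 0 ≤ ∏ p ∈ P, (1 - 1 / (p : ℝ)) := by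
    apply Finset.prod_nonneg
    intro p hp
    have hpp := ((hmP p).mp hp).1
    rw [sub_nonneg, div_le_one (by exact_mod_cast hpp.pos)]
    exact_mod_cast hpp.one_lt.le
  rw [h2]
  calc GG (primorial z) y * (V Set.univ z * ∏ p ∈ P, (1 - 1 / (p : ℝ)))
      = V Set.univ z * (GG (primorial z) y * ∏ p ∈ P, (1 - 1 / (p : ℝ))) := by ring
    _ ≤ V Set.univ z * ((∏ p ∈ P, (1 + 1 / ((p : ℝ) - 1))) * ∏ p ∈ P, (1 - 1 / (p : ℝ))) :=
        mul_le_mul_of_nonneg_left (mul_le_mul_of_nonneg_right h1 hP0) hVz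
    _ = V Set.univ z := by rw [h3, mul_one]

theorem ggb : ∃ C : ℝ, 1 ≤ C ∧ ∀ z y : ℕ, 2 ≤ z → z ≤ y →
    Real.log y / (C * Real.log z) ≤ GG (primorial z) y ∧ GG (primorial z) y ≤ C * (Real.log y / Real.log z) := by
  obtain ⟨c, hc, _, _, h3, h4, _⟩ := MERT.mert
  refine ⟨c, hc, fun z y hz hzy => ?_⟩
  have hc0 : 0 < c := by linarith
  have hlz : 0 < Real.log z := Real.log_pos (by exact_mod_cast hz)
  have hly : 0 ≤ Real.log y := Real.log_natCast_nonneg y
  have hy2 : 2 ≤ y := hz.trans hzy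
  have hly' : 0 < Real.log y := Real.log_pos (by exact_mod_cast hy2)
  constructor
  · have h5 := h4 Set.univ z hz
    have h6 := Ggb_H_prod (prs Set.univ z) (fun p hp => (Ggb_prs.mp hp).1) y
    have h7 := Ggb_harm (y := y) (by omega)
    have h8 : V Set.univ z * Real.log y ≤ GG (primorial z) y := by
      refine le_trans ?_ (gq_lower (primorial z) y)
      rw [Ggb_gqH]
      refine le_trans ?_ h6
      refine mul_le_mul_of_nonneg_left h7 ?_
      exact le_trans (by positivity) h5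
    refine le_trans ?_ h8
    calc Real.log y / (c * Real.log z) = 1 / (c * Real.log z) * Real.log y := by ring
      _ ≤ V Set.univ z * Real.log y := mul_le_mul_of_nonneg_right h5 hly
  · have h5 := Ggb_upper z y hzy
    have h6 := h3 Set.univ z y hz hzy
    have h7 : 0 < V Set.univ y := lt_of_lt_of_le (by positivity) (h4 Set.univ y hy2)
    have h8 := h5.trans h6
    exact le_of_mul_le_mul_right h8 h7

theorem gg_one (Q : ℕ) : GG Q 1 = 1 := by
  have h : EG.sq Q 1 = {1} := by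
    ext r
    rw [Ggb_mem, Finset.mem_singleton]
    constructor
    · rintro ⟨h, _⟩
      omega
    · rintro rfl
      exact ⟨⟨le_rfl, le_rfl⟩, squarefree_one, Nat.coprime_one_left Q⟩
  unfold GG
  rw [h]
  simp

theorem gg_mono (Q : ℕ) {y y' : ℕ} (h : y ≤ y') : GG Q y ≤ GG Q y' := by
  unfold GG
  apply Finset.sum_le_sum_of_subset_of_nonneg
  · intro r hr
    rw [Ggb_mem] at hr ⊢
    exact ⟨⟨hr.1.1, hr.1.2.trans h⟩, hr.2⟩
  · intro r _ _
    positivity

theorem gg_ge_one (Q : ℕ) {y : ℕ} (h : 1 ≤ y) : 1 ≤ GG Q y := by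
  rw [← gg_one Q]
  exact gg_mono Q h

end H69PG
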