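import Pool.Agent.H69.PG.Zfl
import Pool.Agent.H69.PG.Ggb

/-!
# WBD: sizes of the norms of the blocks

`D` = the constant of `ggb`. Let `z = zf ε x`, `Z_a = zf (v_a) x`, `v_a = vs B m v a`; for `x` large `z ≥ 2`, `z ≤ Z_1 ≤ Z_a` (`ε ≤ v_1`), `z ≤ zf r x`, and by `zfl` (finitely many exponents) all
`(e/2) log x ≤ log(zf e x) ≤ e log x`. For `1 ≤ a ≤ m`: `v_a/(2Dε) ≤ GG(Z_a) ≤ 2D v_a/ε ≤ 2D/ε`; `GG(Z_0) = GG(1) = 1 ≤ 2D/ε`. So for `a ≥ 2` (`v_(a-1) = v_a/B`):
`wA_a ≥ v_a/(2Dε) - 2D v_a/(Bε) ≥ v_a/(4Dε)` as `B ≥ 8D²`; for `a = 1`: `wA_1 ≥ v_1/(2Dε) - 1 ≥ v_1/(4Dε)` as `ε ≤ v_1/(4D)`. For `R = zf r x`: `r/(2Dε) ≤ GG(R) ≤ 2Dr/ε`.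
-/

open Finset EG

namespace H69PG

theorem Wbd_one (Q : ℕ) : GG Q 1 = 1 := by
  unfold GG
  have h : sq Q 1 = {1} := by
    ext r
    unfold EG.sq
    rw [Finset.mem_filter, Finset.mem_Icc, Finset.mem_singleton]
    constructor
    · rintro ⟨⟨h1, h2⟩, -⟩
      omega
    · rintro rfl
      exact ⟨⟨le_rfl, le_rfl⟩, squarefree_one, Nat.coprime_one_left Q⟩
  rw [h, Finset.sum_singleton]
  simp

theorem Wbd_key {C : ℝ} (hC : 1 ≤ C)
    (hg : ∀ z y : ℕ, 2 ≤ z → z ≤ y → Real.log y / (C * Real.log z) ≤ GG (primorial z) y ∧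
      GG (primorial z) y ≤ C * (Real.log y / Real.log z))
    {ε e x : ℝ} (hε : 0 < ε) (he : ε ≤ e) (hx : 2 ≤ x)
    (h1 : ε / 2 * Real.log x ≤ Real.log (zf ε x) ∧ Real.log (zf ε x) ≤ ε * Real.log x)
    (h2 : e / 2 * Real.log x ≤ Real.log (zf e x) ∧ Real.log (zf e x) ≤ e * Real.log x) :
    e / (2 * C * ε) ≤ GG (primorial (zf ε x)) (zf e x) ∧ GG (primorial (zf ε x)) (zf e x) ≤ 2 * C * e / ε := by
  have hL : 0 < Real.log x := Real.log_pos (by linarith)
  have hlz : 0 < Real.log (zf ε x) := lt_of_lt_of_le (by positivity) h1.1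
  have hz2 : 2 ≤ zf ε x := by
    by_contra hc
    push Not at hc
    have h01 : zf ε x = 0 ∨ zf ε x = 1 := by omega
    rcases h01 with h | h <;> rw [h] at hlz <;> simp at hlz
  have hzy : zf ε x ≤ zf e x := zf_mono (by linarith) he
  obtain ⟨g1, g2⟩ := hg _ _ hz2 hzy
  have he0 : 0 < e := by linarith
  have hly : 0 < Real.log (zf e x) := lt_of_lt_of_le (by positivity) h2.1
  have hC0 : 0 < C := by linarith
  constructor
  · refine le_trans ?_ g1
    rw [div_le_div_iff₀ (by positivity) (by positivity)]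
    calc e * (C * Real.log (zf ε x)) ≤ e * (C * (ε * Real.log x)) := by
          gcongr
          exact h1.2
      _ = (e / 2 * Real.log x) * (2 * C * ε) := by ring
      _ ≤ Real.log (zf e x) * (2 * C * ε) := by
          gcongr
          exact h2.1
  · refine le_trans g2 ?_
    rw [← mul_div_assoc, div_le_div_iff₀ hlz hε]
    calc C * Real.log (zf e x) * ε ≤ C * (e * Real.log x) * ε := by
          gcongr
          exact h2.2
      _ = 2 * C * e * (ε / 2 * Real.log x) := by ring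
      _ ≤ 2 * C * e * Real.log (zf ε x) := by
          gcongr
          exact h1.1

theorem wbd : ∃ D : ℝ, 1 ≤ D ∧ ∀ (B m : ℕ) (v r ε : ℝ), 8 * D ^ 2 ≤ B → 1 ≤ m → 0 < v → v ≤ 1 → 0 < r → r ≤ 1 → 0 < ε →
    ε ≤ vs B m v 1 / (4 * D) → ε ≤ r → ∃ x0 : ℝ, ∀ x : ℝ, x0 ≤ x →
    (∀ a ∈ Icc 1 m, vs B m v a / (4 * D * ε) ≤ wA (fun a => zf (vs B m v a) x) (primorial (zf ε x)) a) ∧
    (∀ a ≤ m, GG (primorial (zf ε x)) (zf (vs B m v a) x) ≤ 2 * D / ε) ∧
    GG (primorial (zf ε x)) (zf r x) ≤ 2 * D / ε ∧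
    1 / GG (primorial (zf ε x)) (zf r x) ≤ 2 * D * ε / r := by
  obtain ⟨C, hC, hg⟩ := ggb
  refine ⟨C, hC, ?_⟩
  intro B m v r ε hB hm hv hv1 hr hr1 hε hεv hεr
  have hC0 : 0 < C := by linarith
  have hB8 : (8 : ℝ) ≤ B := by nlinarith
  have hBpos : (0 : ℝ) < B := by linarith
  have hB1 : 1 ≤ B := by
    have : (1 : ℝ) ≤ B := by linarith
    exact_mod_cast this
  have hvp : ∀ a, 1 ≤ a → 0 < vs B m v a := by
    intro a ha
    unfold vs
    rw [if_neg (by omega)]
    positivity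
  have hv1' : ∀ a, vs B m v a ≤ 1 := fun a => (vs_le hB1 hv.le a).trans hv1
  have hmono := vs_mono (B := B) (m := m) hB1 hv.le
  have hεv1 : ε ≤ vs B m v 1 := by
    refine hεv.trans ?_
    rw [div_le_iff₀ (by positivity)]
    have := hvp 1 le_rfl
    nlinarith
  obtain ⟨x1, hx1⟩ := zfl hε
  obtain ⟨x2, hx2⟩ := zfl hr
  have hex : ∀ a : ℕ, ∃ x0 : ℝ, 1 ≤ a → ∀ x : ℝ, x0 ≤ x →
      vs B m v a / 2 * Real.log x ≤ Real.log (zf (vs B m v a) x) ∧
      Real.log (zf (vs B m v a) x) ≤ vs B m v a * Real.log x := by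
    intro a
    by_cases ha : 1 ≤ a
    · obtain ⟨x0, hx0⟩ := zfl (hvp a ha)
      exact ⟨x0, fun _ => hx0⟩
    · exact ⟨0, fun h => absurd h ha⟩
  choose f hf using hex
  obtain ⟨M, hM⟩ := ((Finset.range (m + 1)).image f).exists_le
  refine ⟨max (max x1 x2) (max M 2), fun x hx => ?_⟩
  have hxx1 : x1 ≤ x := ((le_max_left _ _).trans (le_max_left _ _)).trans hx
  have hxx2 : x2 ≤ x := ((le_max_right _ _).trans (le_max_left _ _)).trans hx
  have hxM : M ≤ x := ((le_max_left _ _).trans (le_max_right _ _)).trans hx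
  have hxx3 : 2 ≤ x := ((le_max_right _ _).trans (le_max_right _ _)).trans hx
  have hzε := hx1 x hxx1
  have hzr := hx2 x hxx2
  have hza : ∀ a, 1 ≤ a → a ≤ m →
      vs B m v a / (2 * C * ε) ≤ GG (primorial (zf ε x)) (zf (vs B m v a) x) ∧
      GG (primorial (zf ε x)) (zf (vs B m v a) x) ≤ 2 * C * vs B m v a / ε := by
    intro a ha ham
    refine Wbd_key hC hg hε (hεv1.trans (hmono ha)) hxx3 hzε (hf a ha x ?_)
    exact (hM _ (Finset.mem_image_of_mem _ (Finset.mem_range.2 (by omega)))).trans hxM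
  have hR := Wbd_key hC hg hε hεr hxx3 hzε hzr
  have h0 : GG (primorial (zf ε x)) (zf (vs B m v 0) x) = 1 := by
    have : vs B m v 0 = 0 := by
      unfold vs
      rw [if_pos rfl]
    rw [this, zf_zero, Wbd_one]
  refine ⟨?_, ?_, ?_, ?_⟩
  · intro a ha
    rw [Finset.mem_Icc] at ha
    obtain ⟨ha1, ham⟩ := ha
    unfold wA
    rw [if_neg (by omega)]
    show vs B m v a / (4 * C * ε) ≤ GG (primorial (zf ε x)) (zf (vs B m v a) x) -
      GG (primorial (zf ε x)) (zf (vs B m v (a - 1)) x)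
    obtain ⟨g1, g2⟩ := hza a ha1 ham
    have e1 : vs B m v a / (2 * C * ε) = 2 * (vs B m v a / (4 * C * ε)) := by
      field_simp
      ring
    rcases Nat.eq_or_lt_of_le ha1 with h | h
    · subst h
      rw [show 1 - 1 = 0 from rfl, h0]
      have : 1 ≤ vs B m v 1 / (4 * C * ε) := by
        rw [le_div_iff₀ (by positivity)]
        rw [le_div_iff₀ (by positivity)] at hεv
        linarith
      linarith
    · obtain ⟨g3, g4⟩ := hza (a - 1) (by omega) (by omega)
      have e2 : vs B m v (a - 1) = vs B m v a / B := by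
        unfold vs
        rw [if_neg (by omega), if_neg (by omega), div_div, ← pow_succ]
        congr 2
        omega
      have e3 : 2 * C * vs B m v (a - 1) / ε ≤ vs B m v a / (4 * C * ε) := by
        rw [e2, div_le_div_iff₀ hε (by positivity)]
        have hva := hvp a ha1
        calc 2 * C * (vs B m v a / B) * (4 * C * ε) = (8 * C ^ 2) / B * (vs B m v a * ε) := by ring
          _ ≤ 1 * (vs B m v a * ε) := by
              apply mul_le_mul_of_nonneg_right _ (by positivity)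
              rw [div_le_one hBpos]
              exact hB
          _ = vs B m v a * ε := one_mul _
      linarith
  · intro a ham
    rcases Nat.eq_zero_or_pos a with h | h
    · subst h
      rw [h0, le_div_iff₀ hε]
      nlinarith
    · refine (hza a h ham).2.trans ?_
      have h3 : 2 * C * vs B m v a ≤ 2 * C * 1 := mul_le_mul_of_nonneg_left (hv1' a) (by positivity)
      rw [mul_one] at h3
      exact div_le_div_of_nonneg_right h3 hε.le
  · refine hR.2.trans ?_
    have h3 : 2 * C * r ≤ 2 * C * 1 := mul_le_mul_of_nonneg_left hr1 (by positivity)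
    rw [mul_one] at h3
    exact div_le_div_of_nonneg_right h3 hε.le
  · rw [one_div_le (lt_of_lt_of_le (by positivity) hR.1) (by positivity)]
    refine le_trans (le_of_eq ?_) hR.1
    rw [one_div_div]

end H69PG
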