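import Pool.Agent.H69.PG.CoA
import Pool.Agent.H69.PG.Wbd
import Pool.Agent.H69.PG.Mub
import Pool.Agent.H69.PG.Eps
import Pool.Agent.H69.PG.Evt

/-!
# COB: choice of the parameters

Let `D` be the maximum of the constants of `wbd` and `mub` (the bounds of `mub` stay true with a larger `D`; use `wbd` with its own constant `D1 ≤ D` — choose `B ≥ 8 D²`, `ε ≤ v_1/(4D)`, and weaken the
conclusions to `D`). `r' = min(r,1)/16`, `v = r'`, `l = 1/8`, `vm = v ≤ 1/16`, so `l - vm ≥ 1/16`. `B = ⌈8D²⌉₊`, `m = ⌈70000 D^4 Λ²/r'⌉₊`, `v_a = vs B m v a`, `N = ⌈1/v_1⌉₊` (`≥ 1`), `C` = constant of `coA N`;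
`ε` from `epsch N m C` (also `ε ≤ v_1 ≤ r'`), `b0 = ⌊1/(60ε)⌋₊`, `Γ = 2D/ε`, `M = ⌈2/ε⌉₊`, `M' = ⌈2(A+2)/ε⌉₊`, `κ0 = exp(-b0) (4Γ^5)^(2N+1)`, `η = 3 κ0`; `x` large as in `wbd`, `mub`, `evt` (`G0 = Γ`).
`K = ⌊Λ log x⌋₊`, `z = zf ε x`, `R = y = zf r' x`, `Z a = zf (v_a) x` (for all `a`; monotone; `Z 0 = 1`), `T`, `Q0` as in the statement, `Pl = x^(1/8)`: `∏ Z(n_i) ≤ x^(∑ v(n_i)) ≤ x^(1/8)`.
`f0 a = cφ/v_a` for `a ≥ 1`, `f0 0 = 0`, with `cφ = (∑_{a=1}^m wA_a/v_a)^(-1) ≤ 4Dε/m`; `f0 ≤ cφ/v_1 ≤ 1` (`ε ≤ v_1/(4D)`). `∑ f0 wA = 1`; `∑ f0² wA v = cφ`; `∑ f0² wA ≤ cφ/v_1`.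
`μ = |ι| VV K z 1 ≤ 8DΛ/ε` (`mub`, hypothesis on `|ι|`). So
`(1/GG R) μ (μ ∑ f0² wA/N + μ ∑ f0² wA v/(l - vm)) ≤ (2Dε/r') (8DΛ/ε)² (4Dε/m) (1/(v_1 N) + 16) ≤ 512·17 D^4 Λ²/(r' m) ≤ 1/8`.
The conditions on `η` follow from `epsch` (`(…)^(2N) ≤ (…)^(2N+1)`), those of `Sys` from `evt`. `coA` gives the claim with
`c = 1/(4 (1 + m (2Γ 2^M'))^(4N) (4N)! 2^(4N+1) (1 + 8DΛ/ε)^(4N))`; `y ≤ x^r' ≤ x^r`; `Q0 t + cc i ≤ x + x^A ≤ z^M'` for `t < T`.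
-/

open Finset EG

namespace H69PG

theorem CoB_vs_pos {B m : ℕ} {v : ℝ} (hB : 1 ≤ B) (hv : 0 < v) {a : ℕ} (ha : 1 ≤ a) : 0 < vs B m v a := by
  unfold vs
  rw [if_neg (by omega)]
  have : (0 : ℝ) < B := by exact_mod_cast hB
  positivity

/-- the coefficients of the scales -/
theorem CoB_f0 {m : ℕ} (hm : 1 ≤ m) {w W : ℕ → ℝ} {v1 E : ℝ} (hv1 : 0 < v1) (hw : ∀ a ∈ Icc 1 m, v1 ≤ w a)
    (hE : 0 < E) (hW : ∀ a ∈ Icc 1 m, w a / E ≤ W a) :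
    ∃ cφ : ℝ, 0 < cφ ∧ cφ ≤ E / m ∧ ∑ a ∈ Icc 1 m, cφ / w a * W a = 1 ∧
      ∑ a ∈ Icc 1 m, (cφ / w a) ^ 2 * W a ≤ cφ / v1 ∧ ∑ a ∈ Icc 1 m, (cφ / w a) ^ 2 * W a * w a = cφ := by
  have hm0 : (0 : ℝ) < m := by exact_mod_cast hm
  have hw0 : ∀ a ∈ Icc 1 m, 0 < w a := fun a ha => lt_of_lt_of_le hv1 (hw a ha)
  set S := ∑ a ∈ Icc 1 m, W a / w a with hS
  have hS1 : (m : ℝ) / E ≤ S := by
    have h1 : ∑ _a ∈ Icc 1 m, (1 / E : ℝ) ≤ S := by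
      refine Finset.sum_le_sum fun a ha => ?_
      rw [le_div_iff₀ (hw0 a ha)]
      refine le_trans (le_of_eq ?_) (hW a ha)
      ring
    rw [Finset.sum_const, Nat.card_Icc, nsmul_eq_mul] at h1
    have h2 : ((m + 1 - 1 : ℕ) : ℝ) = m := by simp
    rw [h2] at h1
    rwa [mul_one_div] at h1
  have hS0 : 0 < S := lt_of_lt_of_le (by positivity) hS1
  have hsum1 : ∑ a ∈ Icc 1 m, S⁻¹ / w a * W a = 1 := by
    have : ∑ a ∈ Icc 1 m, S⁻¹ / w a * W a = S⁻¹ * S := by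
      rw [hS, Finset.mul_sum]
      refine Finset.sum_congr rfl fun a _ => ?_
      rw [← hS]
      ring
    rw [this, inv_mul_cancel₀ hS0.ne']
  refine ⟨S⁻¹, inv_pos.2 hS0, ?_, hsum1, ?_, ?_⟩
  · rw [inv_le_comm₀ hS0 (by positivity), inv_div]
    exact hS1
  · have h1 : ∑ a ∈ Icc 1 m, (S⁻¹ / w a) ^ 2 * W a ≤ ∑ a ∈ Icc 1 m, (S⁻¹ / v1) * (S⁻¹ / w a * W a) := by
      refine Finset.sum_le_sum fun a ha => ?_
      have hwa := hw0 a ha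
      have hWa : 0 ≤ W a := le_trans (by positivity) (hW a ha)
      have h2 : S⁻¹ / w a ≤ S⁻¹ / v1 := div_le_div_of_nonneg_left (inv_pos.2 hS0).le hv1 (hw a ha)
      have h3 : 0 ≤ S⁻¹ / w a * W a := by positivity
      calc (S⁻¹ / w a) ^ 2 * W a = (S⁻¹ / w a) * (S⁻¹ / w a * W a) := by ring
        _ ≤ (S⁻¹ / v1) * (S⁻¹ / w a * W a) := mul_le_mul_of_nonneg_right h2 h3
    rw [← Finset.mul_sum, hsum1, mul_one] at h1
    exact h1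
  · have h1 : ∑ a ∈ Icc 1 m, (S⁻¹ / w a) ^ 2 * W a * w a = ∑ a ∈ Icc 1 m, S⁻¹ * (S⁻¹ / w a * W a) := by
      refine Finset.sum_congr rfl fun a ha => ?_
      have hwa := (hw0 a ha).ne'
      field_simp
    rw [h1, ← Finset.mul_sum, hsum1, mul_one]

theorem CoB_num {D Λ r' ε m G μ S1 S2 N v1 l vm cφ : ℝ} (hD : 1 ≤ D) (hΛ : 1 ≤ Λ) (hr : 0 < r') (hε : 0 < ε)
    (hm : 70000 * D ^ 4 * Λ ^ 2 / r' ≤ m) (hG : G ≤ 2 * D * ε / r') (hG0 : 0 ≤ G)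
    (hμ0 : 0 ≤ μ) (hμ : μ ≤ 8 * D * Λ / ε) (hc : 0 < cφ) (hcm : cφ ≤ 4 * D * ε / m) (hS1 : S1 ≤ cφ / v1) (hS2 : S2 = cφ)
    (hv1 : 0 < v1) (hN : 1 / v1 ≤ N) (hl : 1 / 16 ≤ l - vm) :
    G * (μ * (μ * S1 / N + μ * S2 / (l - vm))) ≤ 1 / 8 := by
  have hD0 : 0 < D := by linarith
  have hΛ0 : 0 < Λ := by linarith
  have hN0 : 0 < N := lt_of_lt_of_le (by positivity) hN
  have hm0 : 0 < m := lt_of_lt_of_le (by positivity) hm
  have h1 : μ * S1 / N ≤ μ * cφ := by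
    rw [div_le_iff₀ hN0]
    have h2 : S1 ≤ cφ * N := by
      refine hS1.trans ?_
      rw [div_eq_mul_one_div]
      exact mul_le_mul_of_nonneg_left hN hc.le
    calc μ * S1 ≤ μ * (cφ * N) := mul_le_mul_of_nonneg_left h2 hμ0
      _ = μ * cφ * N := by ring
  have hl0 : 0 < l - vm := by linarith
  have h2 : μ * S2 / (l - vm) ≤ 16 * (μ * cφ) := by
    rw [div_le_iff₀ hl0, hS2]
    have h3 : 0 ≤ μ * cφ := by positivity
    nlinarith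
  have h3 : μ * (μ * S1 / N + μ * S2 / (l - vm)) ≤ 17 * (μ ^ 2 * cφ) := by
    have : μ * (μ * S1 / N + μ * S2 / (l - vm)) ≤ μ * (17 * (μ * cφ)) := mul_le_mul_of_nonneg_left (by linarith) hμ0
    linarith [this, show μ * (17 * (μ * cφ)) = 17 * (μ ^ 2 * cφ) by ring]
  have h4 : μ ^ 2 * cφ ≤ (8 * D * Λ / ε) ^ 2 * (4 * D * ε / m) := by
    refine mul_le_mul (pow_le_pow_left₀ hμ0 hμ 2) hcm hc.le (by positivity)
  have h5 : G * (μ * (μ * S1 / N + μ * S2 / (l - vm))) ≤ (2 * D * ε / r') * (17 * ((8 * D * Λ / ε) ^ 2 * (4 * D * ε / m))) := by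
    refine (mul_le_mul_of_nonneg_left (h3.trans (mul_le_mul_of_nonneg_left h4 (by norm_num))) hG0).trans ?_
    exact mul_le_mul_of_nonneg_right hG (by positivity)
  refine h5.trans ?_
  have h6 : (2 * D * ε / r') * (17 * ((8 * D * Λ / ε) ^ 2 * (4 * D * ε / m))) = 8704 * D ^ 4 * Λ ^ 2 / r' / m := by
    field_simp
    ring
  rw [h6, div_le_iff₀ hm0]
  have h7 : 8704 * D ^ 4 * Λ ^ 2 / r' = 8704 / 70000 * (70000 * D ^ 4 * Λ ^ 2 / r') := by ring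
  rw [h7]
  have h8 : 0 < 70000 * D ^ 4 * Λ ^ 2 / r' := by positivity
  nlinarith

theorem CoB_fin {N : ℕ} {m Γ M2 μ U T c1 : ℝ} (hm : 0 ≤ m) (hΓ : 0 ≤ Γ) (hM : 0 ≤ M2) (hμ : 0 ≤ μ) (hμU : μ ≤ U)
    (hc1 : 0 ≤ c1) {F : ℝ} (hF : 0 < F)
    (h : T ≤ 4 * ((1 + m * (2 * Γ * M2)) ^ (4 * N) * F * 2 ^ (4 * N + 1) * (1 + μ) ^ (4 * N)) * c1) :
    1 / (4 * ((1 + m * (2 * Γ * M2)) ^ (4 * N) * F * 2 ^ (4 * N + 1) * (1 + U) ^ (4 * N))) * T ≤ c1 := by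
  have hU : 0 ≤ U := hμ.trans hμU
  have h1 : 0 < 4 * ((1 + m * (2 * Γ * M2)) ^ (4 * N) * F * 2 ^ (4 * N + 1) * (1 + U) ^ (4 * N)) := by positivity
  rw [div_mul_eq_mul_div, one_mul, div_le_iff₀ h1]
  refine h.trans ?_
  have h2 : (1 + μ) ^ (4 * N) ≤ (1 + U) ^ (4 * N) := pow_le_pow_left₀ (by positivity) (by linarith) _
  calc 4 * ((1 + m * (2 * Γ * M2)) ^ (4 * N) * F * 2 ^ (4 * N + 1) * (1 + μ) ^ (4 * N)) * c1
      ≤ 4 * ((1 + m * (2 * Γ * M2)) ^ (4 * N) * F * 2 ^ (4 * N + 1) * (1 + U) ^ (4 * N)) * c1 := by gcongr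
    _ = _ := by ring

open Classical in
theorem core {Λ r A : ℝ} (hΛ : 1 ≤ Λ) (hr : 0 < r) (hA : 0 < A) : ∃ c : ℝ, 0 < c ∧ ∃ x0 : ℝ, ∀ x : ℝ, x0 ≤ x →
    ∀ (ι : Type) [Fintype ι] [DecidableEq ι],
      (Fintype.card ι : ℝ) ≤ 2 * (⌊Λ * Real.log x⌋₊ : ℝ) *
        ((Nat.totient (primorial ⌊Real.log x / 100⌋₊) : ℝ) / (primorial ⌊Real.log x / 100⌋₊ : ℝ)) →
      ∀ cc : ι → ℕ, Fm ⌊Λ * Real.log x⌋₊ (primorial ⌊Real.log x / 100⌋₊) cc → (∀ i, (cc i : ℝ) ≤ x ^ A) →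
      c * (⌊x / (primorial ⌊Real.log x / 100⌋₊ : ℝ)⌋₊ : ℝ) ≤
        (((range ⌊x / (primorial ⌊Real.log x / 100⌋₊ : ℝ)⌋₊).filter (fun t => ∀ i, ∃ p : ℕ, p.Prime ∧ (p : ℝ) ≤ x ^ r ∧
          p ∣ primorial ⌊Real.log x / 100⌋₊ * t + cc i)).card : ℝ) := by
  obtain ⟨D1, hD1, hwbd⟩ := wbd
  obtain ⟨D2, hD2, hmub⟩ := mub
  obtain ⟨D, hDD1, hDD2⟩ : ∃ D : ℝ, D1 ≤ D ∧ D2 ≤ D := ⟨max D1 D2, le_max_left _ _, le_max_right _ _⟩
  have hD : 1 ≤ D := hD1.trans hDD1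
  have hD0 : 0 < D := by linarith
  have hD10 : 0 < D1 := by linarith
  have hΛ0 : 0 < Λ := by linarith
  obtain ⟨v, hv, hv16, hvr⟩ : ∃ v : ℝ, 0 < v ∧ v ≤ 1 / 16 ∧ v ≤ r :=
    ⟨min r (1 / 16), lt_min hr (by norm_num), min_le_right _ _, min_le_left _ _⟩
  obtain ⟨B, hB8⟩ : ∃ B : ℕ, 8 * D ^ 2 ≤ (B : ℝ) := ⟨⌈8 * D ^ 2⌉₊, Nat.le_ceil _⟩
  have hB1 : 1 ≤ B := by
    have h1 : (1 : ℝ) ≤ B := by nlinarith
    exact_mod_cast h1
  obtain ⟨m, hm70⟩ : ∃ m : ℕ, 70000 * D ^ 4 * Λ ^ 2 / v ≤ (m : ℝ) := ⟨⌈70000 * D ^ 4 * Λ ^ 2 / v⌉₊, Nat.le_ceil _⟩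
  have hm1 : 1 ≤ m := by
    have h1 : (0 : ℝ) < m := lt_of_lt_of_le (by positivity) hm70
    have h2 : 0 < m := by exact_mod_cast h1
    omega
  set w : ℕ → ℝ := vs B m v with hw
  have hw1 : 0 < w 1 := CoB_vs_pos hB1 hv le_rfl
  have hwm : Monotone w := vs_mono hB1 hv.le
  have hw0 : ∀ a, 0 ≤ w a := vs_nonneg hv.le
  have hwv : ∀ a, w a ≤ v := vs_le hB1 hv.le
  have hwz : w 0 = 0 := by simp [hw, vs]
  obtain ⟨N, hN1, hNv⟩ : ∃ N : ℕ, 1 ≤ N ∧ 1 / w 1 ≤ (N : ℝ) := by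
    refine ⟨⌈1 / w 1⌉₊, ?_, Nat.le_ceil _⟩
    exact Nat.one_le_ceil_iff.2 (by positivity)
  obtain ⟨C, hcoA⟩ := coA N
  obtain ⟨ε, hε, hεv, hε1, hCb, hexp, hbig⟩ := epsch N m C hD hΛ hw1
  set b0 := ⌊1 / (60 * ε)⌋₊ with hb0
  set Γ : ℝ := 2 * D / ε with hΓ
  set M := ⌈2 / ε⌉₊ with hM
  set M' := ⌈2 * (A + 2) / ε⌉₊ with hM'
  have hΓ1 : 1 ≤ Γ := by
    rw [hΓ, le_div_iff₀ hε]
    linarith
  set κ0 : ℝ := Real.exp (-(b0 : ℝ)) * (4 * Γ ^ 5) ^ (2 * N + 1) with hκ0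
  have hκ : 0 < κ0 := by positivity
  have hεw : ε ≤ w 1 / (4 * D1) := by
    refine hεv.trans (div_le_div_of_nonneg_left hw1.le (by positivity) (by linarith))
  have hεv' : ε ≤ v := by
    refine hεv.trans (le_trans ?_ (hwv 1))
    rw [div_le_iff₀ (by positivity)]
    nlinarith
  obtain ⟨xw, hxw⟩ := hwbd B m v v ε (by nlinarith) hm1 hv (by linarith) hv (by linarith) hε hεw hεv'
  obtain ⟨xm, hxm⟩ := hmub Λ ε hΛ hε
  obtain ⟨xe, hxe1, hxe⟩ := evt N C hΛ hε hε1 hv hv16 hA hΓ1 hκ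
  have hU0 : 0 < 8 * D * Λ / ε := by positivity
  refine ⟨1 / (4 * ((1 + (m : ℝ) * (2 * Γ * 2 ^ M')) ^ (4 * N) * ((4 * N).factorial : ℝ) * 2 ^ (4 * N + 1) *
    (1 + 8 * D * Λ / ε) ^ (4 * N))), by positivity, max xw (max xm xe), ?_⟩
  intro x hx ι _ _ hcard cc hFm hcc
  have hx1 : xw ≤ x := (le_max_left _ _).trans hx
  have hx2 : xm ≤ x := ((le_max_left _ _).trans (le_max_right _ _)).trans hx
  have hx3 : xe ≤ x := ((le_max_right _ _).trans (le_max_right _ _)).trans hx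
  have hx0 : 1 ≤ x := hxe1.trans hx3
  have hxpos : 0 < x := by linarith
  obtain ⟨w1, w2, w3, w4⟩ := hxw x hx1
  have m1 := hxm x hx2
  obtain ⟨e1, e2, e3, e4, e5, e6, e7, e8, e9, e10, e11, e12⟩ := hxe x hx3
  set K := ⌊Λ * Real.log x⌋₊ with hK
  set Q0 := primorial ⌊Real.log x / 100⌋₊ with hQ0
  set z := zf ε x with hz
  set R := zf v x with hR
  set T := ⌊x / (Q0 : ℝ)⌋₊ with hT
  set Z : ℕ → ℕ := fun a => zf (w a) x with hZ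
  have hVV1 : 0 < VV K z 1 := vv_pos (by omega)
  set μ : ℝ := (Fintype.card ι : ℝ) * VV K z 1 with hμ
  have hμ0 : 0 ≤ μ := by positivity
  have hμU : μ ≤ 8 * D * Λ / ε := by
    have h1 : μ ≤ 8 * D2 * Λ / ε := (mul_le_mul_of_nonneg_right hcard hVV1.le).trans m1
    refine h1.trans ?_
    gcongr
  -- the coefficients
  obtain ⟨cφ, hc0, hcE, hs1, hs2, hs3⟩ := CoB_f0 (m := m) hm1 (w := w) (W := wA Z (primorial z)) (v1 := w 1) (E := 4 * D * ε)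
    hw1 (fun a ha => hwm (Finset.mem_Icc.1 ha).1) (by positivity) (fun a ha => by
      refine le_trans ?_ (w1 a ha)
      refine div_le_div_of_nonneg_left (hw0 a) (by positivity) ?_
      gcongr)
  set f0 : ℕ → ℝ := fun a => if a = 0 then 0 else cφ / w a with hf0
  have hf0' : ∀ a ∈ Icc 1 m, f0 a = cφ / w a := by
    intro a ha
    have := (Finset.mem_Icc.1 ha).1
    simp only [hf0]
    rw [if_neg (by omega)]
  have hf0n : ∀ a, 0 ≤ f0 a := by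
    intro a
    simp only [hf0]
    split_ifs
    · exact le_rfl
    · exact div_nonneg hc0.le (hw0 a)
  have hmpos : (0 : ℝ) < m := by exact_mod_cast hm1
  have hf0le : ∀ a, |f0 a| ≤ 1 := by
    intro a
    rw [abs_of_nonneg (hf0n a)]
    simp only [hf0]
    split_ifs with ha
    · norm_num
    · have hwa : w 1 ≤ w a := hwm (by omega)
      have hwa0 : 0 < w a := lt_of_lt_of_le hw1 hwa
      rw [div_le_one hwa0]
      refine le_trans ?_ hwa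
      refine hcE.trans ?_
      rw [div_le_iff₀ hmpos]
      have h1 : ε * (4 * D) ≤ w 1 := by rwa [le_div_iff₀ (by positivity)] at hεv
      have h2 : (1 : ℝ) ≤ m := by exact_mod_cast hm1
      calc 4 * D * ε = ε * (4 * D) := by ring
        _ ≤ w 1 := h1
        _ ≤ w 1 * m := le_mul_of_one_le_right hw1.le h2
  have hsum1 : ∑ a ∈ Icc 1 m, f0 a * wA Z (primorial z) a = 1 := by
    rw [← hs1]
    exact Finset.sum_congr rfl fun a ha => by rw [hf0' a ha]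
  have hsum2 : ∑ a ∈ Icc 1 m, f0 a ^ 2 * wA Z (primorial z) a ≤ cφ / w 1 := by
    refine le_trans (le_of_eq ?_) hs2
    exact Finset.sum_congr rfl fun a ha => by rw [hf0' a ha]
  have hsum3 : ∑ a ∈ Icc 1 m, f0 a ^ 2 * wA Z (primorial z) a * w a = cφ := by
    refine Eq.trans ?_ hs3
    exact Finset.sum_congr rfl fun a ha => by rw [hf0' a ha]
  have hzfM : ∀ e : ℝ, e ≤ 1 → zf e x ≤ z ^ M := by
    intro e he
    have h1 : (zf e x : ℝ) ≤ x := by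
      refine (zf_le hxpos.le).trans ?_
      calc x ^ e ≤ x ^ (1 : ℝ) := Real.rpow_le_rpow_of_exponent_le hx0 he
        _ = x := Real.rpow_one x
    have h2 : (zf e x : ℝ) ≤ ((z ^ M : ℕ) : ℝ) := by
      push_cast
      exact h1.trans e5
    exact_mod_cast h2
  have hw1' : ∀ a, w a ≤ 1 := fun a => (hwv a).trans (by linarith)
  have hsys : Sys C N m M K z Q0 T R b0 Z w f0 (1 / 8) Γ (x ^ (1 / 8 : ℝ)) (3 * κ0) cc := by
    refine ⟨hFm, hN1, e1, e2, e3, hCb, ?_, ?_, ?_, ?_, e8, e4, e7, hΓ1, ?_, ?_, hf0le, ?_, ?_, ?_, ?_⟩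
    · simp only [hZ, hwz]
      exact zf_zero x
    · intro a b hab
      exact zf_mono hx0 (hwm hab)
    · intro a _
      exact hzfM _ (hw1' a)
    · exact hzfM _ (by linarith)
    · intro a ha
      refine (w2 a ha).trans ?_
      rw [hΓ]
      gcongr
    · refine w3.trans ?_
      rw [hΓ]
      gcongr
    · exact Real.one_le_rpow hx0 (by norm_num)
    · intro n hn
      unfold Cf at hn
      rw [Finset.mem_filter] at hn
      calc ∏ i, (Z (n i) : ℝ) ≤ ∏ i, x ^ (w (n i)) := by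
            refine Finset.prod_le_prod (fun i _ => Nat.cast_nonneg _) fun i _ => zf_le hxpos.le
        _ = x ^ (∑ i, w (n i)) := (Real.rpow_sum_of_pos hxpos _ _).symm
        _ ≤ x ^ (1 / 8 : ℝ) := Real.rpow_le_rpow_of_exponent_le hx0 hn.2.2
    · have h1 : Real.exp (-(b0 : ℝ)) * (4 * Γ ^ 5) ^ (2 * N + 1) = κ0 := rfl
      rw [h1]
      linarith only [e9, e10]
    · linarith only [hexp, e11, e12]
  have hmle : (0 : ℝ) ≤ ((m : ℝ) + 1) ^ 2 := by positivity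
  have hη : 3 * κ0 * ((2 * (N : ℝ) + 1) * (1 + ((m : ℝ) + 1) ^ 2 * μ) ^ (2 * N + 1)) ≤ 1 / 8 := by
    refine le_trans ?_ hbig
    have h1 : (1 + ((m : ℝ) + 1) ^ 2 * μ) ^ (2 * N + 1) ≤ (1 + ((m : ℝ) + 1) ^ 2 * (8 * D * Λ / ε)) ^ (2 * N + 1) := by
      refine pow_le_pow_left₀ (by positivity) ?_ _
      have := mul_le_mul_of_nonneg_left hμU hmle
      linarith only [this]
    have h2 : 3 * κ0 = 3 * Real.exp (-(b0 : ℝ)) * (4 * (2 * D / ε) ^ 5) ^ (2 * N + 1) := by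
      rw [hκ0, hΓ]; ring
    rw [h2]
    refine mul_le_mul_of_nonneg_left (mul_le_mul_of_nonneg_left h1 (by positivity)) (by positivity)
  have hη' : 3 * κ0 * (1 + ((m : ℝ) + 1) ^ 2 * μ) ^ (2 * N) ≤ 1 / 8 := by
    refine le_trans ?_ hη
    refine mul_le_mul_of_nonneg_left ?_ (by positivity)
    have h1 : (1 : ℝ) ≤ 1 + ((m : ℝ) + 1) ^ 2 * μ := by
      have := mul_nonneg hmle hμ0
      linarith only [this]
    have h2 : (1 + ((m : ℝ) + 1) ^ 2 * μ) ^ (2 * N) ≤ (1 + ((m : ℝ) + 1) ^ 2 * μ) ^ (2 * N + 1) :=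
      pow_le_pow_right₀ h1 (by omega)
    have h3 : 0 ≤ (1 + ((m : ℝ) + 1) ^ 2 * μ) ^ (2 * N + 1) := by positivity
    have h4 : (1 : ℝ) ≤ 2 * (N : ℝ) + 1 := by
      have : (0 : ℝ) ≤ N := Nat.cast_nonneg _
      linarith only [this]
    exact h2.trans (le_mul_of_one_le_left h3 h4)
  have hG0 : 0 ≤ 1 / GG (primorial z) R := by
    have := CoA_GG (primorial z) R
    positivity
  have hthird : 1 / GG (primorial z) R * (μ *
      (μ * (∑ a ∈ Icc 1 m, f0 a ^ 2 * wA Z (primorial z) a) / N +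
        μ * (∑ a ∈ Icc 1 m, f0 a ^ 2 * wA Z (primorial z) a * w a) / (1 / 8 - v))) ≤ 1 / 8 := by
    refine CoB_num (D := D) (Λ := Λ) (r' := v) (ε := ε) (m := (m : ℝ)) (cφ := cφ) (v1 := w 1) hD hΛ hv hε hm70 ?_ hG0 hμ0 hμU hc0 ?_
      hsum2 hsum3 hw1 hNv (by linarith)
    · refine w4.trans ?_
      gcongr
    · exact hcE
  have hres := hcoA ι C m M M' K z Q0 T R b0 R Z w f0 (1 / 8) v Γ (x ^ (1 / 8 : ℝ)) (3 * κ0) cc le_rfl hsys hw0 hwz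
    (fun a _ => hwv a) (by linarith) (by norm_num) hf0n hsum1 le_rfl (zf_mono hx0 hεv') (fun a _ => zf_mono hx0 (hwv a))
    (fun i t ht => by
      have hQ0pos : (0 : ℝ) < Q0 := by exact_mod_cast primorial_pos _
      have h1 : (t : ℝ) ≤ x / Q0 := by
        have h2 : (T : ℝ) ≤ x / Q0 := Nat.floor_le (by positivity)
        have h3 : (t : ℝ) ≤ T := by exact_mod_cast ht.le
        exact h3.trans h2
      have h2 : (Q0 : ℝ) * t ≤ x := by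
        rw [le_div_iff₀ hQ0pos] at h1
        linarith only [h1]
      have h3 : ((Q0 * t + cc i : ℕ) : ℝ) ≤ ((z ^ M' : ℕ) : ℝ) := by
        push_cast
        have := hcc i
        linarith only [this, h2, e6]
      exact_mod_cast h3)
    hη' hη hthird
  have hfin := CoB_fin (N := N) (m := (m : ℝ)) (Γ := Γ) (M2 := 2 ^ M') (μ := μ) (U := 8 * D * Λ / ε) (T := (T : ℝ))
    (F := ((4 * N).factorial : ℝ)) (by positivity) (by positivity) (by positivity) hμ0 hμU (Nat.cast_nonneg _)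
    (by exact_mod_cast Nat.factorial_pos _) hres
  refine hfin.trans ?_
  have hsub : ((range T).filter (fun t => ∀ i, ∃ p : ℕ, p.Prime ∧ p ≤ R ∧ p ∣ Q0 * t + cc i)) ⊆
      ((range T).filter (fun t => ∀ i, ∃ p : ℕ, p.Prime ∧ (p : ℝ) ≤ x ^ r ∧ p ∣ Q0 * t + cc i)) := by
    intro t ht
    rw [Finset.mem_filter] at ht ⊢
    refine ⟨ht.1, fun i => ?_⟩
    obtain ⟨p, hp1, hp2, hp3⟩ := ht.2 i
    refine ⟨p, hp1, ?_, hp3⟩
    have h1 : (p : ℝ) ≤ R := by exact_mod_cast hp2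
    refine h1.trans ((zf_le hxpos.le).trans (Real.rpow_le_rpow_of_exponent_le hx0 hvr))
  exact_mod_cast Finset.card_le_card hsub

end H69PG
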