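import Pool.Agent.H69.PG.Sys

/-!
# H1V: the first hypothesis of the abstract theorem

`C` is the constant of `elu` for `J0 = 4 N + 2`. Let `U = sp n ∪ sp n'`, `|U| ≤ 2N`. Outside `U` both factors are `1` (`gA` with `a = 0`). For `i ∈ U`:
`gA(n_i) gA(n'_i) = e_i th0(L) Fn (DAB (n_i) (n'_i)) (fAB (n_i) (n'_i)) (L)` with `e_i = ff(n_i) ff(n'_i)`, `ff 0 = 1`, `ff a = - f0 a` (`th0² = th0`; `Fn (sq Q (Z a)) (lamA a) * Fn (sq Q (Z a')) (lamA a') = Fn DAB fAB` by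
`fn_mul`; `Fn (sq Q 1) (lamA 0) L = lamA 0 1 = 1`, `sq Q (Z 0) = {1}`). Pull out `∏ e_i`, `|e_i| ≤ 1`. `elu` with `Γc = 10 Γ`, `A1 = 4 Γ^5`, `A2 i = 4 Γ² Z(n_i) Z(n'_i)` (`fAB_ctrl`, `fAB_sum`, `fAB_abs`,
`fAB_good`). Main term: `T VV_|U| ∏_{i ∈ U} e_i SS(..)`, by `fAB_one` it is `0` if `n ≠ n'` (some `i` with `n_i ≠ n'_i` is in `U`) and for `n = n'` it is
`T VV_|sp n| ∏_{i ∈ sp n} f0(n_i)² wA(n_i) = T ms(n)` (`sA 0 = 1`; `Vf = VV` as `|U| ≤ 4N+2`).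
Error: `T VV_j (e^(-b0) (4Γ^5)^j + C/√z (10Γ)^j) + z^(..) (4Γ²)^j ∏ Z(n_i) Z(n'_i)`, `j = |U| ≤ 2N`, `∏_{i ∈ U} Z(n_i) = ∏_i Z(n_i) ≤ Pl` (`Z 0 = 1`), and `VV_j ≥ VV_{2N+1}` (`vv_anti`), `R ≥ 1`: at most
`T VV_j η` by `hη`.
-/

open Finset EG

namespace H69PG

/-- the sign factor -/
noncomputable def H1v_ff (f0 : ℕ → ℝ) (a : ℕ) : ℝ := if a = 0 then 1 else - f0 a

theorem H1v_ff_le {f0 : ℕ → ℝ} (h : ∀ a, |f0 a| ≤ 1) (a : ℕ) : |H1v_ff f0 a| ≤ 1 := by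
  unfold H1v_ff
  split_ifs
  · simp
  · rw [abs_neg]
    exact h a

theorem H1v_sq_one (Q : ℕ) : sq Q 1 = {1} := by
  ext r
  simp only [EG.sq, Finset.mem_filter, Finset.mem_Icc, Finset.mem_singleton]
  constructor
  · rintro ⟨h, -⟩
    omega
  · rintro rfl
    simp

theorem H1v_Fn_zero {Z : ℕ → ℕ} (Q : ℕ) (hZ0 : Z 0 = 1) (hZ : Monotone Z) (L : ℕ) :
    Fn (sq Q (Z 0)) (lamA Z Q 0) L = 1 := by
  unfold Fn
  rw [hZ0, H1v_sq_one, Finset.filter_singleton, if_pos (one_dvd L), Finset.sum_singleton, lamA_one Q hZ0 hZ]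
  simp [wA]

theorem H1v_fac {ι : Type} {K z Q0 : ℕ} {Z : ℕ → ℕ} {f0 : ℕ → ℝ} (hZ0 : Z 0 = 1) (hZ : Monotone Z) (c : ι → ℕ) (i : ι)
    (a a' t : ℕ) (h : a ≠ 0 ∨ a' ≠ 0) :
    gA K z Q0 Z f0 c i a t * gA K z Q0 Z f0 c i a' t =
      (H1v_ff f0 a * H1v_ff f0 a') * (th0 K z (Q0 * t + c i) *
        Fn (DAB Z (primorial z) a a') (fAB Z (primorial z) a a') (Q0 * t + c i)) := by
  have hth : th0 K z (Q0 * t + c i) * th0 K z (Q0 * t + c i) = th0 K z (Q0 * t + c i) := by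
    unfold th0
    split_ifs <;> simp
  unfold DAB fAB
  rw [← fn_mul]
  by_cases ha : a = 0
  · have ha' : a' ≠ 0 := by tauto
    subst ha
    rw [H1v_Fn_zero (primorial z) hZ0 hZ]
    unfold gA H1v_ff
    rw [if_pos rfl, if_pos rfl, if_neg ha', if_neg ha']
    ring
  · by_cases ha' : a' = 0
    · subst ha'
      rw [H1v_Fn_zero (primorial z) hZ0 hZ]
      unfold gA H1v_ff
      rw [if_neg ha, if_neg ha, if_pos rfl, if_pos rfl]
      ring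
    · unfold gA H1v_ff
      rw [if_neg ha, if_neg ha, if_neg ha', if_neg ha']
      linear_combination (f0 a * f0 a' * Fn (sq (primorial z) (Z a)) (lamA Z (primorial z) a) (Q0 * t + c i) *
        Fn (sq (primorial z) (Z a')) (lamA Z (primorial z) a') (Q0 * t + c i)) * hth

theorem H1v_mem_sp {ι : Type} [Fintype ι] [DecidableEq ι] {m : ℕ} (n : ι → Fin (m + 1)) (i : ι) :
    i ∈ sp n ↔ (n i : ℕ) ≠ 0 := by
  unfold sp
  rw [Finset.mem_filter]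
  constructor
  · rintro ⟨-, h⟩ h0
    exact h (Fin.ext h0)
  · intro h
    refine ⟨Finset.mem_univ i, fun h0 => h ?_⟩
    rw [h0]
    rfl

theorem h1v (N : ℕ) : ∃ C1 : ℕ, ∀ (ι : Type) [Fintype ι] [DecidableEq ι] (C m M K z Q0 T R b0 : ℕ) (Z : ℕ → ℕ) (v f0 : ℕ → ℝ)
    (l Γ Pl η : ℝ) (c : ι → ℕ), C1 ≤ C → Sys C N m M K z Q0 T R b0 Z v f0 l Γ Pl η c →
    ∀ n ∈ Cf ι m N v l, ∀ n' ∈ Cf ι m N v l,
      |∑ t ∈ range T, ∏ i, (gA K z Q0 Z f0 c i (n i) t * gA K z Q0 Z f0 c i (n' i) t) -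
          ((range T).card : ℝ) * (if n = n' then ms (Vf N K z) (sA Z (primorial z) f0) n else 0)| ≤
        ((range T).card : ℝ) * (η * Vf N K z (sp n ∪ sp n')) := by
  obtain ⟨C0, hC01, helu⟩ := elu (4 * N + 2)
  refine ⟨C0, ?_⟩
  intro ι _ _ C m M K z Q0 T R b0 Z v f0 l Γ Pl η c hC S n hn n' hn'
  set U : Finset ι := sp n ∪ sp n' with hU
  have hK2 : 2 ≤ K := by have := S.hK; omega
  have hz1 : 1 ≤ z := by have := S.hKz; omega
  have hz0 : (0 : ℝ) < z := by exact_mod_cast hz1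
  have hcn : (sp n).card ≤ N := ((Finset.mem_filter.1 hn).2).1
  have hcn' : (sp n').card ≤ N := ((Finset.mem_filter.1 hn').2).1
  have hUc : U.card ≤ 2 * N := by
    have h1 : U.card ≤ (sp n).card + (sp n').card := Finset.card_union_le (sp n) (sp n')
    omega
  have hmU : ∀ i, i ∈ U ↔ ((n i : ℕ) ≠ 0 ∨ (n' i : ℕ) ≠ 0) := by
    intro i
    rw [hU, Finset.mem_union, H1v_mem_sp, H1v_mem_sp]
  have hΓ0 : (0 : ℝ) ≤ Γ := le_trans zero_le_one S.Γ_one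
  have hle : ∀ i, (n i : ℕ) ≤ m := fun i => Nat.lt_succ_iff.1 (n i).2
  have hle' : ∀ i, (n' i : ℕ) ≤ m := fun i => Nat.lt_succ_iff.1 (n' i).2
  have main := helu b0 (hC.trans S.hCb) ι K z Q0 (by have := S.hK; omega) hK2 S.hKz (hC.trans S.hCz) c S.fm T U (by omega)
    (fun i => DAB Z (primorial z) (n i) (n' i)) (fun i => fAB Z (primorial z) (n i) (n' i)) (fun _ => 10 * Γ)
    (fun _ => 4 * Γ ^ 5) (fun i => 4 * Γ ^ 2 * ((Z (n i) : ℝ) * Z (n' i)))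
    (fun i _ => fAB_good Z _ _ _) (fun i _ => by positivity)
    (fun i _ => fAB_ctrl (S.ΓZ _ (hle i)) (S.ΓZ _ (hle' i)) hΓ0)
    (fun i _ => fAB_sum hz1 (S.ZM _ (hle i)) (S.ZM _ (hle' i)) S.hM (S.ΓZ _ (hle i)) (S.ΓZ _ (hle' i)))
    (fun i _ => fAB_abs hz1 (S.ZM _ (hle i)) (S.ZM _ (hle' i)) S.hM (S.ΓZ _ (hle i)) (S.ΓZ _ (hle' i)))
  simp only [Finset.prod_const] at main
  set e : ι → ℝ := fun i => H1v_ff f0 (n i) * H1v_ff f0 (n' i) with he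
  have hsum : ∑ t ∈ range T, ∏ i, (gA K z Q0 Z f0 c i (n i) t * gA K z Q0 Z f0 c i (n' i) t) =
      (∏ i ∈ U, e i) * ∑ t ∈ range T, ∏ i ∈ U, (th0 K z (Q0 * t + c i) *
        Fn (DAB Z (primorial z) (n i) (n' i)) (fAB Z (primorial z) (n i) (n' i)) (Q0 * t + c i)) := by
    rw [Finset.mul_sum]
    refine Finset.sum_congr rfl fun t _ => ?_
    rw [← Finset.prod_mul_distrib]
    have h1 : ∏ i, (gA K z Q0 Z f0 c i (n i) t * gA K z Q0 Z f0 c i (n' i) t) =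
        ∏ i ∈ U, (gA K z Q0 Z f0 c i (n i) t * gA K z Q0 Z f0 c i (n' i) t) := by
      symm
      refine Finset.prod_subset (Finset.subset_univ U) fun i _ hi => ?_
      rw [hmU, not_or, not_not, not_not] at hi
      rw [hi.1, hi.2]
      simp [gA]
    rw [h1]
    refine Finset.prod_congr rfl fun i hi => ?_
    exact H1v_fac S.Z0 S.Zm c i (n i) (n' i) t ((hmU i).1 hi)
  set A : ℝ := ∑ t ∈ range T, ∏ i ∈ U, (th0 K z (Q0 * t + c i) *
        Fn (DAB Z (primorial z) (n i) (n' i)) (fAB Z (primorial z) (n i) (n' i)) (Q0 * t + c i)) with hA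
  have hVf : Vf N K z U = VV K z U.card := by
    unfold Vf
    rw [if_pos (by omega)]
  have hmain : (T : ℝ) * (if n = n' then ms (Vf N K z) (sA Z (primorial z) f0) n else 0) =
      (∏ i ∈ U, e i) * ((T : ℝ) * VV K z U.card *
        ∏ i ∈ U, SS (DAB Z (primorial z) (n i) (n' i)) (fAB Z (primorial z) (n i) (n' i)) 1) := by
    by_cases hnn : n = n'
    · rw [if_pos hnn]
      have hUn : U = sp n := by rw [hU, ← hnn, Finset.union_self]
      have h1 : ms (Vf N K z) (sA Z (primorial z) f0) n = VV K z U.card * ∏ i ∈ U, sA Z (primorial z) f0 (n i) := by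
        unfold ms
        rw [← hUn, hVf]
        congr 1
        symm
        refine Finset.prod_subset (Finset.subset_univ U) fun i _ hi => ?_
        rw [hmU, not_or, not_not, not_not] at hi
        rw [hi.1]
        simp [sA]
      rw [h1]
      have h2 : ∏ i ∈ U, sA Z (primorial z) f0 (n i) = (∏ i ∈ U, e i) *
          ∏ i ∈ U, SS (DAB Z (primorial z) (n i) (n' i)) (fAB Z (primorial z) (n i) (n' i)) 1 := by
        rw [← Finset.prod_mul_distrib]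
        refine Finset.prod_congr rfl fun i hi => ?_
        have h3 : (n i : ℕ) ≠ 0 := by
          have := (hmU i).1 hi
          rw [← hnn] at this
          tauto
        rw [fAB_one (primorial z) S.Z0 S.Zm, ← hnn, if_pos rfl, he]
        simp only
        rw [← hnn]
        unfold H1v_ff sA
        rw [if_neg h3, if_neg h3]
        ring
      rw [h2]
      ring
    · rw [if_neg hnn, mul_zero]
      obtain ⟨i, hi⟩ : ∃ i, n i ≠ n' i := by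
        by_contra hcon
        push Not at hcon
        exact hnn (funext hcon)
      have hi' : (n i : ℕ) ≠ (n' i : ℕ) := fun h => hi (Fin.ext h)
      have hiU : i ∈ U := by
        rw [hmU]
        by_contra hcon
        rw [not_or, not_not, not_not] at hcon
        exact hi' (hcon.1.trans hcon.2.symm)
      have h0 : ∏ i ∈ U, SS (DAB Z (primorial z) (n i) (n' i)) (fAB Z (primorial z) (n i) (n' i)) 1 = 0 := by
        refine Finset.prod_eq_zero hiU ?_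
        rw [fAB_one (primorial z) S.Z0 S.Zm, if_neg hi']
      rw [h0]
      ring
  rw [Finset.card_range, hsum, hmain, ← mul_sub, abs_mul, hVf]
  have hE : |∏ i ∈ U, e i| ≤ 1 := by
    rw [Finset.abs_prod]
    refine Finset.prod_le_one (fun i _ => abs_nonneg _) fun i _ => ?_
    rw [he]
    simp only
    rw [abs_mul]
    exact mul_le_one₀ (H1v_ff_le S.f0_le _) (abs_nonneg _) (H1v_ff_le S.f0_le _)
  refine (mul_le_of_le_one_left (abs_nonneg _) hE).trans (main.trans ?_)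
  -- the error
  have hVpos : 0 < VV K z (2 * N + 1) := vv_pos (by have := S.hK; omega)
  have hVle : VV K z (2 * N + 1) ≤ VV K z U.card := vv_anti (by omega) (by have := S.hK; omega)
  have hV0 : 0 < VV K z U.card := lt_of_lt_of_le hVpos hVle
  have hT1 : (1 : ℝ) ≤ T := by exact_mod_cast S.T_pos
  have hT0 : (0 : ℝ) < T := lt_of_lt_of_le zero_lt_one hT1
  have hR1 : (1 : ℝ) ≤ (R : ℝ) ^ 2 := one_le_pow₀ (by exact_mod_cast S.R_pos)
  have hj : U.card ≤ 2 * N + 1 := by omega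
  have hΓ1 := S.Γ_one
  have p1 : (4 * Γ ^ 5) ^ U.card ≤ (4 * Γ ^ 5) ^ (2 * N + 1) := by
    refine pow_le_pow_right₀ ?_ hj
    have : (1 : ℝ) ≤ Γ ^ 5 := one_le_pow₀ hΓ1
    linarith
  have p2 : (10 * Γ) ^ U.card ≤ (10 * Γ) ^ (2 * N + 1) := by
    refine pow_le_pow_right₀ ?_ hj
    linarith
  have p3 : (4 * Γ ^ 2) ^ U.card ≤ (4 * Γ ^ 2) ^ (2 * N + 1) := by
    refine pow_le_pow_right₀ ?_ hj
    have : (1 : ℝ) ≤ Γ ^ 2 := one_le_pow₀ hΓ1
    linarith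
  have hsq : 0 < Real.sqrt z := Real.sqrt_pos.2 hz0
  have hC' : (C0 : ℝ) / Real.sqrt z ≤ (C : ℝ) / Real.sqrt z := by
    have : (C0 : ℝ) ≤ C := by exact_mod_cast hC
    gcongr
  have hprodZ : ∏ i ∈ U, (4 * Γ ^ 2 * ((Z (n i) : ℝ) * Z (n' i))) = (4 * Γ ^ 2) ^ U.card * ((∏ i, (Z (n i) : ℝ)) * ∏ i, (Z (n' i) : ℝ)) := by
    rw [Finset.prod_mul_distrib, Finset.prod_const]
    congr 1
    rw [← Finset.prod_mul_distrib]
    refine Finset.prod_subset (Finset.subset_univ U) fun i _ hi => ?_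
    rw [hmU, not_or, not_not, not_not] at hi
    rw [hi.1, hi.2, S.Z0]
    simp
  have hPl : (∏ i, (Z (n i) : ℝ)) * ∏ i, (Z (n' i) : ℝ) ≤ Pl ^ 2 := by
    rw [_root_.sq]
    exact mul_le_mul (S.hPl n hn) (S.hPl n' hn') (Finset.prod_nonneg fun i _ => Nat.cast_nonneg _)
      (le_trans zero_le_one S.Pl_one)
  have hprod0 : 0 ≤ (∏ i, (Z (n i) : ℝ)) * ∏ i, (Z (n' i) : ℝ) :=
    mul_nonneg (Finset.prod_nonneg fun i _ => Nat.cast_nonneg _) (Finset.prod_nonneg fun i _ => Nat.cast_nonneg _)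
  rw [hprodZ]
  set E0 : ℝ := Real.exp (-(b0 : ℝ)) with hE0
  have hE00 : 0 ≤ E0 := (Real.exp_pos _).le
  set W : ℝ := (z : ℝ) ^ (3 * (4 * b0 + 10)) with hW
  have hW0 : 0 ≤ W := by positivity
  set G : ℝ := (4 * Γ ^ 2) ^ (2 * N + 1) with hG
  have hG0 : 0 ≤ G := by positivity
  have hη := S.hη
  have q1 : (T : ℝ) * VV K z U.card * (E0 * (4 * Γ ^ 5) ^ U.card + (C0 : ℝ) / Real.sqrt z * (10 * Γ) ^ U.card) ≤
      (T : ℝ) * VV K z U.card * (E0 * (4 * Γ ^ 5) ^ (2 * N + 1) + (C : ℝ) / Real.sqrt z * (10 * Γ) ^ (2 * N + 1)) := by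
    have : 0 ≤ (T : ℝ) * VV K z U.card := (mul_pos hT0 hV0).le
    gcongr
  have q2 : W * ((4 * Γ ^ 2) ^ U.card * ((∏ i, (Z (n i) : ℝ)) * ∏ i, (Z (n' i) : ℝ))) ≤ W * (G * (Pl ^ 2 * (R : ℝ) ^ 2)) := by
    refine mul_le_mul_of_nonneg_left ?_ hW0
    refine mul_le_mul p3 (hPl.trans ?_) hprod0 hG0
    exact le_mul_of_one_le_right (by positivity) hR1
  have q3 : W * (G * (Pl ^ 2 * (R : ℝ) ^ 2)) ≤ (T : ℝ) * VV K z U.card * (W * G * (Pl ^ 2 * (R : ℝ) ^ 2) / (T * VV K z (2 * N + 1))) := by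
    have hTV : 0 < (T : ℝ) * VV K z (2 * N + 1) := mul_pos hT0 hVpos
    rw [mul_div_assoc', le_div_iff₀ hTV]
    have : (T : ℝ) * VV K z (2 * N + 1) ≤ (T : ℝ) * VV K z U.card := mul_le_mul_of_nonneg_left hVle hT0.le
    have h5 : 0 ≤ W * (G * (Pl ^ 2 * (R : ℝ) ^ 2)) := by positivity
    calc W * (G * (Pl ^ 2 * (R : ℝ) ^ 2)) * ((T : ℝ) * VV K z (2 * N + 1)) ≤
        W * (G * (Pl ^ 2 * (R : ℝ) ^ 2)) * ((T : ℝ) * VV K z U.card) := mul_le_mul_of_nonneg_left this h5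
      _ = _ := by ring
  calc (T : ℝ) * VV K z U.card * (E0 * (4 * Γ ^ 5) ^ U.card + (C0 : ℝ) / Real.sqrt z * (10 * Γ) ^ U.card) +
        W * ((4 * Γ ^ 2) ^ U.card * ((∏ i, (Z (n i) : ℝ)) * ∏ i, (Z (n' i) : ℝ)))
      ≤ (T : ℝ) * VV K z U.card * (E0 * (4 * Γ ^ 5) ^ (2 * N + 1) + (C : ℝ) / Real.sqrt z * (10 * Γ) ^ (2 * N + 1)) +
        (T : ℝ) * VV K z U.card * (W * G * (Pl ^ 2 * (R : ℝ) ^ 2) / (T * VV K z (2 * N + 1))) :=
        add_le_add q1 (q2.trans q3)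
    _ = (T : ℝ) * VV K z U.card * (E0 * (4 * Γ ^ 5) ^ (2 * N + 1) + (C : ℝ) / Real.sqrt z * (10 * Γ) ^ (2 * N + 1) +
        W * G * (Pl ^ 2 * (R : ℝ) ^ 2) / (T * VV K z (2 * N + 1))) := by ring
    _ ≤ (T : ℝ) * VV K z U.card * η := mul_le_mul_of_nonneg_left hη (mul_pos hT0 hV0).le
    _ = (T : ℝ) * (η * VV K z U.card) := by ring

end H69PG
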