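import Pool.Agent.H69.PG.BhB

/-!
# BHC: the Brun-Hooley sieve

Write `II_i, UU_i, WW_i` for the block `i < I` and the predicate `B t`. Pointwise in `t`: `0 ≤ II_i ≤ UU_i ≤ II_i + WW_i`, so
`∏ UU_i - ∑_i WW_i ∏_{i' ≠ i} UU_{i'} ≤ ∏ II_i ≤ ∏ UU_i` (replace the factors one by one, `II ≤ UU`), and `∏ II_i` is the indicator of no `p` in the union
with `B t p`. Sum over `t ∈ T` and expand: `∑_t ∏ UU_i(t) = ∑_{(S_i)} (-1)^(∑|S_i|) N(⋃ S_i)`, `S_i ⊆ Pb i`, `|S_i| ≤ 2 b_i`, and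
`∑_t WW_i ∏_{i' ≠ i} UU_{i'}` similarly with `|S_i| = 2b_i + 1`; `N(S) = #{t ∈ T : ∀ p ∈ S, B t p} = Y ∏_{p ∈ S} g p + O(R S)`. The blocks are disjoint, so the families `(S_i)`
correspond to subsets `S = ⋃ S_i` of the union, which are in the set `adm` of the statement. So the sums are `Y ∏ eU_i + O(∑_{adm} R)` and
`Y eW_i ∏_{i' ≠ i} eU_{i'} + O(∑_{adm} R)`. With `eI ≤ eU ≤ eI + eW ≤ (1+δ_i) eI_i`, `Δ = ∑ δ_i ≤ 1`:
`∏ eI ≤ ∏ eU ≤ e^Δ ∏ eI ≤ (1 + 2Δ) ∏ eI`, `∑_i eW_i ∏_{i' ≠ i} eU_{i'} ≤ Δ e^Δ ∏ eI ≤ 3 Δ ∏ eI`.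
-/

open Finset EG

namespace H69PG

/-- replacing factors one by one -/
theorem bhc_tel {ι : Type} [DecidableEq ι] (s : Finset ι) (x y w : ι → ℝ) (hx : ∀ i ∈ s, 0 ≤ x i) (hxy : ∀ i ∈ s, x i ≤ y i)
    (hyw : ∀ i ∈ s, y i ≤ x i + w i) :
    ∏ i ∈ s, x i ≤ ∏ i ∈ s, y i ∧
    ∏ i ∈ s, y i - ∑ i ∈ s, w i * ∏ j ∈ s.erase i, y j ≤ ∏ i ∈ s, x i := by
  refine ⟨Finset.prod_le_prod hx hxy, ?_⟩
  induction s using Finset.induction_on with
  | empty => simp
  | insert a s ha ih =>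
    have hx' : ∀ i ∈ s, 0 ≤ x i := fun i hi => hx i (Finset.mem_insert_of_mem hi)
    have hxy' : ∀ i ∈ s, x i ≤ y i := fun i hi => hxy i (Finset.mem_insert_of_mem hi)
    have hyw' : ∀ i ∈ s, y i ≤ x i + w i := fun i hi => hyw i (Finset.mem_insert_of_mem hi)
    have h1 := ih hx' hxy' hyw'
    have hxa := hx a (Finset.mem_insert_self a s)
    have hxya := hxy a (Finset.mem_insert_self a s)
    have hywa := hyw a (Finset.mem_insert_self a s)
    have hle : ∏ i ∈ s, x i ≤ ∏ i ∈ s, y i := Finset.prod_le_prod hx' hxy'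
    have hx0 : 0 ≤ ∏ i ∈ s, x i := Finset.prod_nonneg hx'
    rw [Finset.prod_insert ha, Finset.prod_insert ha, Finset.sum_insert ha, Finset.erase_insert ha]
    have h2 : ∑ i ∈ s, w i * ∏ j ∈ (insert a s).erase i, y j = y a * ∑ i ∈ s, w i * ∏ j ∈ s.erase i, y j := by
      rw [Finset.mul_sum]
      refine Finset.sum_congr rfl fun i hi => ?_
      have hne : a ≠ i := fun h => ha (h ▸ hi)
      rw [Finset.erase_insert_of_ne hne, Finset.prod_insert (fun h => ha (Finset.mem_of_mem_erase h))]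
      ring
    rw [h2]
    have hya : 0 ≤ y a := le_trans hxa hxya
    have h3 : (y a - x a) * ∏ i ∈ s, x i ≤ w a * ∏ i ∈ s, y i := by
      have hw : y a - x a ≤ w a := by linarith
      have h0 : 0 ≤ w a := by linarith
      calc (y a - x a) * ∏ i ∈ s, x i ≤ w a * ∏ i ∈ s, x i := mul_le_mul_of_nonneg_right hw hx0
        _ ≤ w a * ∏ i ∈ s, y i := mul_le_mul_of_nonneg_left hle h0
    have h4 := mul_le_mul_of_nonneg_left h1 hya
    nlinarith

/-- expansion of a product of sums over subsets of disjoint blocks -/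
theorem bhc_exp (Pb : ℕ → Finset ℕ) (φ : ℕ → Finset ℕ → ℝ) (I : ℕ)
    (hdis : ∀ i < I, ∀ i' < I, i ≠ i' → Disjoint (Pb i) (Pb i')) :
    ∏ i ∈ range I, ∑ S ∈ (Pb i).powerset, φ i S =
      ∑ S ∈ ((range I).biUnion Pb).powerset, ∏ i ∈ range I, φ i (S ∩ Pb i) := by
  induction I with
  | zero => simp
  | succ I ih =>
    have hd' : ∀ i < I, ∀ i' < I, i ≠ i' → Disjoint (Pb i) (Pb i') :=
      fun i hi i' hi' h => hdis i (by omega) i' (by omega) h
    rw [Finset.prod_range_succ, ih hd', Finset.sum_mul_sum, ← Finset.sum_product']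
    have hun : (range (I + 1)).biUnion Pb = (range I).biUnion Pb ∪ Pb I := by
      ext p
      simp only [Finset.mem_biUnion, Finset.mem_range, Finset.mem_union]
      constructor
      · rintro ⟨i, hi, hp⟩
        rcases Nat.lt_succ_iff_lt_or_eq.mp hi with h | h
        · exact Or.inl ⟨i, h, hp⟩
        · exact Or.inr (h ▸ hp)
      · rintro (⟨i, hi, hp⟩ | hp)
        · exact ⟨i, by omega, hp⟩
        · exact ⟨I, by omega, hp⟩
    have hdu : Disjoint ((range I).biUnion Pb) (Pb I) := by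
      rw [Finset.disjoint_biUnion_left]
      intro i hi
      have := Finset.mem_range.mp hi
      exact hdis i (by omega) I (by omega) (by omega)
    rw [hun]
    refine Finset.sum_nbij' (fun x => x.1 ∪ x.2) (fun S => (S ∩ (range I).biUnion Pb, S ∩ Pb I)) ?_ ?_ ?_ ?_ ?_
    · intro x hx
      simp only [Finset.mem_product, Finset.mem_powerset] at hx ⊢
      exact Finset.union_subset_union hx.1 hx.2
    · intro S hS
      simp only [Finset.mem_product, Finset.mem_powerset] at hS ⊢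
      exact ⟨Finset.inter_subset_right, Finset.inter_subset_right⟩
    · rintro ⟨A, C⟩ hx
      simp only [Finset.mem_product, Finset.mem_powerset] at hx
      have h1 : (A ∪ C) ∩ (range I).biUnion Pb = A := by
        ext p
        simp only [Finset.mem_inter, Finset.mem_union]
        constructor
        · rintro ⟨h | h, h'⟩
          · exact h
          · exact absurd (hx.2 h) (Finset.disjoint_left.mp hdu h')
        · intro h
          exact ⟨Or.inl h, hx.1 h⟩
      have h2 : (A ∪ C) ∩ Pb I = C := by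
        ext p
        simp only [Finset.mem_inter, Finset.mem_union]
        constructor
        · rintro ⟨h | h, h'⟩
          · exact absurd h' (Finset.disjoint_left.mp hdu (hx.1 h))
          · exact h
        · intro h
          exact ⟨Or.inr h, hx.2 h⟩
      simp only [h1, h2]
    · intro S hS
      simp only [Finset.mem_powerset] at hS
      rw [← Finset.inter_union_distrib_left]
      exact Finset.inter_eq_left.mpr hS
    · rintro ⟨A, C⟩ hx
      simp only [Finset.mem_product, Finset.mem_powerset] at hx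
      rw [Finset.prod_range_succ]
      have h2 : (A ∪ C) ∩ Pb I = C := by
        ext p
        simp only [Finset.mem_inter, Finset.mem_union]
        constructor
        · rintro ⟨h | h, h'⟩
          · exact absurd h' (Finset.disjoint_left.mp hdu (hx.1 h))
          · exact h
        · intro h
          exact ⟨Or.inr h, hx.2 h⟩
      rw [h2]
      congr 1
      refine Finset.prod_congr rfl fun i hi => ?_
      have hi' := Finset.mem_range.mp hi
      congr 1
      ext p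
      simp only [Finset.mem_inter, Finset.mem_union]
      constructor
      · rintro ⟨h, h'⟩
        exact ⟨Or.inl h, h'⟩
      · rintro ⟨h | h, h'⟩
        · exact ⟨h, h'⟩
        · exact absurd (hx.2 h) (Finset.disjoint_left.mp (hdis i (by omega) I (by omega) (by omega)) h')

open Classical in
/-- the main expansion with error -/
theorem bhc_main (I : ℕ) (Pb : ℕ → Finset ℕ) (hdis : ∀ i < I, ∀ i' < I, i ≠ i' → Disjoint (Pb i) (Pb i')) (b : ℕ → ℕ)
    (g : ℕ → ℝ) (a : ℕ → Finset ℕ → ℝ) (ha : ∀ i S, |a i S| ≤ 1) (ha0 : ∀ i S, 2 * b i + 1 < S.card → a i S = 0)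
    (T : Finset ℕ) (B : ℕ → ℕ → Prop) {Y : ℝ} (R : Finset ℕ → ℝ) (hR : ∀ S, 0 ≤ R S)
    (hN : ∀ S : Finset ℕ, S ⊆ (range I).biUnion Pb → (∀ i < I, (S ∩ Pb i).card ≤ 2 * b i + 1) →
      |((T.filter (fun t => ∀ p ∈ S, B t p)).card : ℝ) - Y * ∏ p ∈ S, g p| ≤ R S) :
    |∑ t ∈ T, ∏ i ∈ range I, ∑ S ∈ (Pb i).powerset, a i S * (if ∀ p ∈ S, B t p then 1 else 0) -
        Y * ∏ i ∈ range I, ∑ S ∈ (Pb i).powerset, a i S * ∏ p ∈ S, g p| ≤
      ∑ S ∈ ((range I).biUnion Pb).powerset.filter (fun S => ∀ i < I, (S ∩ Pb i).card ≤ 2 * b i + 1), R S := by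
  have hbU : ∀ S ∈ ((range I).biUnion Pb).powerset, (range I).biUnion (fun i => S ∩ Pb i) = S := by
    intro S hS
    rw [Finset.mem_powerset] at hS
    ext p
    simp only [Finset.mem_biUnion, Finset.mem_inter]
    constructor
    · rintro ⟨i, _, h, _⟩
      exact h
    · intro h
      obtain ⟨i, hi, hp⟩ := Finset.mem_biUnion.mp (hS h)
      exact ⟨i, hi, h, hp⟩
  have e1 : ∑ t ∈ T, ∏ i ∈ range I, ∑ S ∈ (Pb i).powerset, a i S * (if ∀ p ∈ S, B t p then (1 : ℝ) else 0) =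
      ∑ S ∈ ((range I).biUnion Pb).powerset, (∏ i ∈ range I, a i (S ∩ Pb i)) *
        ((T.filter (fun t => ∀ p ∈ S, B t p)).card : ℝ) := by
    have : ∀ t ∈ T, ∏ i ∈ range I, ∑ S ∈ (Pb i).powerset, a i S * (if ∀ p ∈ S, B t p then (1 : ℝ) else 0) =
        ∑ S ∈ ((range I).biUnion Pb).powerset, (∏ i ∈ range I, a i (S ∩ Pb i)) *
          (if ∀ p ∈ S, B t p then (1 : ℝ) else 0) := by
      intro t _
      rw [bhc_exp Pb (fun i S => a i S * (if ∀ p ∈ S, B t p then (1 : ℝ) else 0)) I hdis]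
      refine Finset.sum_congr rfl fun S hS => ?_
      rw [Finset.prod_mul_distrib]
      congr 1
      rw [Finset.prod_ite_zero]
      have hiff : (∀ i ∈ range I, ∀ p ∈ S ∩ Pb i, B t p) ↔ ∀ p ∈ S, B t p := by
        constructor
        · intro h p hp
          have hp' := hp
          rw [← hbU S hS, Finset.mem_biUnion] at hp'
          obtain ⟨i, hi, hpi⟩ := hp'
          exact h i hi p hpi
        · intro h i _ p hp
          exact h p (Finset.mem_inter.mp hp).1
      simp only [hiff, Finset.prod_const_one]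
    rw [Finset.sum_congr rfl this, Finset.sum_comm]
    refine Finset.sum_congr rfl fun S _ => ?_
    rw [← Finset.mul_sum]
    congr 1
    rw [Finset.sum_ite, Finset.sum_const_zero, add_zero, Finset.sum_const, nsmul_eq_mul, mul_one]
  have e2 : Y * ∏ i ∈ range I, ∑ S ∈ (Pb i).powerset, a i S * ∏ p ∈ S, g p =
      ∑ S ∈ ((range I).biUnion Pb).powerset, (∏ i ∈ range I, a i (S ∩ Pb i)) * (Y * ∏ p ∈ S, g p) := by
    rw [bhc_exp Pb (fun i S => a i S * ∏ p ∈ S, g p) I hdis, Finset.mul_sum]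
    refine Finset.sum_congr rfl fun S hS => ?_
    rw [Finset.prod_mul_distrib]
    have : ∏ i ∈ range I, ∏ p ∈ S ∩ Pb i, g p = ∏ p ∈ S, g p := by
      conv_rhs => rw [← hbU S hS]
      rw [Finset.prod_biUnion]
      intro i hi j hj hij
      have hi' := Finset.mem_range.mp (Finset.mem_coe.mp hi)
      have hj' := Finset.mem_range.mp (Finset.mem_coe.mp hj)
      exact (hdis i hi' j hj' hij).mono Finset.inter_subset_right Finset.inter_subset_right
    rw [this]
    ring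
  rw [e1, e2, ← Finset.sum_sub_distrib]
  refine (Finset.abs_sum_le_sum_abs _ _).trans ?_
  rw [Finset.sum_filter]
  refine Finset.sum_le_sum fun S hS => ?_
  rw [← mul_sub, abs_mul]
  split_ifs with h
  · have h1 : |∏ i ∈ range I, a i (S ∩ Pb i)| ≤ 1 := by
      rw [Finset.abs_prod]
      exact Finset.prod_le_one (fun _ _ => abs_nonneg _) fun i _ => ha i _
    have h2 := hN S (Finset.mem_powerset.mp hS) h
    calc |∏ i ∈ range I, a i (S ∩ Pb i)| * |((T.filter (fun t => ∀ p ∈ S, B t p)).card : ℝ) - Y * ∏ p ∈ S, g p|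
        ≤ 1 * R S := mul_le_mul h1 h2 (abs_nonneg _) zero_le_one
      _ = R S := one_mul _
  · push Not at h
    obtain ⟨i, hi, hc⟩ := h
    have : ∏ i ∈ range I, a i (S ∩ Pb i) = 0 :=
      Finset.prod_eq_zero (Finset.mem_range.mpr hi) (ha0 i _ hc)
    rw [this]
    simp

/-- coefficients of `UU` -/
noncomputable def aU (b : ℕ → ℕ) (i : ℕ) (S : Finset ℕ) : ℝ := if S.card ≤ 2 * b i then (-1 : ℝ) ^ S.card else 0

/-- coefficients of `WW` -/
noncomputable def aW (b : ℕ → ℕ) (i : ℕ) (S : Finset ℕ) : ℝ := if S.card = 2 * b i + 1 then 1 else 0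

open Classical in
theorem UU_eq (Pb : ℕ → Finset ℕ) (b : ℕ → ℕ) (B : ℕ → Prop) (i : ℕ) :
    UU (Pb i) (b i) B = ∑ S ∈ (Pb i).powerset, aU b i S * (if ∀ p ∈ S, B p then 1 else 0) := by
  unfold UU aU
  rw [Finset.sum_filter]
  refine Finset.sum_congr rfl fun S _ => ?_
  by_cases h1 : S.card ≤ 2 * b i <;> by_cases h2 : ∀ p ∈ S, B p <;> simp [h1, h2]

open Classical in
theorem WW_eq (Pb : ℕ → Finset ℕ) (b : ℕ → ℕ) (B : ℕ → Prop) (i : ℕ) :
    WW (Pb i) (b i) B = ∑ S ∈ (Pb i).powerset, aW b i S * (if ∀ p ∈ S, B p then 1 else 0) := by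
  unfold WW aW
  rw [Finset.card_filter]
  push_cast
  refine Finset.sum_congr rfl fun S _ => ?_
  by_cases h1 : S.card = 2 * b i + 1 <;> by_cases h2 : ∀ p ∈ S, B p <;> simp [h1, h2]

theorem eU_eq (Pb : ℕ → Finset ℕ) (b : ℕ → ℕ) (g : ℕ → ℝ) (i : ℕ) :
    eU (Pb i) (b i) g = ∑ S ∈ (Pb i).powerset, aU b i S * ∏ p ∈ S, g p := by
  unfold eU aU
  rw [Finset.sum_filter]
  refine Finset.sum_congr rfl fun S _ => ?_
  by_cases h1 : S.card ≤ 2 * b i <;> simp [h1]

theorem eW_eq (Pb : ℕ → Finset ℕ) (b : ℕ → ℕ) (g : ℕ → ℝ) (i : ℕ) :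
    eW (Pb i) (b i) g = ∑ S ∈ (Pb i).powerset, aW b i S * ∏ p ∈ S, g p := by
  unfold eW aW
  rw [Finset.sum_filter]
  refine Finset.sum_congr rfl fun S _ => ?_
  by_cases h1 : S.card = 2 * b i + 1 <;> simp [h1]

open Classical in
theorem bhc (I : ℕ) (Pb : ℕ → Finset ℕ) (hdis : ∀ i < I, ∀ i' < I, i ≠ i' → Disjoint (Pb i) (Pb i')) (b : ℕ → ℕ)
    (g : ℕ → ℝ) (hg : ∀ i < I, ∀ p ∈ Pb i, 0 ≤ g p ∧ g p ≤ 1) (δ : ℕ → ℝ) (hδ0 : ∀ i < I, 0 ≤ δ i)
    (hδ : ∀ i < I, eW (Pb i) (b i) g ≤ δ i * eI (Pb i) g) {Δ : ℝ} (hΔ : ∑ i ∈ range I, δ i ≤ Δ) (hΔ1 : Δ ≤ 1)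
    (T : Finset ℕ) (B : ℕ → ℕ → Prop) {Y : ℝ} (hY : 0 ≤ Y) (R : Finset ℕ → ℝ) (hR : ∀ S, 0 ≤ R S)
    (hN : ∀ S : Finset ℕ, S ⊆ (range I).biUnion Pb → (∀ i < I, (S ∩ Pb i).card ≤ 2 * b i + 1) →
      |((T.filter (fun t => ∀ p ∈ S, B t p)).card : ℝ) - Y * ∏ p ∈ S, g p| ≤ R S) :
    |((T.filter (fun t => ∀ p ∈ (range I).biUnion Pb, ¬ B t p)).card : ℝ) -
        Y * ∏ p ∈ (range I).biUnion Pb, (1 - g p)| ≤
      5 * Δ * (Y * ∏ p ∈ (range I).biUnion Pb, (1 - g p)) +
        ((I : ℝ) + 1) * ∑ S ∈ ((range I).biUnion Pb).powerset.filter (fun S => ∀ i < I, (S ∩ Pb i).card ≤ 2 * b i + 1),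
          R S := by
  set SR := ∑ S ∈ ((range I).biUnion Pb).powerset.filter (fun S => ∀ i < I, (S ∩ Pb i).card ≤ 2 * b i + 1), R S
    with hSR
  have hSR0 : 0 ≤ SR := Finset.sum_nonneg fun S _ => hR S
  have hΔ0 : 0 ≤ Δ := le_trans (Finset.sum_nonneg fun i hi => hδ0 i (Finset.mem_range.mp hi)) hΔ
  -- the indicator
  have hX : ((T.filter (fun t => ∀ p ∈ (range I).biUnion Pb, ¬ B t p)).card : ℝ) =
      ∑ t ∈ T, ∏ i ∈ range I, II (Pb i) (B t) := by
    rw [Finset.card_filter]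
    push_cast
    refine Finset.sum_congr rfl fun t _ => ?_
    unfold II
    rw [Finset.prod_ite_zero, Finset.prod_const_one]
    have hiff : (∀ p ∈ (range I).biUnion Pb, ¬ B t p) ↔ ∀ i ∈ range I, ∀ p ∈ Pb i, ¬ B t p := by
      constructor
      · intro h i hi p hp
        exact h p (Finset.mem_biUnion.mpr ⟨i, hi, hp⟩)
      · intro h p hp
        obtain ⟨i, hi, hp'⟩ := Finset.mem_biUnion.mp hp
        exact h i hi p hp'
    by_cases h : ∀ i ∈ range I, ∀ p ∈ Pb i, ¬ B t p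
    · rw [if_pos h, if_pos (hiff.mpr h)]
    · rw [if_neg h, if_neg (fun h' => h (hiff.mp h'))]
  have hE : ∏ p ∈ (range I).biUnion Pb, (1 - g p) = ∏ i ∈ range I, eI (Pb i) g := by
    unfold eI
    rw [Finset.prod_biUnion]
    intro i hi j hj hij
    exact hdis i (Finset.mem_range.mp (Finset.mem_coe.mp hi)) j (Finset.mem_range.mp (Finset.mem_coe.mp hj)) hij
  rw [hX, hE]
  -- pointwise
  have hII0 : ∀ t i, 0 ≤ II (Pb i) (B t) := by
    intro t i
    unfold II
    split_ifs <;> norm_num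
  have hpt := fun t => bhc_tel (range I) (fun i => II (Pb i) (B t)) (fun i => UU (Pb i) (b i) (B t))
    (fun i => WW (Pb i) (b i) (B t)) (fun i _ => hII0 t i) (fun i _ => bha_lower _ _ _) (fun i _ => bha_upper _ _ _)
  -- the sums
  have haU : ∀ i S, |aU b i S| ≤ 1 := by
    intro i S
    unfold aU
    split_ifs
    · rw [abs_pow]; simp
    · simp
  have haU0 : ∀ i S, 2 * b i + 1 < S.card → aU b i S = 0 := by
    intro i S h
    unfold aU
    rw [if_neg (by omega)]
  have haW : ∀ i S, |aW b i S| ≤ 1 := by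
    intro i S
    unfold aW
    split_ifs <;> simp
  have haW0 : ∀ i S, 2 * b i + 1 < S.card → aW b i S = 0 := by
    intro i S h
    unfold aW
    rw [if_neg (by omega)]
  have hU : |∑ t ∈ T, ∏ i ∈ range I, UU (Pb i) (b i) (B t) - Y * ∏ i ∈ range I, eU (Pb i) (b i) g| ≤ SR := by
    have := bhc_main I Pb hdis b g (aU b) haU haU0 T B (Y := Y) R hR hN
    simp only [UU_eq, eU_eq]
    exact this
  have hW : ∀ i ∈ range I, |∑ t ∈ T, WW (Pb i) (b i) (B t) * ∏ j ∈ (range I).erase i, UU (Pb j) (b j) (B t) -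
      Y * (eW (Pb i) (b i) g * ∏ j ∈ (range I).erase i, eU (Pb j) (b j) g)| ≤ SR := by
    intro i hi
    have := bhc_main I Pb hdis b g (fun j => if j = i then aW b j else aU b j)
      (by intro j S; by_cases h : j = i <;> simp only [h, if_true, if_false]
          · exact haW i S
          · exact haU j S)
      (by intro j S hc; by_cases h : j = i
          · subst h; simp only [if_true]; exact haW0 j S hc
          · simp only [h, if_false]; exact haU0 j S hc) T B (Y := Y) R hR hN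
    have f1 : ∀ t, ∏ j ∈ range I, ∑ S ∈ (Pb j).powerset, (if j = i then aW b j else aU b j) S *
        (if ∀ p ∈ S, B t p then (1 : ℝ) else 0) = WW (Pb i) (b i) (B t) * ∏ j ∈ (range I).erase i, UU (Pb j) (b j) (B t) := by
      intro t
      rw [← Finset.mul_prod_erase (range I) _ hi]
      congr 1
      · rw [WW_eq]; simp
      · refine Finset.prod_congr rfl fun j hj => ?_
        rw [UU_eq]
        simp only [if_neg (Finset.ne_of_mem_erase hj)]
    have f2 : ∏ j ∈ range I, ∑ S ∈ (Pb j).powerset, (if j = i then aW b j else aU b j) S * ∏ p ∈ S, g p =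
        eW (Pb i) (b i) g * ∏ j ∈ (range I).erase i, eU (Pb j) (b j) g := by
      rw [← Finset.mul_prod_erase (range I) _ hi]
      congr 1
      · rw [eW_eq]; simp
      · refine Finset.prod_congr rfl fun j hj => ?_
        rw [eU_eq]
        simp only [if_neg (Finset.ne_of_mem_erase hj)]
    simp only [f1, f2] at this
    exact this
  -- expectations
  have hI0 : ∀ i ∈ range I, 0 ≤ eI (Pb i) g := by
    intro i hi
    unfold eI
    exact Finset.prod_nonneg fun p hp => by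
      have := (hg i (Finset.mem_range.mp hi) p hp).2
      linarith
  have hlow : ∀ i ∈ range I, eI (Pb i) g ≤ eU (Pb i) (b i) g := fun i hi => bhb_lower _ _ _ (hg i (Finset.mem_range.mp hi))
  have hup : ∀ i ∈ range I, eU (Pb i) (b i) g ≤ (1 + δ i) * eI (Pb i) g := fun i hi => by
    have h1 := bhb_upper (Pb i) (b i) g (hg i (Finset.mem_range.mp hi))
    have h2 := hδ i (Finset.mem_range.mp hi)
    linarith
  have hU0 : ∀ i ∈ range I, 0 ≤ eU (Pb i) (b i) g := fun i hi => le_trans (hI0 i hi) (hlow i hi)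
  set E := ∏ i ∈ range I, eI (Pb i) g with hEdef
  have hE0 : 0 ≤ E := Finset.prod_nonneg hI0
  have hEU : E ≤ ∏ i ∈ range I, eU (Pb i) (b i) g := Finset.prod_le_prod hI0 hlow
  have hexp1 : Real.exp Δ ≤ 1 + 2 * Δ := by
    have := Real.abs_exp_sub_one_sub_id_le (x := Δ) (by rw [abs_of_nonneg hΔ0]; exact hΔ1)
    have h2 := (abs_le.mp this).2
    nlinarith
  have hprodδ : ∀ s ⊆ range I, ∏ i ∈ s, (1 + δ i) ≤ Real.exp Δ := by
    intro s hs
    calc ∏ i ∈ s, (1 + δ i) ≤ ∏ i ∈ s, Real.exp (δ i) :=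
          Finset.prod_le_prod (fun i hi => by have := hδ0 i (Finset.mem_range.mp (hs hi)); linarith)
            (fun i _ => by have := Real.add_one_le_exp (δ i); linarith)
      _ = Real.exp (∑ i ∈ s, δ i) := (Real.exp_sum _ _).symm
      _ ≤ Real.exp Δ := Real.exp_le_exp.mpr
          (le_trans (Finset.sum_le_sum_of_subset_of_nonneg hs fun i hi _ => hδ0 i (Finset.mem_range.mp hi)) hΔ)
  have hUE : ∏ i ∈ range I, eU (Pb i) (b i) g ≤ (1 + 2 * Δ) * E := by
    calc ∏ i ∈ range I, eU (Pb i) (b i) g ≤ ∏ i ∈ range I, (1 + δ i) * eI (Pb i) g := Finset.prod_le_prod hU0 hup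
      _ = (∏ i ∈ range I, (1 + δ i)) * E := by rw [Finset.prod_mul_distrib]
      _ ≤ (1 + 2 * Δ) * E := mul_le_mul_of_nonneg_right (le_trans (hprodδ _ (Finset.Subset.refl _)) hexp1) hE0
  have hWE : ∑ i ∈ range I, eW (Pb i) (b i) g * ∏ j ∈ (range I).erase i, eU (Pb j) (b j) g ≤ 3 * Δ * E := by
    have h3 : ∀ i ∈ range I, eW (Pb i) (b i) g * ∏ j ∈ (range I).erase i, eU (Pb j) (b j) g ≤ δ i * (3 * E) := by
      intro i hi
      have hsub : (range I).erase i ⊆ range I := Finset.erase_subset _ _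
      have hP0 : 0 ≤ ∏ j ∈ (range I).erase i, eU (Pb j) (b j) g := Finset.prod_nonneg fun j hj => hU0 j (hsub hj)
      have hQ0 : 0 ≤ ∏ j ∈ (range I).erase i, eI (Pb j) g := Finset.prod_nonneg fun j hj => hI0 j (hsub hj)
      have h4 : ∏ j ∈ (range I).erase i, eU (Pb j) (b j) g ≤ 3 * ∏ j ∈ (range I).erase i, eI (Pb j) g := by
        calc ∏ j ∈ (range I).erase i, eU (Pb j) (b j) g ≤ ∏ j ∈ (range I).erase i, (1 + δ j) * eI (Pb j) g :=
              Finset.prod_le_prod (fun j hj => hU0 j (hsub hj)) (fun j hj => hup j (hsub hj))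
          _ = (∏ j ∈ (range I).erase i, (1 + δ j)) * ∏ j ∈ (range I).erase i, eI (Pb j) g := by
              rw [Finset.prod_mul_distrib]
          _ ≤ 3 * ∏ j ∈ (range I).erase i, eI (Pb j) g :=
              mul_le_mul_of_nonneg_right (by have := hprodδ _ hsub; linarith) hQ0
      have h5 := hδ i (Finset.mem_range.mp hi)
      have h6 : 0 ≤ δ i * eI (Pb i) g := mul_nonneg (hδ0 i (Finset.mem_range.mp hi)) (hI0 i hi)
      have h7 : eI (Pb i) g * ∏ j ∈ (range I).erase i, eI (Pb j) g = E := Finset.mul_prod_erase (range I) (fun i => eI (Pb i) g) hi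
      calc eW (Pb i) (b i) g * ∏ j ∈ (range I).erase i, eU (Pb j) (b j) g
          ≤ (δ i * eI (Pb i) g) * ∏ j ∈ (range I).erase i, eU (Pb j) (b j) g := mul_le_mul_of_nonneg_right h5 hP0
        _ ≤ (δ i * eI (Pb i) g) * (3 * ∏ j ∈ (range I).erase i, eI (Pb j) g) := mul_le_mul_of_nonneg_left h4 h6
        _ = δ i * (3 * E) := by rw [← h7]; ring
    calc ∑ i ∈ range I, eW (Pb i) (b i) g * ∏ j ∈ (range I).erase i, eU (Pb j) (b j) g
        ≤ ∑ i ∈ range I, δ i * (3 * E) := Finset.sum_le_sum h3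
      _ = (∑ i ∈ range I, δ i) * (3 * E) := by rw [Finset.sum_mul]
      _ ≤ Δ * (3 * E) := mul_le_mul_of_nonneg_right hΔ (by positivity)
      _ = 3 * Δ * E := by ring
  -- conclusion
  have hupper : ∑ t ∈ T, ∏ i ∈ range I, II (Pb i) (B t) ≤ ∑ t ∈ T, ∏ i ∈ range I, UU (Pb i) (b i) (B t) :=
    Finset.sum_le_sum fun t _ => (hpt t).1
  have hlower : ∑ t ∈ T, ∏ i ∈ range I, UU (Pb i) (b i) (B t) -
      ∑ i ∈ range I, ∑ t ∈ T, WW (Pb i) (b i) (B t) * ∏ j ∈ (range I).erase i, UU (Pb j) (b j) (B t) ≤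
      ∑ t ∈ T, ∏ i ∈ range I, II (Pb i) (B t) := by
    rw [Finset.sum_comm, ← Finset.sum_sub_distrib]
    exact Finset.sum_le_sum fun t _ => (hpt t).2
  have hW2 : ∑ i ∈ range I, ∑ t ∈ T, WW (Pb i) (b i) (B t) * ∏ j ∈ (range I).erase i, UU (Pb j) (b j) (B t) ≤
      Y * (3 * Δ * E) + I * SR := by
    calc ∑ i ∈ range I, ∑ t ∈ T, WW (Pb i) (b i) (B t) * ∏ j ∈ (range I).erase i, UU (Pb j) (b j) (B t)
        ≤ ∑ i ∈ range I, (Y * (eW (Pb i) (b i) g * ∏ j ∈ (range I).erase i, eU (Pb j) (b j) g) + SR) :=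
          Finset.sum_le_sum fun i hi => by have := (abs_le.mp (hW i hi)).2; linarith
      _ = Y * ∑ i ∈ range I, eW (Pb i) (b i) g * ∏ j ∈ (range I).erase i, eU (Pb j) (b j) g + I * SR := by
          rw [Finset.sum_add_distrib, Finset.mul_sum, Finset.sum_const, Finset.card_range, nsmul_eq_mul]
      _ ≤ Y * (3 * Δ * E) + I * SR := by
          have := mul_le_mul_of_nonneg_left hWE hY
          linarith
  have hU' := abs_le.mp hU
  have hYE : 0 ≤ Y * E := mul_nonneg hY hE0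
  have hI0' : (0 : ℝ) ≤ I := Nat.cast_nonneg I
  have hISR : 0 ≤ (I : ℝ) * SR := mul_nonneg hI0' hSR0
  have hYU1 : Y * ∏ i ∈ range I, eU (Pb i) (b i) g ≤ Y * ((1 + 2 * Δ) * E) := mul_le_mul_of_nonneg_left hUE hY
  have hYU2 : Y * E ≤ Y * ∏ i ∈ range I, eU (Pb i) (b i) g := mul_le_mul_of_nonneg_left hEU hY
  have hDYE : 0 ≤ Δ * (Y * E) := mul_nonneg hΔ0 hYE
  rw [abs_le]
  constructor
  · nlinarith [hU'.1, hU'.2]
  · nlinarith [hU'.1, hU'.2]

end H69PG
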