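import Mathlib

/-!
# MP_028722, positive proportion of long prime-free intervals: the abstract argument, definitions

Overview with the complete proof: /team-store/H69_PG.md

`ι`: the shifts, `m`: the number of scales, a configuration `n : ι → Fin (m+1)` gives each shift `i` a scale `n i` or nothing
(`n i = 0`).
-/

open Finset

namespace H69PG

variable {ι : Type} [Fintype ι] [DecidableEq ι]

/-- the active coordinates of a configuration -/
def sp {m : ℕ} (n : ι → Fin (m + 1)) : Finset ι := univ.filter (fun i => n i ≠ 0)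

open Classical in
/-- admissible configurations: at most `N` active coordinates, total cost at most `l` -/
noncomputable def Cf (ι : Type) [Fintype ι] [DecidableEq ι] (m N : ℕ) (v : ℕ → ℝ) (l : ℝ) :
    Finset (ι → Fin (m + 1)) :=
  univ.filter (fun n => (sp n).card ≤ N ∧ ∑ i, v (n i) ≤ l)

/-- the mass of a configuration -/
noncomputable def ms {m : ℕ} (V : Finset ι → ℝ) (s : ℕ → ℝ) (n : ι → Fin (m + 1)) : ℝ :=
  V (sp n) * ∏ i, s (n i)

/-- the total mass -/
noncomputable def MM (m N : ℕ) (v : ℕ → ℝ) (l : ℝ) (V : Finset ι → ℝ) (s : ℕ → ℝ) : ℝ :=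
  ∑ n ∈ Cf ι m N v l, ms V s n

/-- the amplitude -/
noncomputable def Ps (m N : ℕ) (v : ℕ → ℝ) (l : ℝ) (g : ι → ℕ → ℕ → ℝ) (t : ℕ) : ℝ :=
  ∑ n ∈ Cf ι m N v l, ∏ i, g i (n i) t

open Classical in
/-- the amplitude factor left when one more coordinate is rough -/
noncomputable def om {m : ℕ} (N : ℕ) (v : ℕ → ℝ) (l : ℝ) (q : ℕ → ℝ) (n : ι → Fin (m + 1)) : ℝ :=
  1 - ∑ a ∈ Icc 1 m, if (sp n).card + 1 ≤ N ∧ ∑ i, v (n i) + v a ≤ l then q a else 0

/-- the conditions on the function `V` of finite sets of shifts, for sets with fewer than `M` elements -/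
structure Vh (V : Finset ι → ℝ) (μ : ℝ) (M : ℕ) : Prop where
  nonneg : ∀ U, 0 ≤ V U
  empty : V ∅ = 1
  μ_nonneg : 0 ≤ μ
  step : ∀ A : Finset ι, A.card < M → ∑ k ∈ Aᶜ, V (insert k A) ≤ μ * V A

end H69PG
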