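import Pool.Agent.H69.PG.Sec
import Pool.Agent.H69.PG.Upr
import Pool.Agent.H69.PG.Frt

/-!
# ABS: the abstract theorem

`MM ≥ 1` (the zero configuration is admissible: `0 ≤ l`, `V ∅ = 1`, `s 0 = 1`; all masses are `≥ 0`). By `sec` and `hE1`: `∑ Ps^2 ≥ |T| (MM - 1/8)`; by `upr`, `hB`, `hE2`:
`∑_k ∑_{t : ρ k t} Ps^2 ≤ |T| (MM/8 + 1/8)`. Let `Z = {t ∈ T : no k with ρ k t}`. `∑_{t ∈ Z} Ps^2 ≥ ∑_{t ∈ T} Ps^2 - ∑_k ∑_{t : ρ k t} Ps^2 ≥ |T| (7/8 MM - 1/4) ≥ |T|/2`.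
Cauchy-Schwarz: `(∑_{Z} Ps^2)^2 ≤ |Z| ∑_T Ps^4 ≤ |Z| |T| C4`, so `|T|^2/4 ≤ |Z| |T| C4`.
-/

open Finset

namespace H69PG

variable {ι : Type} [Fintype ι] [DecidableEq ι]

theorem Abs_vh {V : Finset ι → ℝ} {μ : ℝ} {M M' : ℕ} (h : Vh V μ M) (hM : M' ≤ M) : Vh V μ M' where
  nonneg := h.nonneg
  empty := h.empty
  μ_nonneg := h.μ_nonneg
  step := fun A hA => h.step A (lt_of_lt_of_le hA hM)

theorem Abs_MM {m N : ℕ} {v : ℕ → ℝ} {l : ℝ} {V : Finset ι → ℝ} {s : ℕ → ℝ} (hV : ∀ U, 0 ≤ V U) (hV0 : V ∅ = 1)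
    (hs : ∀ a, 0 ≤ s a) (hs0 : s 0 = 1) (hv0 : v 0 = 0) (hl0 : 0 ≤ l) : 1 ≤ MM m N v l V s := by
  have hsp : sp (fun _ : ι => (0 : Fin (m + 1))) = ∅ := by
    unfold sp
    simp
  have hmem : (fun _ : ι => (0 : Fin (m + 1))) ∈ Cf ι m N v l := by
    unfold Cf
    rw [Finset.mem_filter]
    refine ⟨Finset.mem_univ _, ?_, ?_⟩
    · rw [hsp]
      simp
    · simp [hv0, hl0]
  have hms : ms V s (fun _ : ι => (0 : Fin (m + 1))) = 1 := by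
    unfold ms
    rw [hsp, hV0]
    simp [hs0]
  rw [← hms]
  unfold MM
  exact Finset.single_le_sum (f := fun n => ms V s n)
    (fun n _ => mul_nonneg (hV _) (Finset.prod_nonneg fun i _ => hs _)) hmem

open Classical in
theorem Abs_split (T : Finset ℕ) (ρ : ι → ℕ → Prop) (f : ℕ → ℝ) (hf : ∀ t, 0 ≤ f t) :
    ∑ t ∈ T, f t ≤ ∑ t ∈ T.filter (fun t => ∀ k, ¬ ρ k t), f t + ∑ k : ι, ∑ t ∈ T.filter (fun t => ρ k t), f t := by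
  have e1 : ∑ k : ι, ∑ t ∈ T.filter (fun t => ρ k t), f t = ∑ t ∈ T, ∑ k : ι, if ρ k t then f t else 0 := by
    rw [Finset.sum_comm]
    exact Finset.sum_congr rfl fun k _ => Finset.sum_filter _ _
  rw [e1, Finset.sum_filter, ← Finset.sum_add_distrib]
  refine Finset.sum_le_sum fun t _ => ?_
  by_cases h : ∀ k, ¬ ρ k t
  · rw [if_pos h]
    have : 0 ≤ ∑ k : ι, if ρ k t then f t else 0 :=
      Finset.sum_nonneg fun k _ => by split_ifs <;> [exact hf t; exact le_refl 0]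
    linarith
  · rw [if_neg h, zero_add]
    push Not at h
    obtain ⟨k, hk⟩ := h
    have h2 := Finset.single_le_sum (s := (univ : Finset ι)) (f := fun k => if ρ k t then f t else 0)
      (fun k _ => by
        show 0 ≤ if ρ k t then f t else 0
        split_ifs <;> [exact hf t; exact le_refl 0]) (Finset.mem_univ k)
    have h3 : (if ρ k t then f t else 0) = f t := if_pos hk
    calc f t = (if ρ k t then f t else 0) := h3.symm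
      _ ≤ _ := h2

open Classical in
theorem abs_main {m N : ℕ} (hN : 1 ≤ N) {v : ℕ → ℝ} {l vm : ℝ} {V : Finset ι → ℝ} {μ : ℝ} (h : Vh V μ (4 * N)) {s q : ℕ → ℝ}
    (hs : ∀ a, 0 ≤ s a) (hs0 : s 0 = 1) (hv : ∀ a, 0 ≤ v a) (hv0 : v 0 = 0) (hvm : ∀ a ∈ Icc 1 m, v a ≤ vm) (hl : vm < l)
    (hl0 : 0 ≤ l) (hq : ∀ a, 0 ≤ q a) (hq1 : ∑ a ∈ Icc 1 m, q a = 1)
    {T : Finset ℕ} {g : ι → ℕ → ℕ → ℝ} {β th : ι → ℕ → ℝ} {ρ : ι → ℕ → Prop} {η G C0 : ℝ} (hη : 0 ≤ η) (hG : 0 ≤ G)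
    (hC0 : 1 ≤ C0) (hg0 : ∀ i t, g i 0 t = 1) (hβ : ∀ i t, 0 ≤ β i t) (hth : ∀ i t, th i t = 0 ∨ th i t = 1)
    (hg : ∀ i, ∀ t ∈ T, ∀ a ∈ Icc 1 m, |g i a t| ≤ C0 * th i t)
    (hρ : ∀ i, ∀ t ∈ T, ρ i t → 1 ≤ β i t ∧ ∀ a ∈ Icc 1 m, g i a t = - q a)
    (h1 : ∀ n ∈ Cf ι m N v l, ∀ n' ∈ Cf ι m N v l,
      |∑ t ∈ T, ∏ i, (g i (n i) t * g i (n' i) t) - (T.card : ℝ) * (if n = n' then ms V s n else 0)| ≤
        (T.card : ℝ) * (η * V (sp n ∪ sp n')))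
    (h2 : ∀ k : ι, ∀ n ∈ Cf ι m N v l, ∀ n' ∈ Cf ι m N v l, n k = 0 → n' k = 0 →
      |∑ t ∈ T, (∏ i, (g i (n i) t * g i (n' i) t)) * β k t -
          (T.card : ℝ) * (if n = n' then G * (V (insert k (sp n)) * ∏ i, s (n i)) else 0)| ≤
        (T.card : ℝ) * (η * V (insert k (sp n ∪ sp n'))))
    (h4 : ∀ U : Finset ι, U.card ≤ 4 * N → ∑ t ∈ T, ∏ i ∈ U, th i t ≤ 2 * (T.card : ℝ) * V U)
    (hE1 : η * (1 + ((m : ℝ) + 1) ^ 2 * μ) ^ (2 * N) ≤ 1 / 8)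
    (hE2 : η * ((2 * (N : ℝ) + 1) * (1 + ((m : ℝ) + 1) ^ 2 * μ) ^ (2 * N + 1)) ≤ 1 / 8)
    (hB : G * (μ * (μ * (∑ a ∈ Icc 1 m, s a) / N + μ * (∑ a ∈ Icc 1 m, s a * v a) / (l - vm))) ≤ 1 / 8) :
    (T.card : ℝ) ≤ 4 * ((1 + m * C0) ^ (4 * N) * ((4 * N).factorial : ℝ) * 2 ^ (4 * N + 1) * (1 + μ) ^ (4 * N)) *
      ((T.filter (fun t => ∀ k, ¬ ρ k t)).card : ℝ) := by
  have hμ : 0 ≤ μ := h.μ_nonneg
  have hT0 : (0 : ℝ) ≤ (T.card : ℝ) := Nat.cast_nonneg _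
  have hZ0 : (0 : ℝ) ≤ ((T.filter (fun t => ∀ k, ¬ ρ k t)).card : ℝ) := Nat.cast_nonneg _
  have hMM : 1 ≤ MM m N v l V s := Abs_MM h.nonneg h.empty hs hs0 hv0 hl0
  have hsec := sec (v := v) (l := l) (Abs_vh h (by omega : 2 * N ≤ 4 * N)) hη h1
  have hupr := upr hN (Abs_vh h (by omega : 2 * N + 1 ≤ 4 * N)) hs hs0 hv hv0 hvm hl hq hq1 hη hG hg0 hβ hρ h2
  have hfrt := frt (v := v) (l := l) h hC0 hg0 hth hg h4
  obtain ⟨M, hM⟩ : ∃ M : ℝ, M = MM m N v l V s := ⟨_, rfl⟩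
  rw [← hM] at hMM hsec hupr
  obtain ⟨C4, hC4⟩ : ∃ C4 : ℝ, C4 = (1 + m * C0) ^ (4 * N) * ((4 * N).factorial : ℝ) * 2 ^ (4 * N + 1) *
    (1 + μ) ^ (4 * N) := ⟨_, rfl⟩
  rw [← hC4] at hfrt ⊢
  have hC40 : 0 ≤ C4 := by
    rw [hC4]
    have : 0 ≤ C0 := by linarith
    positivity
  have ha : (T.card : ℝ) * (M - 1 / 8) ≤ ∑ t ∈ T, Ps m N v l g t ^ 2 :=
    (mul_le_mul_of_nonneg_left (by linarith) hT0).trans hsec
  have hb : ∑ k : ι, ∑ t ∈ T.filter (fun t => ρ k t), Ps m N v l g t ^ 2 ≤ (T.card : ℝ) * (M / 8 + 1 / 8) := by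
    refine hupr.trans (mul_le_mul_of_nonneg_left ?_ hT0)
    have h5 := mul_le_mul_of_nonneg_right hB (by linarith : 0 ≤ M)
    have h6 : G * (μ * (μ * (∑ a ∈ Icc 1 m, s a) / N + μ * (∑ a ∈ Icc 1 m, s a * v a) / (l - vm)) * M) =
      G * (μ * (μ * (∑ a ∈ Icc 1 m, s a) / N + μ * (∑ a ∈ Icc 1 m, s a * v a) / (l - vm))) * M := by ring
    rw [h6]
    linarith
  have hsp := Abs_split T ρ (fun t => Ps m N v l g t ^ 2) (fun t => sq_nonneg _)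
  have hc : (T.card : ℝ) / 2 ≤ ∑ t ∈ T.filter (fun t => ∀ k, ¬ ρ k t), Ps m N v l g t ^ 2 := by
    have h7 : (T.card : ℝ) * (M - 1 / 8) - (T.card : ℝ) * (M / 8 + 1 / 8) ≤
        ∑ t ∈ T.filter (fun t => ∀ k, ¬ ρ k t), Ps m N v l g t ^ 2 := by linarith
    refine le_trans ?_ h7
    have h8 : (T.card : ℝ) * (1 / 2) ≤ (T.card : ℝ) * (M - 1 / 8 - (M / 8 + 1 / 8)) :=
      mul_le_mul_of_nonneg_left (by linarith) hT0
    linarith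
  have hd : (∑ t ∈ T.filter (fun t => ∀ k, ¬ ρ k t), Ps m N v l g t ^ 2) ^ 2 ≤
      ((T.filter (fun t => ∀ k, ¬ ρ k t)).card : ℝ) * ((T.card : ℝ) * C4) := by
    refine (sq_sum_le_card_mul_sum_sq (s := T.filter (fun t => ∀ k, ¬ ρ k t))
      (f := fun t => Ps m N v l g t ^ 2)).trans (mul_le_mul_of_nonneg_left ?_ hZ0)
    refine le_trans ?_ hfrt
    calc ∑ t ∈ T.filter (fun t => ∀ k, ¬ ρ k t), (Ps m N v l g t ^ 2) ^ 2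
        ≤ ∑ t ∈ T, (Ps m N v l g t ^ 2) ^ 2 :=
          Finset.sum_le_sum_of_subset_of_nonneg (Finset.filter_subset _ _) (fun t _ _ => sq_nonneg _)
      _ = ∑ t ∈ T, Ps m N v l g t ^ 4 := Finset.sum_congr rfl fun t _ => by ring
  have he : ((T.card : ℝ) / 2) ^ 2 ≤ ((T.filter (fun t => ∀ k, ¬ ρ k t)).card : ℝ) * ((T.card : ℝ) * C4) :=
    (pow_le_pow_left₀ (by positivity) hc 2).trans hd
  rcases hT0.eq_or_lt with h0 | h0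
  · rw [← h0]
    positivity
  · refine le_of_mul_le_mul_left ?_ h0
    linarith

end H69PG
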