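import Pool.Agent.H6.EG.Defs2
import Pool.Agent.H67.GT.Defs
import Pool.Agent.H69.PG.Ab0

/-!
# MP_028722, positive proportion of long prime-free intervals: arithmetic definitions
-/

open Finset EG

namespace H69PG

/-- the primes in `(K, z]` -/
def PK (K z : ℕ) : Finset ℕ := (Ioc K z).filter Nat.Prime

/-- `∏_{K < p ≤ z} (1 - j/p)` -/
noncomputable def VV (K z j : ℕ) : ℝ := ∏ p ∈ PK K z, (1 - (j : ℝ) / p)

open Classical in
/-- `1` if `L` has no prime factor in `(K, z]`, else `0` -/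
noncomputable def th0 (K z L : ℕ) : ℝ := if ∀ p ∈ PK K z, ¬ p ∣ L then 1 else 0

/-- the linear forms `Q0 t + c i` -/
structure Fm {ι : Type} (K Q0 : ℕ) (c : ι → ℕ) : Prop where
  pos : 1 ≤ Q0
  pr : ∀ p : ℕ, p.Prime → p ∣ Q0 → p ≤ K
  inj : Function.Injective c
  df : ∀ i j, |(c i : ℤ) - c j| ≤ K
  cpos : ∀ i, 1 ≤ c i

open Classical in
/-- truncated inclusion-exclusion over the subsets of `P` with at most `2b` elements -/
noncomputable def UU (P : Finset ℕ) (b : ℕ) (B : ℕ → Prop) : ℝ :=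
  ∑ S ∈ P.powerset.filter (fun S => S.card ≤ 2 * b ∧ ∀ p ∈ S, B p), (-1 : ℝ) ^ S.card

open Classical in
/-- the number of subsets with `2b+1` elements in `B` -/
noncomputable def WW (P : Finset ℕ) (b : ℕ) (B : ℕ → Prop) : ℝ :=
  ((P.powerset.filter (fun S => S.card = 2 * b + 1 ∧ ∀ p ∈ S, B p)).card : ℝ)

open Classical in
/-- the indicator of `B` being empty in `P` -/
noncomputable def II (P : Finset ℕ) (B : ℕ → Prop) : ℝ := if ∀ p ∈ P, ¬ B p then 1 else 0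

/-- expectation of `WW` -/
noncomputable def eW (P : Finset ℕ) (b : ℕ) (g : ℕ → ℝ) : ℝ :=
  ∑ S ∈ P.powerset.filter (fun S => S.card = 2 * b + 1), ∏ p ∈ S, g p

/-- expectation of `UU` -/
noncomputable def eU (P : Finset ℕ) (b : ℕ) (g : ℕ → ℝ) : ℝ :=
  ∑ S ∈ P.powerset.filter (fun S => S.card ≤ 2 * b), (-1 : ℝ) ^ S.card * ∏ p ∈ S, g p

/-- expectation of `II` -/
noncomputable def eI (P : Finset ℕ) (g : ℕ → ℝ) : ℝ := ∏ p ∈ P, (1 - g p)

/-- diagonal variables of the block `(Z (a-1), Z a]`; the block `0` is `{1}` -/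
noncomputable def yb (Z : ℕ → ℕ) (a r : ℕ) : ℝ := if a = 0 ∨ Z (a - 1) < r then 1 else 0

/-- Selberg coefficients of the block `a` -/
noncomputable def lamA (Z : ℕ → ℕ) (Q a d : ℕ) : ℝ := lam Q (Z a) (yb Z a) d

/-- the norm of the block `a` -/
noncomputable def wA (Z : ℕ → ℕ) (Q a : ℕ) : ℝ := if a = 0 then 1 else GG Q (Z a) - GG Q (Z (a - 1))

/-- support of the product of the blocks `a` and `a'` -/
def DAB (Z : ℕ → ℕ) (Q a a' : ℕ) : Finset ℕ := lcD (sq Q (Z a)) (sq Q (Z a'))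

/-- coefficients of the product of the blocks `a` and `a'` -/
noncomputable def fAB (Z : ℕ → ℕ) (Q a a' : ℕ) : ℕ → ℝ :=
  lcf (sq Q (Z a)) (sq Q (Z a')) (lamA Z Q a) (lamA Z Q a')

/-- the function `V` of the abstract argument -/
noncomputable def Vf {ι : Type} (N K z : ℕ) (U : Finset ι) : ℝ := if U.card ≤ 4 * N + 2 then VV K z U.card else 0

/-- the amplitudes -/
noncomputable def gA {ι : Type} (K z Q0 : ℕ) (Z : ℕ → ℕ) (f0 : ℕ → ℝ) (c : ι → ℕ) (i : ι) (a t : ℕ) : ℝ :=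
  if a = 0 then 1 else
    - f0 a * (th0 K z (Q0 * t + c i) * Fn (sq (primorial z) (Z a)) (lamA Z (primorial z) a) (Q0 * t + c i))

/-- the majorant of the rough numbers -/
noncomputable def bA {ι : Type} (K z Q0 R : ℕ) (c : ι → ℕ) (i : ι) (t : ℕ) : ℝ :=
  th0 K z (Q0 * t + c i) * be (primorial z) R (Q0 * t + c i)

/-- `s_a = f0(a)² w_a`, `s_0 = 1` -/
noncomputable def sA (Z : ℕ → ℕ) (Q : ℕ) (f0 : ℕ → ℝ) (a : ℕ) : ℝ := if a = 0 then 1 else f0 a ^ 2 * wA Z Q a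

end H69PG
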