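import Pool.Agent.H69.PG.BhC
import Pool.Agent.H67.GT.MERT

/-!
# BH: the fundamental lemma

Use `bhc` with `I = z` blocks `Pb i` = primes `p ∈ (K, z]` with `z^(2^(-i-1)) < p ≤ z^(2^(-i))` (real powers; they are disjoint and their union for `i < z` is `PK K z`, because
`z^(2^(-z)) ≤ 2 ≤ K`), `g p = j/p ≤ 1/2`, `b i = b0 + i`, `R S = r j^|S|` if `∏ S ≤ z^(4 b0 + 10)`.
* `S` in the set `adm`: `∏ S ≤ ∏_i z^(2^(-i) (2 b0 + 2 i + 1)) ≤ z^(2 (2 b0 + 1) + 4) ≤ z^(4 b0 + 10) =: D0` (`∑ 2^(-i) = 2`, `∑ 2 i 2^(-i) = 4`). So `hN` follows from the hypothesis, and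
  `∑_{adm} R S ≤ r ∑_{S : ∏ S ≤ D0} j^|S| ≤ r D0²` (`S ↦ ∏ S` is injective, `j^|S| ≤ ∏ S` since `j ≤ K < p`); `(z + 1) D0² ≤ D0³`.
* `∑_{p ∈ Pb i} 1/p ≤ c6` (absolute): with `y = z^(2^(-i))`, the first bound in `Mert` (`Pool/Agent/H67/GT/MERT.lean`: `mert`) gives
  `∑_{√y < p ≤ y} (log p)/p ≤ (1/2) log y + c`, so `∑ 1/p ≤ 1 + 2c/log y`, and `y ≥ 3` if the block is not empty.
* so with `σ = j c6`: `eI ≥ e^(-2σ)` (`ehb_I`), `eW ≤ σ^n/n!` (`ehb_W`), `n = 2 b0 + 2 i + 1`; `n! ≥ (n/e)^n`, so `eW ≤ (e σ/n)^n ≤ e^(-2n)` if `n ≥ e^3 σ`; `δ i = e^(2σ - 2n)`,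
  `∑ δ i ≤ 2 e^(2σ - 4 b0 - 2)`, and `5 Δ ≤ e^(-b0)` if `3 b0 ≥ 2σ + 3`.
(`j = 0` is included: `σ = 0`.)
-/

open Finset EG

namespace H69PG

/-- the index of the block of the prime `p` -/
def bh_ix (z p : ℕ) : ℕ := Nat.log 2 (Nat.log p z)

/-- the blocks -/
def bh_Bk (K z i : ℕ) : Finset ℕ := (PK K z).filter (fun p => bh_ix z p = i)

lemma bh_mem_PK {K z p : ℕ} : p ∈ PK K z ↔ K < p ∧ p ≤ z ∧ p.Prime := by
  simp [PK, and_assoc]

lemma bh_logpos {K z p : ℕ} (hp : p ∈ PK K z) : Nat.log p z ≠ 0 := by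
  obtain ⟨_, h2, h3⟩ := bh_mem_PK.1 hp
  exact (Nat.log_pos h3.one_lt h2).ne'

lemma bh_ix_lt {K z p : ℕ} (hp : p ∈ PK K z) : bh_ix z p < z := by
  obtain ⟨_, h2, h3⟩ := bh_mem_PK.1 hp
  have hz : z ≠ 0 := by
    have := h3.pos
    omega
  exact lt_of_le_of_lt (Nat.log_le_self _ _) (Nat.log_lt_self _ hz)

lemma bh_ix_log {K z p : ℕ} (hp : p ∈ PK K z) :
    Real.log p ≤ Real.log z / 2 ^ (bh_ix z p) ∧ Real.log z / 2 ^ (bh_ix z p + 1) < Real.log p := by
  obtain ⟨_, h2, h3⟩ := bh_mem_PK.1 hp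
  have hp0 : 0 < p := h3.pos
  have hz : z ≠ 0 := by omega
  have hk := bh_logpos hp
  have e1 : p ^ (2 ^ (bh_ix z p)) ≤ z :=
    (Nat.pow_le_pow_right hp0 (Nat.pow_log_le_self 2 hk)).trans (Nat.pow_log_le_self p hz)
  have e2 : z < p ^ (2 ^ (bh_ix z p + 1)) := by
    refine (Nat.lt_pow_succ_log_self h3.one_lt z).trans_le (Nat.pow_le_pow_right hp0 ?_)
    exact Nat.lt_pow_succ_log_self (b := 2) (by norm_num) (Nat.log p z)
  have hpr : (0 : ℝ) < p := by exact_mod_cast hp0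
  have hzr : (0 : ℝ) < z := by
    have : 0 < z := by omega
    exact_mod_cast this
  constructor
  · rw [le_div_iff₀ (by positivity)]
    have h : ((p : ℝ) ^ (2 ^ (bh_ix z p))) ≤ z := by exact_mod_cast e1
    have h' := Real.log_le_log (by positivity) h
    rw [Real.log_pow] at h'
    push_cast at h'
    linarith
  · rw [div_lt_iff₀ (by positivity)]
    have h : (z : ℝ) < (p : ℝ) ^ (2 ^ (bh_ix z p + 1)) := by exact_mod_cast e2
    have h' := Real.log_lt_log hzr h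
    rw [Real.log_pow] at h'
    push_cast at h'
    linarith

lemma bh_recip : ∃ c6 : ℝ, 0 ≤ c6 ∧ ∀ K z i : ℕ, 2 ≤ K → ∑ p ∈ bh_Bk K z i, (1 : ℝ) / p ≤ c6 := by
  obtain ⟨c, hc1, hc, -⟩ := Pool.Agent.H67.GT.MERT.mert
  refine ⟨1 + 2 * c, by linarith, fun K z i hK => ?_⟩
  rcases (bh_Bk K z i).eq_empty_or_nonempty with he | ⟨q, hq⟩
  · rw [he, sum_empty]
    linarith
  set lam : ℝ := Real.log z / 2 ^ (i + 1) with hlam
  have hlam2 : Real.log z / 2 ^ i = 2 * lam := by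
    rw [hlam, pow_succ]
    field_simp
  have hB : ∀ p ∈ bh_Bk K z i, p.Prime ∧ 3 ≤ p ∧ Real.log p ≤ 2 * lam ∧ lam < Real.log p := by
    intro p hp
    rw [bh_Bk, mem_filter] at hp
    obtain ⟨h1, h2⟩ := hp
    have h3 := bh_ix_log h1
    rw [h2, hlam2] at h3
    obtain ⟨h4, _, h5⟩ := bh_mem_PK.1 h1
    exact ⟨h5, by omega, h3.1, h3.2⟩
  have hlam0 : 1 / 2 ≤ lam := by
    obtain ⟨_, h1, h2, _⟩ := hB q hq
    have h3 : (3 : ℝ) ≤ q := by exact_mod_cast h1
    have h4 : Real.exp 1 ≤ q := by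
      have := Real.exp_one_lt_d9
      linarith
    have h5 : 1 ≤ Real.log q := by
      rw [Real.le_log_iff_exp_le (by linarith)]
      exact h4
    linarith
  have h1 := hc (Real.exp lam) (Real.exp (2 * lam)) (Real.one_le_exp (by linarith))
    (Real.exp_le_exp.2 (by linarith))
  rw [← Real.exp_sub, Real.log_exp] at h1
  have h2 : ∑ p ∈ bh_Bk K z i, Real.log p / p ≤
      ∑ p ∈ (Finset.Icc 1 ⌊Real.exp (2 * lam)⌋₊).filter
        (fun p : ℕ => p.Prime ∧ Real.exp lam < p), Real.log p / p := by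
    apply sum_le_sum_of_subset_of_nonneg
    · intro p hp
      obtain ⟨g1, g2, g3, g4⟩ := hB p hp
      have hp0 : (0 : ℝ) < p := by
        have := g1.pos
        exact_mod_cast this
      rw [mem_filter, mem_Icc]
      refine ⟨⟨by omega, Nat.le_floor ?_⟩, g1, ?_⟩
      · rw [← Real.exp_log hp0]
        exact Real.exp_le_exp.2 g3
      · rw [← Real.exp_log hp0]
        exact Real.exp_lt_exp.2 g4
    · intro p hp _
      rw [mem_filter, mem_Icc] at hp
      have : (1 : ℝ) ≤ p := by exact_mod_cast hp.1.1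
      have := Real.log_nonneg this
      positivity
  have h3 : lam * ∑ p ∈ bh_Bk K z i, (1 : ℝ) / p ≤ ∑ p ∈ bh_Bk K z i, Real.log p / p := by
    rw [mul_sum]
    refine sum_le_sum fun p hp => ?_
    obtain ⟨g1, g2, g3, g4⟩ := hB p hp
    have hp0 : (0 : ℝ) < p := by
      have := g1.pos
      exact_mod_cast this
    rw [mul_one_div]
    gcongr
  have h4 : lam * ∑ p ∈ bh_Bk K z i, (1 : ℝ) / p ≤ lam * (1 + 2 * c) := by
    have h5 : c ≤ lam * (2 * c) := by nlinarith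
    linarith
  exact le_of_mul_le_mul_left h4 (by linarith)

lemma bh_geo (a : ℝ) (I : ℕ) :
    ∑ i ∈ range I, (a + 2 * i) / 2 ^ i = 2 * a + 4 - (2 * a + 4 + 4 * I) / 2 ^ I := by
  induction I with
  | zero => simp
  | succ I ih =>
    rw [sum_range_succ, ih]
    push_cast
    rw [pow_succ]
    field_simp
    ring

lemma bh_prod_le {K z b0 : ℕ} (hz : 1 ≤ z) {S : Finset ℕ} (hS : S ⊆ PK K z)
    (hc : ∀ i < z, (S ∩ bh_Bk K z i).card ≤ 2 * (b0 + i) + 1) :
    ∏ p ∈ S, p ≤ z ^ (4 * b0 + 10) := by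
  have hL : 0 ≤ Real.log z := Real.log_nonneg (by exact_mod_cast hz)
  have hpos : ∀ p ∈ S, (0 : ℝ) < p := fun p hp => by
    have := (bh_mem_PK.1 (hS hp)).2.2.pos
    exact_mod_cast this
  have h1 : Real.log (∏ p ∈ S, (p : ℝ)) = ∑ p ∈ S, Real.log p :=
    Real.log_prod (fun p hp => (hpos p hp).ne')
  have h2 : ∑ p ∈ S, Real.log p = ∑ i ∈ range z, ∑ p ∈ S.filter (fun p => bh_ix z p = i), Real.log p :=
    (sum_fiberwise_of_maps_to (fun p hp => mem_range.2 (bh_ix_lt (hS hp))) _).symm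
  have h3 : ∀ i ∈ range z, ∑ p ∈ S.filter (fun p => bh_ix z p = i), Real.log p ≤
      ((2 * b0 + 1 : ℝ) + 2 * i) / 2 ^ i * Real.log z := by
    intro i hi
    have h4 : ∀ p ∈ S.filter (fun p => bh_ix z p = i), Real.log p ≤ Real.log z / 2 ^ i := by
      intro p hp
      rw [mem_filter] at hp
      have := (bh_ix_log (hS hp.1)).1
      rwa [hp.2] at this
    have h5 : (S.filter (fun p => bh_ix z p = i)).card ≤ 2 * (b0 + i) + 1 := by
      refine (card_le_card ?_).trans (hc i (mem_range.1 hi))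
      intro p hp
      rw [mem_filter] at hp
      rw [mem_inter, bh_Bk, mem_filter]
      exact ⟨hp.1, hS hp.1, hp.2⟩
    have h5' : ((S.filter (fun p => bh_ix z p = i)).card : ℝ) ≤ (2 * b0 + 1 : ℝ) + 2 * i := by
      have : ((S.filter (fun p => bh_ix z p = i)).card : ℝ) ≤ ((2 * (b0 + i) + 1 : ℕ) : ℝ) := by
        exact_mod_cast h5
      push_cast at this
      linarith
    calc ∑ p ∈ S.filter (fun p => bh_ix z p = i), Real.log p
        ≤ ∑ _p ∈ S.filter (fun p => bh_ix z p = i), Real.log z / 2 ^ i := sum_le_sum h4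
      _ = ((S.filter (fun p => bh_ix z p = i)).card : ℝ) * (Real.log z / 2 ^ i) := by
          rw [sum_const, nsmul_eq_mul]
      _ ≤ ((2 * b0 + 1 : ℝ) + 2 * i) * (Real.log z / 2 ^ i) := by gcongr
      _ = _ := by ring
  have h6 : ∑ p ∈ S, Real.log p ≤ (4 * b0 + 10 : ℝ) * Real.log z := by
    rw [h2]
    refine (sum_le_sum h3).trans ?_
    rw [← sum_mul, bh_geo]
    refine mul_le_mul_of_nonneg_right ?_ hL
    have : (0 : ℝ) ≤ (2 * (2 * (b0 : ℝ) + 1) + 4 + 4 * z) / 2 ^ z := by positivity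
    linarith
  have h7 : (∏ p ∈ S, (p : ℝ)) ≤ (z : ℝ) ^ (4 * b0 + 10) := by
    have hz0 : (0 : ℝ) < z := by exact_mod_cast hz
    have h8 : 0 < ∏ p ∈ S, (p : ℝ) := prod_pos hpos
    rw [← Real.log_le_log_iff h8 (by positivity), h1, Real.log_pow]
    push_cast
    exact h6
  have h9 : ((∏ p ∈ S, p : ℕ) : ℝ) ≤ ((z ^ (4 * b0 + 10) : ℕ) : ℝ) := by
    rw [Nat.cast_prod, Nat.cast_pow]
    exact h7
  exact Nat.cast_le.1 h9

lemma bh_count {K z D j : ℕ} (hj : j ≤ K) {r : ℝ} (hr : 0 ≤ r) :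
    ∑ S ∈ (PK K z).powerset.filter (fun S => ∏ p ∈ S, p ≤ D), r * (j : ℝ) ^ S.card ≤
      r * ((D : ℝ) * D) := by
  have h1 : ∀ S ∈ (PK K z).powerset.filter (fun S => ∏ p ∈ S, p ≤ D),
      r * (j : ℝ) ^ S.card ≤ r * D := by
    intro S hS
    rw [mem_filter, mem_powerset] at hS
    refine mul_le_mul_of_nonneg_left ?_ hr
    have h2 : j ^ S.card ≤ ∏ p ∈ S, p := by
      rw [← prod_const]
      refine prod_le_prod (fun _ _ => Nat.zero_le _) fun p hp => ?_
      have := (bh_mem_PK.1 (hS.1 hp)).1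
      omega
    exact_mod_cast h2.trans hS.2
  have h3 : ((PK K z).powerset.filter (fun S => ∏ p ∈ S, p ≤ D)).card ≤ D := by
    have h4 : ((PK K z).powerset.filter (fun S => ∏ p ∈ S, p ≤ D)).card ≤ (Icc 1 D).card := by
      apply card_le_card_of_injOn (fun S => ∏ p ∈ S, p)
      · intro S hS
        have hS := mem_coe.1 hS
        rw [mem_filter, mem_powerset] at hS
        rw [mem_coe, mem_Icc]
        refine ⟨?_, hS.2⟩
        exact Nat.one_le_iff_ne_zero.2 (prod_ne_zero_iff.2 fun p hp =>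
          (bh_mem_PK.1 (hS.1 hp)).2.2.ne_zero)
      · intro S hS S' hS' he
        have hS := mem_coe.1 hS
        have hS' := mem_coe.1 hS'
        rw [mem_filter, mem_powerset] at hS hS'
        have e1 := Nat.primeFactors_prod (s := S) fun p hp => (bh_mem_PK.1 (hS.1 hp)).2.2
        have e2 := Nat.primeFactors_prod (s := S') fun p hp => (bh_mem_PK.1 (hS'.1 hp)).2.2
        simp only at he
        rw [← e1, ← e2, he]
    rwa [Nat.card_Icc, Nat.add_sub_cancel] at h4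
  have h3' : (((PK K z).powerset.filter (fun S => ∏ p ∈ S, p ≤ D)).card : ℝ) ≤ D := by
    exact_mod_cast h3
  calc ∑ S ∈ (PK K z).powerset.filter (fun S => ∏ p ∈ S, p ≤ D), r * (j : ℝ) ^ S.card
      ≤ ∑ _S ∈ (PK K z).powerset.filter (fun S => ∏ p ∈ S, p ≤ D), r * (D : ℝ) := sum_le_sum h1
    _ = (((PK K z).powerset.filter (fun S => ∏ p ∈ S, p ≤ D)).card : ℝ) * (r * D) := by
        rw [sum_const, nsmul_eq_mul]
    _ ≤ D * (r * D) := by gcongr
    _ = _ := by ring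

lemma bh_fact {σ : ℝ} (hσ : 0 ≤ σ) {n : ℕ} (hn : 21 * σ ≤ n) :
    σ ^ n / (n.factorial : ℝ) ≤ Real.exp (-(2 * n)) := by
  rcases Nat.eq_zero_or_pos n with rfl | hn0
  · simp
  have hn' : (0 : ℝ) < n := by exact_mod_cast hn0
  have h1 := Real.pow_div_factorial_le_exp (n : ℝ) hn'.le n
  have he : Real.exp 3 ≤ 21 := by
    have h2 : Real.exp 3 = Real.exp 1 ^ 3 := by
      rw [← Real.exp_nat_mul]
      norm_num
    rw [h2]
    have h3 := Real.exp_one_lt_d9
    have h4 := Real.exp_pos 1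
    calc Real.exp 1 ^ 3 ≤ (2.7182818286 : ℝ) ^ 3 := pow_le_pow_left₀ h4.le h3.le 3
      _ ≤ 21 := by norm_num
  have h5 : σ / n ≤ Real.exp (-3) := by
    rw [Real.exp_neg, div_le_iff₀ hn', inv_mul_eq_div, le_div_iff₀ (Real.exp_pos 3)]
    nlinarith
  calc σ ^ n / (n.factorial : ℝ) = (σ / n) ^ n * ((n : ℝ) ^ n / (n.factorial : ℝ)) := by
        rw [div_pow]
        field_simp
    _ ≤ Real.exp (-3) ^ n * Real.exp n := by
        gcongr
    _ = Real.exp (-(2 * n)) := by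
        rw [← Real.exp_nat_mul, ← Real.exp_add]
        congr 1
        ring

lemma bh_expsum (I : ℕ) : ∑ i ∈ range I, Real.exp (-(4 * (i : ℝ))) ≤ 2 := by
  have h1 : ∀ i : ℕ, Real.exp (-(4 * (i : ℝ))) ≤ (1 / 2 : ℝ) ^ i := by
    intro i
    have h2 : Real.exp (-(4 * (i : ℝ))) = Real.exp (-4) ^ i := by
      rw [← Real.exp_nat_mul]
      congr 1
      ring
    rw [h2]
    apply pow_le_pow_left₀ (Real.exp_pos _).le
    rw [Real.exp_neg, inv_eq_one_div]
    apply one_div_le_one_div_of_le (by norm_num)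
    have := Real.add_one_le_exp (4 : ℝ)
    linarith
  refine (sum_le_sum fun i _ => h1 i).trans ?_
  rw [geom_sum_eq (by norm_num)]
  have : (0 : ℝ) ≤ (1 / 2) ^ I := by positivity
  rw [div_le_iff_of_neg (by norm_num)]
  linarith

open Classical in
theorem bh (j : ℕ) : ∃ C : ℕ, ∀ b0 : ℕ, C ≤ b0 → ∀ K z : ℕ, 2 * j ≤ K → 2 ≤ K → K ≤ z →
    ∀ (T : Finset ℕ) (B : ℕ → ℕ → Prop) (Y r : ℝ), 0 ≤ Y → 0 ≤ r →
    (∀ S ⊆ PK K z, ∏ p ∈ S, p ≤ z ^ (4 * b0 + 10) →
      |((T.filter (fun t => ∀ p ∈ S, B t p)).card : ℝ) - Y * ∏ p ∈ S, ((j : ℝ) / p)| ≤ r * (j : ℝ) ^ S.card) →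
    |((T.filter (fun t => ∀ p ∈ PK K z, ¬ B t p)).card : ℝ) - Y * VV K z j| ≤
      Real.exp (-(b0 : ℝ)) * (Y * VV K z j) + r * (z : ℝ) ^ (3 * (4 * b0 + 10)) := by
  obtain ⟨c6, hc6, hrec⟩ := bh_recip
  set σ : ℝ := j * c6 with hσdef
  have hσ0 : 0 ≤ σ := by positivity
  obtain ⟨C, hC⟩ := exists_nat_ge (21 * σ + 2)
  refine ⟨C, fun b0 hb0 K z hjK hK hKz T B Y r hY hr hN => ?_⟩
  have hb0' : 21 * σ + 2 ≤ (b0 : ℝ) := hC.trans (by exact_mod_cast hb0)
  have hz2 : 2 ≤ z := hK.trans hKz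
  have hz1 : 1 ≤ z := by omega
  have hU : (range z).biUnion (bh_Bk K z) = PK K z := by
    ext p
    rw [mem_biUnion]
    constructor
    · rintro ⟨i, _, hi⟩
      exact (mem_filter.1 hi).1
    · intro hp
      exact ⟨bh_ix z p, mem_range.2 (bh_ix_lt hp), mem_filter.2 ⟨hp, rfl⟩⟩
  have hg : ∀ i < z, ∀ p ∈ bh_Bk K z i, (0 : ℝ) ≤ (j : ℝ) / p ∧ (j : ℝ) / p ≤ 1 / 2 := by
    intro i _ p hp
    have h1 := (bh_mem_PK.1 (mem_filter.1 hp).1).1
    have hp0 : (0 : ℝ) < p := by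
      have : 0 < p := by omega
      exact_mod_cast this
    refine ⟨by positivity, ?_⟩
    rw [div_le_div_iff₀ hp0 (by norm_num)]
    have : 2 * j ≤ p := by omega
    have h2 : (2 : ℝ) * j ≤ p := by exact_mod_cast this
    linarith
  have hσi : ∀ i, ∑ p ∈ bh_Bk K z i, (j : ℝ) / p ≤ σ := by
    intro i
    have h1 := hrec K z i hK
    have h2 : ∑ p ∈ bh_Bk K z i, (j : ℝ) / p = j * ∑ p ∈ bh_Bk K z i, (1 : ℝ) / p := by
      rw [mul_sum]
      exact sum_congr rfl fun p _ => by ring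
    rw [h2, hσdef]
    gcongr
  set δ : ℕ → ℝ := fun i => Real.exp (2 * σ - 2 * ((2 * (b0 + i) + 1 : ℕ) : ℝ)) with hδ
  set R : Finset ℕ → ℝ := fun S => if ∏ p ∈ S, p ≤ z ^ (4 * b0 + 10) then r * (j : ℝ) ^ S.card else 0 with hR
  have hΔ : ∑ i ∈ range z, δ i ≤ Real.exp (-(b0 : ℝ)) / 5 := by
    have h1 : ∀ i : ℕ, δ i = Real.exp (2 * σ - 4 * b0 - 2) * Real.exp (-(4 * (i : ℝ))) := by
      intro i
      rw [hδ, ← Real.exp_add]
      simp only
      congr 1
      push_cast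
      ring
    simp only [h1]
    rw [← mul_sum]
    have h2 := bh_expsum z
    have h3 : Real.exp (2 * σ - 4 * b0 - 2) ≤ Real.exp (-(b0 : ℝ)) * Real.exp (-5) := by
      rw [← Real.exp_add]
      apply Real.exp_le_exp.2
      linarith
    have h4 : Real.exp (-5) ≤ 1 / 10 := by
      have h5 : Real.exp (-5 : ℝ) = Real.exp (-(5 / 2)) * Real.exp (-(5 / 2)) := by
        rw [← Real.exp_add]
        norm_num
      have h6 : Real.exp (-(5 / 2 : ℝ)) ≤ 2 / 7 := by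
        rw [Real.exp_neg, inv_le_comm₀ (Real.exp_pos _) (by norm_num)]
        have := Real.add_one_le_exp (5 / 2 : ℝ)
        linarith
      have h7 := Real.exp_pos (-(5 / 2 : ℝ))
      rw [h5]
      nlinarith
    have h8 := Real.exp_pos (-(b0 : ℝ))
    calc Real.exp (2 * σ - 4 * b0 - 2) * ∑ i ∈ range z, Real.exp (-(4 * (i : ℝ)))
        ≤ (Real.exp (-(b0 : ℝ)) * (1 / 10)) * 2 := by
          refine mul_le_mul (h3.trans ?_) h2 (sum_nonneg fun i _ => (Real.exp_pos _).le) (by positivity)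
          gcongr
      _ = Real.exp (-(b0 : ℝ)) / 5 := by ring
  have hmain := bhc z (bh_Bk K z) (by
      intro i _ i' _ hne
      rw [Finset.disjoint_left]
      intro p hp hp'
      exact hne ((mem_filter.1 hp).2.symm.trans (mem_filter.1 hp').2)) (fun i => b0 + i)
    (fun p => (j : ℝ) / p) (fun i hi p hp => ⟨(hg i hi p hp).1, (hg i hi p hp).2.trans (by norm_num)⟩)
    δ (fun i _ => (Real.exp_pos _).le) (by
      intro i hi
      have h1 := ehb_W (bh_Bk K z i) (b0 + i) (fun p => (j : ℝ) / p) (fun p hp => (hg i hi p hp).1)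
        (hσi i)
      have h2 := ehb_I (bh_Bk K z i) (fun p => (j : ℝ) / p) (hg i hi) (hσi i)
      have h3 : 21 * σ ≤ ((2 * (b0 + i) + 1 : ℕ) : ℝ) := by
        push_cast
        have : (0 : ℝ) ≤ i := Nat.cast_nonneg i
        linarith
      have h4 := bh_fact hσ0 h3
      calc eW (bh_Bk K z i) (b0 + i) (fun p => (j : ℝ) / p)
          ≤ Real.exp (-(2 * ((2 * (b0 + i) + 1 : ℕ) : ℝ))) := h1.trans h4
        _ = δ i * Real.exp (-(2 * σ)) := by
            rw [hδ, ← Real.exp_add]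
            congr 1
            ring
        _ ≤ δ i * eI (bh_Bk K z i) (fun p => (j : ℝ) / p) :=
            mul_le_mul_of_nonneg_left h2 (Real.exp_pos _).le)
    hΔ (by
      have : Real.exp (-(b0 : ℝ)) ≤ 1 := by
        rw [Real.exp_le_one_iff]
        have : (0 : ℝ) ≤ b0 := Nat.cast_nonneg b0
        linarith
      linarith) T B hY R (by
      intro S
      rw [hR]
      simp only
      split_ifs
      · positivity
      · exact le_rfl) (by
      intro S hS hc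
      rw [hU] at hS
      have hp := bh_prod_le hz1 hS hc
      have h1 := hN S hS hp
      rw [hR]
      simp only
      rw [if_pos hp]
      exact h1)
  rw [hU] at hmain
  refine hmain.trans ?_
  have hsum : ∑ S ∈ (PK K z).powerset.filter (fun S => ∀ i < z, (S ∩ bh_Bk K z i).card ≤ 2 * (b0 + i) + 1), R S ≤
      r * (((z ^ (4 * b0 + 10) : ℕ) : ℝ) * ((z ^ (4 * b0 + 10) : ℕ) : ℝ)) := by
    refine le_trans ?_ (bh_count (K := K) (z := z) (D := z ^ (4 * b0 + 10)) (j := j) (by omega) hr)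
    calc ∑ S ∈ (PK K z).powerset.filter (fun S => ∀ i < z, (S ∩ bh_Bk K z i).card ≤ 2 * (b0 + i) + 1), R S
        = ∑ S ∈ (PK K z).powerset.filter (fun S => ∀ i < z, (S ∩ bh_Bk K z i).card ≤ 2 * (b0 + i) + 1),
          r * (j : ℝ) ^ S.card := by
          refine sum_congr rfl fun S hS => ?_
          rw [mem_filter, mem_powerset] at hS
          rw [hR]
          simp only
          rw [if_pos (bh_prod_le hz1 hS.1 hS.2)]
      _ ≤ ∑ S ∈ (PK K z).powerset.filter (fun S => ∏ p ∈ S, p ≤ z ^ (4 * b0 + 10)),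
          r * (j : ℝ) ^ S.card := by
          apply sum_le_sum_of_subset_of_nonneg
          · intro S hS
            rw [mem_filter, mem_powerset] at hS
            rw [mem_filter, mem_powerset]
            exact ⟨hS.1, bh_prod_le hz1 hS.1 hS.2⟩
          · intro S _ _
            positivity
  have hzR : (2 : ℝ) ≤ z := by exact_mod_cast hz2
  have hzD : (z : ℝ) + 1 ≤ (z : ℝ) ^ (4 * b0 + 10) := by
    calc (z : ℝ) + 1 ≤ (z : ℝ) ^ 2 := by nlinarith
      _ ≤ (z : ℝ) ^ (4 * b0 + 10) := pow_le_pow_right₀ (by linarith) (by omega)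
  have h5 : 5 * (Real.exp (-(b0 : ℝ)) / 5) = Real.exp (-(b0 : ℝ)) := by ring
  rw [h5]
  have h6 : ((z : ℝ) + 1) * ∑ S ∈ (PK K z).powerset.filter
      (fun S => ∀ i < z, (S ∩ bh_Bk K z i).card ≤ 2 * (b0 + i) + 1), R S ≤
      r * (z : ℝ) ^ (3 * (4 * b0 + 10)) := by
    calc ((z : ℝ) + 1) * ∑ S ∈ (PK K z).powerset.filter
          (fun S => ∀ i < z, (S ∩ bh_Bk K z i).card ≤ 2 * (b0 + i) + 1), R S
        ≤ (z : ℝ) ^ (4 * b0 + 10) *
          (r * (((z ^ (4 * b0 + 10) : ℕ) : ℝ) * ((z ^ (4 * b0 + 10) : ℕ) : ℝ))) := by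
          refine mul_le_mul hzD hsum (sum_nonneg fun S _ => ?_) (by positivity)
          rw [hR]
          simp only
          split_ifs
          · positivity
          · exact le_rfl
      _ = r * (z : ℝ) ^ (3 * (4 * b0 + 10)) := by
          push_cast
          ring
  exact add_le_add le_rfl h6

end H69PG
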