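import Pool.Agent.H69.PG.Ar0

/-!
# BHA: Bonferroni inequalities for one block

Let `ν = #{p ∈ P : B p}`. `UU = ∑_{l ≤ 2b} (-1)^l choose(ν, l)`, which is `1` for `ν = 0` and `choose(ν-1, 2b)` for `ν ≥ 1`
(`Int.alternating_sum_range_choose_of_ne` / induction), `WW = choose(ν, 2b+1)`, `II = [ν = 0]`, and
`choose(ν-1, 2b) ≤ choose(ν, 2b+1)` (Pascal: `choose(ν, 2b+1) = choose(ν-1, 2b) + choose(ν-1, 2b+1)`).
-/

open Finset EG

namespace H69PG

theorem BhA_filter (P : Finset ℕ) (B : ℕ → Prop) (q : ℕ → Prop)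
    {_ : DecidablePred fun S : Finset ℕ => q S.card ∧ ∀ p ∈ S, B p} {_ : DecidablePred B}
    {_ : DecidablePred fun S : Finset ℕ => q S.card} :
    P.powerset.filter (fun S => q S.card ∧ ∀ p ∈ S, B p) =
      (P.filter B).powerset.filter (fun S => q S.card) := by
  ext S
  simp only [Finset.mem_filter, Finset.mem_powerset, Finset.subset_iff]
  constructor
  · rintro ⟨h1, h2, h3⟩
    exact ⟨fun x hx => ⟨h1 hx, h3 x hx⟩, h2⟩
  · rintro ⟨h1, h2⟩
    exact ⟨fun x hx => (h1 hx).1, h2, fun x hx => (h1 hx).2⟩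

open Classical in
theorem BhA_WW (P : Finset ℕ) (b : ℕ) (B : ℕ → Prop) :
    WW P b B = ((P.filter B).card.choose (2 * b + 1) : ℕ) := by
  unfold WW
  rw [BhA_filter P B (fun k => k = 2 * b + 1), ← Finset.powersetCard_eq_filter,
    Finset.card_powersetCard]

open Classical in
theorem BhA_UU (P : Finset ℕ) (b : ℕ) (B : ℕ → Prop) :
    UU P b B = ((∑ l ∈ range (2 * b + 1), ((-1) ^ l * (P.filter B).card.choose l : ℤ) : ℤ) : ℝ) := by
  unfold UU
  rw [BhA_filter P B (fun k => k ≤ 2 * b)]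
  set F := P.filter B with hF
  rw [← Finset.sum_fiberwise_of_maps_to (g := fun S : Finset ℕ => S.card) (t := range (2 * b + 1))
    (fun S hS => by
      rw [Finset.mem_filter] at hS
      exact Finset.mem_range.mpr (by have := hS.2; omega))]
  rw [Int.cast_sum]
  apply Finset.sum_congr rfl
  intro l hl
  have h1 : (F.powerset.filter (fun S => S.card ≤ 2 * b)).filter (fun S => S.card = l) =
      Finset.powersetCard l F := by
    rw [Finset.powersetCard_eq_filter, Finset.filter_filter]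
    apply Finset.filter_congr
    intro S _
    have := Finset.mem_range.mp hl
    constructor
    · exact fun h => h.2
    · exact fun h => ⟨by omega, h⟩
  rw [h1]
  rw [Finset.sum_congr rfl (fun S hS => by rw [(Finset.mem_powersetCard.mp hS).2])]
  rw [Finset.sum_const, Finset.card_powersetCard, nsmul_eq_mul]
  push_cast
  ring

open Classical in
theorem BhA_II (P : Finset ℕ) (B : ℕ → Prop) :
    II P B = if (P.filter B).card = 0 then 1 else 0 := by
  unfold II
  congr 1
  rw [Finset.card_eq_zero, Finset.filter_eq_empty_iff]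

theorem BhA_zero (b : ℕ) :
    ((∑ l ∈ range (2 * b + 1), ((-1) ^ l * (0 : ℕ).choose l : ℤ) : ℤ) : ℝ) = 1 := by
  have h : (∑ l ∈ range (2 * b + 1), ((-1) ^ l * (0 : ℕ).choose l : ℤ)) = 1 := by
    rw [Finset.sum_eq_single 0]
    · simp
    · intro l _ hl
      rw [Nat.choose_eq_zero_of_lt (Nat.pos_of_ne_zero hl)]
      simp
    · intro h
      exact absurd (Finset.mem_range.mpr (Nat.succ_pos _)) h
  rw [h]
  norm_num

theorem BhA_succ (n b : ℕ) :
    ((∑ l ∈ range (2 * b + 1), ((-1) ^ l * (n + 1).choose l : ℤ) : ℤ) : ℝ) = (n.choose (2 * b) : ℕ) := by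
  rw [Int.alternating_sum_range_choose_eq_choose, pow_mul]
  norm_num

theorem bha_lower (P : Finset ℕ) (b : ℕ) (B : ℕ → Prop) : II P B ≤ UU P b B := by
  classical
  rw [BhA_II, BhA_UU]
  rcases Nat.eq_zero_or_pos (P.filter B).card with h | h
  · rw [if_pos h, h, BhA_zero]
  · rw [if_neg h.ne']
    obtain ⟨n, hn⟩ := Nat.exists_eq_succ_of_ne_zero h.ne'
    rw [hn, Nat.succ_eq_add_one, BhA_succ]
    exact Nat.cast_nonneg _

theorem bha_upper (P : Finset ℕ) (b : ℕ) (B : ℕ → Prop) : UU P b B ≤ II P B + WW P b B := by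
  classical
  rw [BhA_II, BhA_UU, BhA_WW]
  rcases Nat.eq_zero_or_pos (P.filter B).card with h | h
  · rw [if_pos h, h, BhA_zero]
    have : (0 : ℝ) ≤ ((0 : ℕ).choose (2 * b + 1) : ℕ) := Nat.cast_nonneg _
    linarith
  · rw [if_neg h.ne']
    obtain ⟨n, hn⟩ := Nat.exists_eq_succ_of_ne_zero h.ne'
    rw [hn, Nat.succ_eq_add_one, BhA_succ, zero_add]
    have h1 : n.choose (2 * b) ≤ (n + 1).choose (2 * b + 1) := by
      rw [Nat.choose_succ_succ]
      exact Nat.le_add_right _ _
    exact_mod_cast h1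

end H69PG
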