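import Pool.Agent.H69.PG.BhA

/-!
# BHB: the expectations for one block

Let `w(A) = ∏_{p ∈ A} g p ∏_{p ∈ P \ A} (1 - g p) ≥ 0` for `A ⊆ P`. For `S ⊆ P`: `∑_{S ⊆ A ⊆ P} w(A) = ∏_{p ∈ S} g p`. So
`∑_A w(A) UU P b (· ∈ A) = eU`, `∑_A w(A) WW P b (· ∈ A) = eW`, `∑_A w(A) II P (· ∈ A) = w(∅) = eI`; apply `bha_lower` and `bha_upper` for every `A`.
`ehb_W`: `(∑_{p ∈ P} g p)^n ≥ n! ∑_{|S| = n} ∏_{p ∈ S} g p` (each product over a set `S` with `n` elements occurs `n!` times in the expansion;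
`Finset.esymm`/`Finset.prod_univ_sum` or induction on `P`).
`ehb_I`: `1 - x ≥ exp(-2x)` for `0 ≤ x ≤ 1/2`.
-/

open Finset EG

namespace H69PG

/-- the weight of `A` -/
noncomputable def BhB_w (P : Finset ℕ) (g : ℕ → ℝ) (A : Finset ℕ) : ℝ :=
  (∏ p ∈ A, g p) * ∏ p ∈ P \ A, (1 - g p)

theorem BhB_w_nonneg {P : Finset ℕ} {g : ℕ → ℝ} (hg : ∀ p ∈ P, 0 ≤ g p ∧ g p ≤ 1) {A : Finset ℕ}
    (hA : A ∈ P.powerset) : 0 ≤ BhB_w P g A := by
  rw [mem_powerset] at hA
  unfold BhB_w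
  refine mul_nonneg (prod_nonneg fun p hp => (hg p (hA hp)).1) (prod_nonneg fun p hp => ?_)
  have := (hg p (mem_sdiff.1 hp).1).2
  linarith

open Classical in
theorem BhB_sum {P : Finset ℕ} (g : ℕ → ℝ) {S : Finset ℕ} (hS : S ∈ P.powerset) :
    ∑ A ∈ P.powerset, (if S ⊆ A then BhB_w P g A else 0) = ∏ p ∈ S, g p := by
  rw [mem_powerset] at hS
  have h1 := prod_add g (fun p => if p ∈ S then 0 else 1 - g p) P
  have h2 : ∏ p ∈ P, (g p + (if p ∈ S then 0 else 1 - g p)) = ∏ p ∈ S, g p := by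
    have h3 : ∀ p ∈ P, g p + (if p ∈ S then 0 else 1 - g p) = if p ∈ S then g p else 1 := by
      intro p _
      split_ifs <;> ring
    rw [prod_congr rfl h3, prod_ite_mem, inter_eq_right.2 hS]
  rw [h2] at h1
  rw [h1]
  refine sum_congr rfl fun A hA => ?_
  by_cases h : S ⊆ A
  · rw [if_pos h]
    unfold BhB_w
    congr 1
    refine prod_congr rfl fun p hp => ?_
    rw [if_neg (fun h5 => (mem_sdiff.1 hp).2 (h h5))]
  · rw [if_neg h]
    obtain ⟨p, hpS, hpA⟩ := not_subset.1 h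
    symm
    refine mul_eq_zero_of_right _ ?_
    exact prod_eq_zero (mem_sdiff.2 ⟨hS hpS, hpA⟩) (if_pos hpS)

open Classical in
theorem BhB_gen (P : Finset ℕ) (g : ℕ → ℝ) (q : Finset ℕ → Prop) (c : Finset ℕ → ℝ) :
    ∑ A ∈ P.powerset, BhB_w P g A *
      (∑ S ∈ P.powerset.filter (fun S => q S ∧ ∀ p ∈ S, p ∈ A), c S) =
      ∑ S ∈ P.powerset.filter q, c S * ∏ p ∈ S, g p := by
  have h1 : ∀ A ∈ P.powerset, BhB_w P g A *
      (∑ S ∈ P.powerset.filter (fun S => q S ∧ ∀ p ∈ S, p ∈ A), c S) =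
      ∑ S ∈ P.powerset.filter q, c S * (if S ⊆ A then BhB_w P g A else 0) := by
    intro A _
    rw [mul_sum, sum_filter, sum_filter]
    refine sum_congr rfl fun S _ => ?_
    by_cases hq : q S
    · by_cases hSA : S ⊆ A
      · rw [if_pos ⟨hq, fun p hp => hSA hp⟩, if_pos hq, if_pos hSA, mul_comm]
      · rw [if_neg (fun h => hSA (fun p hp => h.2 p hp)), if_pos hq, if_neg hSA, mul_zero]
    · rw [if_neg (fun h => hq h.1), if_neg hq]
  rw [sum_congr rfl h1, sum_comm]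
  refine sum_congr rfl fun S hS => ?_
  rw [← mul_sum, BhB_sum g (mem_filter.1 hS).1]

theorem BhB_ite {p q : Prop} {dp : Decidable p} {dq : Decidable q} (h : p ↔ q) (x y : ℝ) :
    (if p then x else y) = if q then x else y := by
  by_cases hp : p
  · rw [if_pos hp, if_pos (h.1 hp)]
  · rw [if_neg hp, if_neg (fun hq => hp (h.2 hq))]

theorem BhB_U (P : Finset ℕ) (b : ℕ) (g : ℕ → ℝ) :
    ∑ A ∈ P.powerset, BhB_w P g A * UU P b (fun p => p ∈ A) = eU P b g := by
  have h := BhB_gen P g (fun S => S.card ≤ 2 * b) (fun S => (-1 : ℝ) ^ S.card)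
  unfold UU eU
  rw [sum_filter] at h ⊢
  refine Eq.trans ?_ (h.trans ?_)
  · refine sum_congr rfl fun A _ => ?_
    rw [sum_filter, sum_filter]
    congr 1
    exact sum_congr rfl fun S _ => BhB_ite Iff.rfl _ _
  · exact sum_congr rfl fun S _ => BhB_ite Iff.rfl _ _

theorem BhB_W (P : Finset ℕ) (b : ℕ) (g : ℕ → ℝ) :
    ∑ A ∈ P.powerset, BhB_w P g A * WW P b (fun p => p ∈ A) = eW P b g := by
  have h := BhB_gen P g (fun S => S.card = 2 * b + 1) (fun _ => 1)
  unfold WW eW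
  rw [sum_filter] at h ⊢
  refine Eq.trans ?_ (h.trans ?_)
  · refine sum_congr rfl fun A _ => ?_
    rw [card_filter, sum_filter]
    push_cast
    congr 1
    exact sum_congr rfl fun S _ => BhB_ite Iff.rfl _ _
  · refine sum_congr rfl fun S _ => ?_
    rw [one_mul]
    exact BhB_ite Iff.rfl _ _

theorem BhB_I (P : Finset ℕ) (g : ℕ → ℝ) :
    ∑ A ∈ P.powerset, BhB_w P g A * II P (fun p => p ∈ A) = eI P g := by
  rw [sum_eq_single_of_mem ∅ (empty_mem_powerset P)]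
  · unfold BhB_w II eI
    rw [if_pos (fun p _ => notMem_empty p)]
    simp
  · intro A hA hne
    unfold II
    rw [if_neg, mul_zero]
    intro h
    obtain ⟨p, hp⟩ := nonempty_iff_ne_empty.2 hne
    exact h p (mem_powerset.1 hA hp) hp

theorem bhb_lower (P : Finset ℕ) (b : ℕ) (g : ℕ → ℝ) (hg : ∀ p ∈ P, 0 ≤ g p ∧ g p ≤ 1) : eI P g ≤ eU P b g := by
  rw [← BhB_I, ← BhB_U]
  exact sum_le_sum fun A hA =>
    mul_le_mul_of_nonneg_left (bha_lower P b (fun p => p ∈ A)) (BhB_w_nonneg hg hA)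

theorem bhb_upper (P : Finset ℕ) (b : ℕ) (g : ℕ → ℝ) (hg : ∀ p ∈ P, 0 ≤ g p ∧ g p ≤ 1) :
    eU P b g ≤ eI P g + eW P b g := by
  rw [← BhB_I, ← BhB_U, ← BhB_W, ← sum_add_distrib]
  refine sum_le_sum fun A hA => ?_
  rw [← mul_add]
  exact mul_le_mul_of_nonneg_left (bha_upper P b (fun p => p ∈ A)) (BhB_w_nonneg hg hA)

theorem BhB_bern {s x : ℝ} (hs : 0 ≤ s) (hx : 0 ≤ x) (n : ℕ) :
    s ^ (n + 1) + (n + 1) * (x * s ^ n) ≤ (s + x) ^ (n + 1) := by
  induction n with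
  | zero => simp
  | succ k ih =>
    have h1 : (s + x) * (s ^ (k + 1) + (k + 1) * (x * s ^ k)) ≤ (s + x) * (s + x) ^ (k + 1) :=
      mul_le_mul_of_nonneg_left ih (by positivity)
    have h2 : (s + x) * (s + x) ^ (k + 1) = (s + x) ^ (k + 1 + 1) := by ring
    have h3 : 0 ≤ (k + 1) * (x * x * s ^ k) := by positivity
    rw [h2] at h1
    refine le_trans ?_ h1
    push_cast
    have h4 : (s + x) * (s ^ (k + 1) + (k + 1) * (x * s ^ k)) =
        s ^ (k + 1 + 1) + (k + 1 + 1) * (x * s ^ (k + 1)) + (k + 1) * (x * x * s ^ k) := by ring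
    rw [h4]
    linarith

theorem BhB_esymm (P : Finset ℕ) (g : ℕ → ℝ) (hg : ∀ p ∈ P, 0 ≤ g p) (n : ℕ) :
    (n.factorial : ℝ) * ∑ S ∈ powersetCard n P, ∏ p ∈ S, g p ≤ (∑ p ∈ P, g p) ^ n := by
  induction P using Finset.induction_on generalizing n with
  | empty =>
    cases n with
    | zero => simp
    | succ k =>
      rw [powersetCard_eq_empty.2 (by simp), sum_empty, mul_zero, sum_empty]
      positivity
  | insert a P ha ih =>
    have hgP : ∀ p ∈ P, 0 ≤ g p := fun p hp => hg p (mem_insert_of_mem hp)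
    have hga : 0 ≤ g a := hg a (mem_insert_self a P)
    have hs : 0 ≤ ∑ p ∈ P, g p := sum_nonneg hgP
    cases n with
    | zero => simp
    | succ k =>
      have h1 := ih hgP (k + 1)
      have h2 := ih hgP k
      have h3 : ∑ S ∈ powersetCard (k + 1) (insert a P), ∏ p ∈ S, g p =
          ∑ S ∈ powersetCard (k + 1) P, ∏ p ∈ S, g p +
            g a * ∑ S ∈ powersetCard k P, ∏ p ∈ S, g p := by
        rw [powersetCard_succ_insert ha, sum_union, sum_image, mul_sum]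
        · congr 1
          refine sum_congr rfl fun S hS => ?_
          rw [prod_insert]
          intro h
          exact ha ((mem_powersetCard.1 hS).1 h)
        · intro S hS T hT hST
          have hS' : a ∉ S := fun h => ha ((mem_powersetCard.1 hS).1 h)
          have hT' : a ∉ T := fun h => ha ((mem_powersetCard.1 hT).1 h)
          rw [← erase_insert hS', ← erase_insert hT', hST]
        · rw [disjoint_left]
          intro S hS hS2
          rw [mem_image] at hS2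
          obtain ⟨T, _, rfl⟩ := hS2
          exact ha ((mem_powersetCard.1 hS).1 (mem_insert_self a T))
      rw [h3, sum_insert ha, add_comm (g a)]
      refine le_trans ?_ (BhB_bern hs hga k)
      rw [mul_add]
      refine add_le_add h1 ?_
      have h4 : ((k + 1).factorial : ℝ) * (g a * ∑ S ∈ powersetCard k P, ∏ p ∈ S, g p) =
          (k + 1) * (g a * ((k.factorial : ℝ) * ∑ S ∈ powersetCard k P, ∏ p ∈ S, g p)) := by
        rw [Nat.factorial_succ]
        push_cast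
        ring
      rw [h4]
      exact mul_le_mul_of_nonneg_left (mul_le_mul_of_nonneg_left h2 hga) (by positivity)

theorem ehb_W (P : Finset ℕ) (b : ℕ) (g : ℕ → ℝ) (hg : ∀ p ∈ P, 0 ≤ g p) {σ : ℝ} (hσ : ∑ p ∈ P, g p ≤ σ) :
    eW P b g ≤ σ ^ (2 * b + 1) / ((2 * b + 1).factorial : ℝ) := by
  have h1 := BhB_esymm P g hg (2 * b + 1)
  have h2 : (0 : ℝ) < ((2 * b + 1).factorial : ℝ) := by exact_mod_cast Nat.factorial_pos _
  have h3 : eW P b g = ∑ S ∈ powersetCard (2 * b + 1) P, ∏ p ∈ S, g p := by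
    unfold eW
    rw [powersetCard_eq_filter]
  rw [h3, le_div_iff₀ h2, mul_comm]
  exact h1.trans (pow_le_pow_left₀ (sum_nonneg hg) hσ _)

theorem BhB_exp {x : ℝ} (h0 : 0 ≤ x) (h1 : x ≤ 1 / 2) : Real.exp (-(2 * x)) ≤ 1 - x := by
  have h2 := Real.add_one_le_exp (2 * x)
  have h3 : Real.exp (2 * x) * Real.exp (-(2 * x)) = 1 := by
    rw [← Real.exp_add]
    simp
  have h4 := Real.exp_pos (-(2 * x))
  have h5 : 1 ≤ (2 * x + 1) * (1 - x) := by nlinarith
  have h6 : (2 * x + 1) * Real.exp (-(2 * x)) ≤ 1 := by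
    calc (2 * x + 1) * Real.exp (-(2 * x)) ≤ Real.exp (2 * x) * Real.exp (-(2 * x)) :=
          mul_le_mul_of_nonneg_right h2 h4.le
      _ = 1 := h3
  have h7 : (2 * x + 1) * Real.exp (-(2 * x)) ≤ (2 * x + 1) * (1 - x) := h6.trans h5
  exact le_of_mul_le_mul_left h7 (by linarith)

theorem ehb_I (P : Finset ℕ) (g : ℕ → ℝ) (hg : ∀ p ∈ P, 0 ≤ g p ∧ g p ≤ 1 / 2) {σ : ℝ} (hσ : ∑ p ∈ P, g p ≤ σ) :
    Real.exp (-(2 * σ)) ≤ eI P g := by
  calc Real.exp (-(2 * σ)) ≤ Real.exp (∑ p ∈ P, -(2 * g p)) := by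
        rw [Real.exp_le_exp, sum_neg_distrib, ← mul_sum]
        linarith
    _ = ∏ p ∈ P, Real.exp (-(2 * g p)) := Real.exp_sum _ _
    _ ≤ eI P g := prod_le_prod (fun p _ => (Real.exp_pos _).le)
        (fun p hp => BhB_exp (hg p hp).1 (hg p hp).2)

end H69PG
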