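import Pool.Agent.H69.PG.Abs
import Pool.Agent.H69.PG.H1v
import Pool.Agent.H69.PG.H2v
import Pool.Agent.H69.PG.H4v

open Finset EG

/-!
# COA: the abstract theorem applied to linear forms

`abs_main` with `T = range T`, `V = Vf N K z`, `s = sA Z Q f0`, `q a = f0 a * wA Z Q a`, `g = gA`, `β = bA`, `th i t = th0 K z (Q0 t + c i)`, `ρ i t` = no prime `p ≤ y` divides `Q0 t + c i`, `G = 1/GG Q R`,
`C0 = 2 Γ 2^M'`. `C1` = the maximum of the constants of `h1v`, `h2v`, `h4v`.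
(`sA ≥ 0` by `wA_nonneg`; `η ≥ 0` by `hη`; `bA ≥ 0` is `th0` times a square; `Q0 t + c i ≥ 1` by `cpos`.)
-/

namespace H69PG

theorem CoA_th (K z L : ℕ) : th0 K z L = 0 ∨ th0 K z L = 1 := by
  classical
  unfold th0
  split_ifs
  · exact Or.inr rfl
  · exact Or.inl rfl

theorem CoA_GG (Q R : ℕ) : 0 ≤ GG Q R := by
  unfold GG
  exact Finset.sum_nonneg fun r _ => by positivity

theorem CoA_bA {ι : Type} (K z Q0 R : ℕ) (c : ι → ℕ) (i : ι) (t : ℕ) : 0 ≤ bA K z Q0 R c i t := by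
  unfold bA be
  rcases CoA_th K z (Q0 * t + c i) with h | h <;> rw [h]
  · simp
  · rw [one_mul]
    exact sq_nonneg _

theorem CoA_eta {ι : Type} [Fintype ι] [DecidableEq ι] {C N m M K z Q0 T R b0 : ℕ} {Z : ℕ → ℕ}
    {v f0 : ℕ → ℝ} {l Γ Pl η : ℝ} {c : ι → ℕ} (h : Sys C N m M K z Q0 T R b0 Z v f0 l Γ Pl η c) :
    0 ≤ η := by
  refine le_trans ?_ h.hη
  have h1 := h.Γ_one
  have h2 := h.Pl_one
  have h3 : 0 < VV K z (2 * N + 1) := vv_pos (by have := h.hK; omega)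
  have h4 : 0 ≤ Γ := by linarith
  have h5 : 0 ≤ Pl := by linarith
  positivity

open Classical in
theorem coA (N : ℕ) : ∃ C1 : ℕ, ∀ (ι : Type) [Fintype ι] [DecidableEq ι] (C m M M' K z Q0 T R b0 y : ℕ) (Z : ℕ → ℕ) (v f0 : ℕ → ℝ)
    (l vm Γ Pl η : ℝ) (c : ι → ℕ), C1 ≤ C → Sys C N m M K z Q0 T R b0 Z v f0 l Γ Pl η c →
    (∀ a, 0 ≤ v a) → v 0 = 0 → (∀ a ∈ Icc 1 m, v a ≤ vm) → vm < l → 0 ≤ l →
    (∀ a, 0 ≤ f0 a) → ∑ a ∈ Icc 1 m, f0 a * wA Z (primorial z) a = 1 →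
    R ≤ y → z ≤ y → (∀ a ≤ m, Z a ≤ y) → (∀ i, ∀ t < T, Q0 * t + c i ≤ z ^ M') →
    η * (1 + ((m : ℝ) + 1) ^ 2 * ((Fintype.card ι : ℝ) * VV K z 1)) ^ (2 * N) ≤ 1 / 8 →
    η * ((2 * (N : ℝ) + 1) * (1 + ((m : ℝ) + 1) ^ 2 * ((Fintype.card ι : ℝ) * VV K z 1)) ^ (2 * N + 1)) ≤ 1 / 8 →
    1 / GG (primorial z) R * (((Fintype.card ι : ℝ) * VV K z 1) *
      (((Fintype.card ι : ℝ) * VV K z 1) * (∑ a ∈ Icc 1 m, f0 a ^ 2 * wA Z (primorial z) a) / N +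
        ((Fintype.card ι : ℝ) * VV K z 1) * (∑ a ∈ Icc 1 m, f0 a ^ 2 * wA Z (primorial z) a * v a) / (l - vm))) ≤ 1 / 8 →
    (T : ℝ) ≤ 4 * ((1 + m * (2 * Γ * 2 ^ M')) ^ (4 * N) * ((4 * N).factorial : ℝ) * 2 ^ (4 * N + 1) *
        (1 + (Fintype.card ι : ℝ) * VV K z 1) ^ (4 * N)) *
      (((range T).filter (fun t => ∀ i, ∃ p : ℕ, p.Prime ∧ p ≤ y ∧ p ∣ Q0 * t + c i)).card : ℝ) := by
  obtain ⟨c1, hc1⟩ := h1v N
  obtain ⟨c2, hc2⟩ := h2v N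
  obtain ⟨c4, hc4⟩ := h4v N
  refine ⟨max c1 (max c2 c4), ?_⟩
  intro ι _ _ C m M M' K z Q0 T R b0 y Z v f0 l vm Γ Pl η c hC hS hv hv0 hvm hl hl0 hf0 hq1 hRy hzy
    hZy hLz hE1 hE2 hB
  have hC1 : c1 ≤ C := le_trans (le_max_left _ _) hC
  have hC2 : c2 ≤ C := le_trans (le_trans (le_max_left _ _) (le_max_right _ _)) hC
  have hC4 : c4 ≤ C := le_trans (le_trans (le_max_right _ _) (le_max_right _ _)) hC
  have hK := hS.hK
  have hKz := hS.hKz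
  have hN := hS.N_pos
  have hs0 : ∀ a, 0 ≤ sA Z (primorial z) f0 a := by
    intro a
    unfold sA
    split_ifs
    · exact zero_le_one
    · exact mul_nonneg (sq_nonneg _) (wA_nonneg _ hS.Zm a)
  have hsum1 : ∑ a ∈ Icc 1 m, sA Z (primorial z) f0 a =
      ∑ a ∈ Icc 1 m, f0 a ^ 2 * wA Z (primorial z) a := by
    refine Finset.sum_congr rfl fun a ha => ?_
    unfold sA
    rw [if_neg (by have := (Finset.mem_Icc.1 ha).1; omega)]
  have hsum2 : ∑ a ∈ Icc 1 m, sA Z (primorial z) f0 a * v a =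
      ∑ a ∈ Icc 1 m, f0 a ^ 2 * wA Z (primorial z) a * v a := by
    refine Finset.sum_congr rfl fun a ha => ?_
    unfold sA
    rw [if_neg (by have := (Finset.mem_Icc.1 ha).1; omega)]
  have hC0 : (1 : ℝ) ≤ 2 * Γ * 2 ^ M' := by
    have h1 := hS.Γ_one
    have h2 : (1 : ℝ) ≤ 2 ^ M' := one_le_pow₀ (by norm_num)
    nlinarith
  have hres := abs_main (ι := ι) (m := m) (N := N) hN (v := v) (l := l) (vm := vm)
    (V := Vf N K z) (μ := (Fintype.card ι : ℝ) * VV K z 1) (vh hK)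
    (s := sA Z (primorial z) f0) (q := fun a => f0 a * wA Z (primorial z) a)
    hs0 (by unfold sA; simp) hv hv0 hvm hl hl0
    (fun a => mul_nonneg (hf0 a) (wA_nonneg _ hS.Zm a)) hq1
    (T := range T) (g := gA K z Q0 Z f0 c) (β := bA K z Q0 R c)
    (th := fun i t => th0 K z (Q0 * t + c i))
    (ρ := fun i t => ∀ p : ℕ, p.Prime → p ≤ y → ¬ p ∣ Q0 * t + c i)
    (η := η) (G := 1 / GG (primorial z) R) (C0 := 2 * Γ * 2 ^ M')
    (CoA_eta hS) (by have := CoA_GG (primorial z) R; positivity) hC0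
    (fun i t => by unfold gA; simp)
    (fun i t => CoA_bA K z Q0 R c i t)
    (fun i t => CoA_th K z _)
    (fun i t ht a ha => gA_abs (M := M) (M' := M') (by omega) hS.hM hS.Γ_one hS.ZM hS.ΓZ hS.f0_le
      (by have := hS.fm.cpos i; omega) (hLz i t (Finset.mem_range.1 ht)) ha)
    (fun i t _ hr => rough hS.Z0 hS.Zm hS.R_pos hRy hzy hZy hr)
    (hc1 ι C m M K z Q0 T R b0 Z v f0 l Γ Pl η c hC1 hS)
    (hc2 ι C m M K z Q0 T R b0 Z v f0 l Γ Pl η c hC2 hS)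
    (hc4 ι C m M K z Q0 T R b0 Z v f0 l Γ Pl η c hC4 hS)
    hE1 hE2 (by rw [hsum1, hsum2]; exact hB)
  rw [Finset.card_range] at hres
  refine hres.trans (le_of_eq ?_)
  congr 3
  ext t
  simp only [Finset.mem_filter, Finset.mem_range]
  refine and_congr_right fun _ => forall_congr' fun i => ?_
  push Not
  rfl

end H69PG
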