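import Pool.Agent.H69.PG.El
import Pool.Agent.H6.EG.S3

/-!
# ELU: means of products over a set `U` of forms, main term in product form

For `|U| = j ≤ J0`: `el` for the index type `{i // i ∈ U}` (restrict `c`, `D`, `f`) and the lemma `s3` with `K = j`, `C = 10`, `w = z`, `Q = primorial z` (`Wide z (primorial z)`),
`p = 1`, `a = Γc`: `|Mm - ∏ SS| ≤ C'/√z ∏ Γc`. `C` = the maximum over `j ≤ J0` of the constants of `el` and `s3` (rounded up). For `j = 0` all products are empty: both sides are `0`, directly (`s3` needs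
an index `j0`).
-/

open Finset EG

namespace H69PG

theorem Elu_wide (z : ℕ) : Wide z (primorial z) := by
  refine ⟨primorial_pos z, fun p hp hpz => ?_⟩
  unfold primorial
  exact Finset.dvd_prod_of_mem _ (by simp [hp]; omega)

theorem Elu_VV_nonneg (K z j : ℕ) (h : j ≤ K) : 0 ≤ VV K z j := by
  unfold VV
  refine Finset.prod_nonneg fun p hp => ?_
  unfold PK at hp
  rw [Finset.mem_filter, Finset.mem_Ioc] at hp
  have hp0 : (0 : ℝ) < p := by exact_mod_cast hp.2.pos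
  have hjp : (j : ℝ) ≤ p := by
    have : j ≤ p := by omega
    exact_mod_cast this
  have := (div_le_one hp0).2 hjp
  linarith

theorem Elu_Mm_empty {ι : Type} [Fintype ι] [DecidableEq ι] [IsEmpty ι] (D : ι → Finset ℕ) (f : ι → ℕ → ℝ) :
    Mm D f 1 = 1 := by
  unfold Mm
  have h1 : (Fintype.piFinset D) = {fun i => isEmptyElim i} := by
    ext B
    rw [Fintype.mem_piFinset, Finset.mem_singleton]
    constructor
    · intro _
      funext i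
      exact isEmptyElim i
    · intro _ i
      exact isEmptyElim i
  rw [h1, Finset.filter_singleton, if_pos ⟨fun i => isEmptyElim i, fun i => isEmptyElim i⟩, Finset.sum_singleton]
  simp

theorem Elu_s3 (j : ℕ) : ∃ C' : ℝ, 1 ≤ C' ∧ ∀ (ι : Type) [Fintype ι] [DecidableEq ι], Fintype.card ι = j →
    ∀ z : ℕ, C' ≤ z →
    ∀ (D : ι → Finset ℕ) (f : ι → ℕ → ℝ) (a : ι → ℝ), (∀ i, 0 ≤ a i) → (∀ i, Good (primorial z) (D i)) →
      (∀ i, Ctrl 10 (a i) 1 (D i) (f i)) →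
      |Mm D f 1 - ∏ i, SS (D i) (f i) 1| ≤ C' / Real.sqrt z * ∏ i, a i := by
  obtain ⟨C', hC1, hC⟩ := s3 j 10 (by norm_num)
  refine ⟨C', hC1, ?_⟩
  intro ι _ _ hcard z hz D f a ha hD hf
  rcases isEmpty_or_nonempty ι with he | hne
  · rw [Elu_Mm_empty]
    simp
    positivity
  · obtain ⟨j0⟩ := hne
    have := hC ι hcard z (primorial z) 1 (Elu_wide z) hz (Or.inl rfl) D f a j0 ha hD (fun i => by simpa using hf i)
    exact this

theorem elu (J0 : ℕ) : ∃ C : ℕ, 1 ≤ C ∧ ∀ b0 : ℕ, C ≤ b0 → ∀ (ι : Type) [Fintype ι] [DecidableEq ι],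
    ∀ K z Q0 : ℕ, 2 * J0 ≤ K → 2 ≤ K → K ≤ z → C ≤ z → ∀ c : ι → ℕ, Fm K Q0 c → ∀ T : ℕ, ∀ U : Finset ι, U.card ≤ J0 →
    ∀ (D : ι → Finset ℕ) (f : ι → ℕ → ℝ) (Γc A1 A2 : ι → ℝ), (∀ i ∈ U, Good (primorial z) (D i)) →
    (∀ i ∈ U, 0 ≤ Γc i) → (∀ i ∈ U, Ctrl 10 (Γc i) 1 (D i) (f i)) →
    (∀ i ∈ U, ∑ B ∈ D i, |f i B| / (B : ℝ) ≤ A1 i) → (∀ i ∈ U, ∑ B ∈ D i, |f i B| ≤ A2 i) →
    |∑ t ∈ range T, ∏ i ∈ U, (th0 K z (Q0 * t + c i) * Fn (D i) (f i) (Q0 * t + c i)) -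
        (T : ℝ) * VV K z U.card * ∏ i ∈ U, SS (D i) (f i) 1| ≤
      (T : ℝ) * VV K z U.card * (Real.exp (-(b0 : ℝ)) * ∏ i ∈ U, A1 i + C / Real.sqrt z * ∏ i ∈ U, Γc i) +
        (z : ℝ) ^ (3 * (4 * b0 + 10)) * ∏ i ∈ U, A2 i := by
  choose Ce hCe using el
  choose Cs hCs1 hCs using Elu_s3
  refine ⟨1 + ∑ j ∈ range (J0 + 1), (Ce j + ⌈Cs j⌉₊), by omega, ?_⟩
  intro b0 hb0 ι _ _ K z Q0 hJK hK2 hKz hCz c hc T U hU D f Γc A1 A2 hD hΓ hf hA1 hA2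
  have hmem : U.card ∈ range (J0 + 1) := Finset.mem_range.2 (by omega)
  have hle : Ce U.card + ⌈Cs U.card⌉₊ ≤ ∑ j ∈ range (J0 + 1), (Ce j + ⌈Cs j⌉₊) :=
    Finset.single_le_sum (f := fun j => Ce j + ⌈Cs j⌉₊) (fun _ _ => Nat.zero_le _) hmem
  set C := 1 + ∑ j ∈ range (J0 + 1), (Ce j + ⌈Cs j⌉₊) with hCdef
  have hCsC : Cs U.card ≤ (C : ℝ) := by
    refine (Nat.le_ceil _).trans ?_
    have : ⌈Cs U.card⌉₊ ≤ C := by omega
    exact_mod_cast this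
  have hCsz : Cs U.card ≤ (z : ℝ) := hCsC.trans (by exact_mod_cast hCz)
  have hcard : Fintype.card {i // i ∈ U} = U.card := Fintype.card_coe U
  have hc' : Fm K Q0 (fun i : {i // i ∈ U} => c i) :=
    ⟨hc.pos, hc.pr, fun i i' h => Subtype.ext (hc.inj h), fun i i' => hc.df i i', fun i => hc.cpos i⟩
  have h1 := hCe U.card b0 (by omega) {i // i ∈ U} hcard K z Q0 (by omega) hK2 hKz (fun i => c i) hc' T
    (fun i => D i) (fun i => f i) (fun i => hD i i.2)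
  have h2 := hCs U.card {i // i ∈ U} hcard z hCsz (fun i => D i) (fun i => f i) (fun i => Γc i)
    (fun i => hΓ i i.2) (fun i => hD i i.2) (fun i => hf i i.2)
  have hV : 0 ≤ VV K z U.card := Elu_VV_nonneg K z _ (by omega)
  have hT0 : (0 : ℝ) ≤ (T : ℝ) * VV K z U.card := mul_nonneg (Nat.cast_nonneg _) hV
  have e1 : (∑ t ∈ range T, ∏ i : {i // i ∈ U}, (th0 K z (Q0 * t + c i) * Fn (D i) (f i) (Q0 * t + c i))) =
      ∑ t ∈ range T, ∏ i ∈ U, (th0 K z (Q0 * t + c i) * Fn (D i) (f i) (Q0 * t + c i)) := by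
    refine Finset.sum_congr rfl fun t _ => ?_
    exact Finset.prod_coe_sort U (fun i => th0 K z (Q0 * t + c i) * Fn (D i) (f i) (Q0 * t + c i))
  have e2 : (∏ i : {i // i ∈ U}, ∑ B ∈ D i, |f i B| / (B : ℝ)) = ∏ i ∈ U, ∑ B ∈ D i, |f i B| / (B : ℝ) :=
    Finset.prod_coe_sort U (fun i => ∑ B ∈ D i, |f i B| / (B : ℝ))
  have e3 : (∏ i : {i // i ∈ U}, ∑ B ∈ D i, |f i B|) = ∏ i ∈ U, ∑ B ∈ D i, |f i B| :=
    Finset.prod_coe_sort U (fun i => ∑ B ∈ D i, |f i B|)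
  have e4 : (∏ i : {i // i ∈ U}, SS (D i) (f i) 1) = ∏ i ∈ U, SS (D i) (f i) 1 :=
    Finset.prod_coe_sort U (fun i => SS (D i) (f i) 1)
  have e5 : (∏ i : {i // i ∈ U}, Γc i) = ∏ i ∈ U, Γc i :=
    Finset.prod_coe_sort U (fun i => Γc i)
  rw [e1, e2, e3] at h1
  rw [e4, e5] at h2
  have hA1' : ∏ i ∈ U, ∑ B ∈ D i, |f i B| / (B : ℝ) ≤ ∏ i ∈ U, A1 i :=
    Finset.prod_le_prod (fun i _ => Finset.sum_nonneg fun B _ => by positivity) hA1
  have hA2' : ∏ i ∈ U, ∑ B ∈ D i, |f i B| ≤ ∏ i ∈ U, A2 i :=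
    Finset.prod_le_prod (fun i _ => Finset.sum_nonneg fun B _ => by positivity) hA2
  have hΓ' : 0 ≤ ∏ i ∈ U, Γc i := Finset.prod_nonneg hΓ
  set S := ∑ t ∈ range T, ∏ i ∈ U, (th0 K z (Q0 * t + c i) * Fn (D i) (f i) (Q0 * t + c i)) with hS
  set M := Mm (fun i : {i // i ∈ U} => D i) (fun i => f i) 1 with hM
  set P := ∏ i ∈ U, SS (D i) (f i) 1 with hP
  have h3 : |S - (T : ℝ) * VV K z U.card * P| ≤ |S - (T : ℝ) * VV K z U.card * M| + (T : ℝ) * VV K z U.card * |M - P| := by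
    have : S - (T : ℝ) * VV K z U.card * P =
        (S - (T : ℝ) * VV K z U.card * M) + (T : ℝ) * VV K z U.card * (M - P) := by ring
    rw [this]
    refine (abs_add_le _ _).trans ?_
    rw [abs_mul ((T : ℝ) * VV K z U.card) (M - P), abs_of_nonneg hT0]
  refine h3.trans ?_
  have h4 : |M - P| ≤ (C : ℝ) / Real.sqrt z * ∏ i ∈ U, Γc i := by
    refine h2.trans ?_
    gcongr
  have h5 : (T : ℝ) * VV K z U.card * |M - P| ≤ (T : ℝ) * VV K z U.card * ((C : ℝ) / Real.sqrt z * ∏ i ∈ U, Γc i) :=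
    mul_le_mul_of_nonneg_left h4 hT0
  have h6 : Real.exp (-(b0 : ℝ)) * ((T : ℝ) * VV K z U.card * ∏ i ∈ U, ∑ B ∈ D i, |f i B| / (B : ℝ)) ≤
      Real.exp (-(b0 : ℝ)) * ((T : ℝ) * VV K z U.card * ∏ i ∈ U, A1 i) :=
    mul_le_mul_of_nonneg_left (mul_le_mul_of_nonneg_left hA1' hT0) (Real.exp_pos _).le
  have h7 : (z : ℝ) ^ (3 * (4 * b0 + 10)) * ∏ i ∈ U, ∑ B ∈ D i, |f i B| ≤
      (z : ℝ) ^ (3 * (4 * b0 + 10)) * ∏ i ∈ U, A2 i :=
    mul_le_mul_of_nonneg_left hA2' (by positivity)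
  calc |S - (T : ℝ) * VV K z U.card * M| + (T : ℝ) * VV K z U.card * |M - P|
      ≤ (Real.exp (-(b0 : ℝ)) * ((T : ℝ) * VV K z U.card * ∏ i ∈ U, A1 i) +
          (z : ℝ) ^ (3 * (4 * b0 + 10)) * ∏ i ∈ U, A2 i) +
          (T : ℝ) * VV K z U.card * ((C : ℝ) / Real.sqrt z * ∏ i ∈ U, Γc i) := by
        linarith
    _ = _ := by ring

end H69PG
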