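import Pool.Agent.H69.PG.CoB

/-!
# FIN: the theorem

Put `Λ = max lam 1`, `r1 = min r (1/2)`, `K = ⌊Λ log x⌋₊`, `z0 = ⌊log x/100⌋₊`, `Q0 = primorial z0 ≤ x^(1/50)` (`prim_le`), `T = ⌊x/Q0⌋₊`. For `b < Q0` let
`S_b = {k ∈ Icc 1 K : (X+1+b+k, Q0) = 1}`. `∑_{b < Q0} |S_b| = K φ(Q0)` (for every `k` the numbers `X+1+b+k` run through a complete residue system), so at least `Q0/2` of the `b` are good:
`|S_b| ≤ 2 K φ(Q0)/Q0`. For a good `b` use `core` (exponent `A + 1`, `r1`) with `ι = {k // k ∈ S_b}`, `cc k = X+1+b+k ≤ x^A + 1 + x^(1/50) + Λ log x ≤ x^(A+1)`; `Fm`: primes dividing `Q0` are `≤ z0 ≤ K`,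
`|k - k'| ≤ K`. For each `t < T` counted there put `n = X+1+b+Q0 t`: `X < n ≤ X + Q0 T ≤ X + ⌊x⌋₊`, and different `(b,t)` give different `n`. Every `k'` with `n < k' ≤ n + lam log x` is `n + k`, `1 ≤ k ≤ K`: if `(n+k, Q0) = 1`
then `k ∈ S_b` and some prime `p ≤ x^r1` divides `n + k = Q0 t + cc k`; otherwise a prime `p ≤ z0 ≤ x^r1` divides it. So `minFac k' ≤ x^r1 ≤ x^r`, and if `k'` is prime then `n < k' = p ≤ x^(1/2)`.
The number of `n` is at least `(Q0/2) c T - x^(1/2) ≥ (c/4) x - x^(1/2) ≥ (c/8) x` for large `x` (`Q0 T ≥ x - Q0 ≥ x/2`).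
-/

open Finset EG

namespace H69PG

theorem Fin_count (Q0 X k : ℕ) :
    ((range Q0).filter (fun b => Nat.Coprime (X + 1 + b + k) Q0)).card = Nat.totient Q0 := by
  rw [← Nat.filter_coprime_Ico_eq_totient Q0 (X + 1 + k), Finset.card_filter, Finset.card_filter,
    Finset.sum_Ico_eq_sum_range, Nat.add_sub_cancel_left]
  refine Finset.sum_congr rfl fun b _ => ?_
  refine if_congr ?_ rfl rfl
  have e : X + 1 + b + k = X + 1 + k + b := by ring
  rw [e]
  exact Nat.coprime_comm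

theorem Fin_sum (Q0 X K : ℕ) :
    ∑ b ∈ range Q0, ((Icc 1 K).filter (fun k => Nat.Coprime (X + 1 + b + k) Q0)).card
      = K * Nat.totient Q0 := by
  simp only [Finset.card_filter]
  rw [Finset.sum_comm]
  have h : ∀ k ∈ Icc 1 K, (∑ b ∈ range Q0, if Nat.Coprime (X + 1 + b + k) Q0 then 1 else 0)
      = Nat.totient Q0 := by
    intro k _
    rw [← Finset.card_filter]
    exact Fin_count Q0 X k
  rw [Finset.sum_congr rfl h]
  simp

open Classical in
theorem Fin_good (Q0 X K : ℕ) (hQ : 0 < Q0) (hK : 0 < K) :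
    (Q0 : ℝ) / 2 ≤ (((range Q0).filter (fun b =>
      (((Icc 1 K).filter (fun k => Nat.Coprime (X + 1 + b + k) Q0)).card : ℝ) ≤
        2 * (K : ℝ) * ((Nat.totient Q0 : ℝ) / (Q0 : ℝ)))).card : ℝ) := by
  have hQ' : (0 : ℝ) < Q0 := by exact_mod_cast hQ
  have hφ : (0 : ℝ) < Nat.totient Q0 := by exact_mod_cast Nat.totient_pos.2 hQ
  have hK' : (0 : ℝ) < K := by exact_mod_cast hK
  have h1 : (∑ b ∈ range Q0,
      (((Icc 1 K).filter (fun k => Nat.Coprime (X + 1 + b + k) Q0)).card : ℝ)) = K * Nat.totient Q0 := by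
    exact_mod_cast Fin_sum Q0 X K
  set s : ℕ → ℝ := fun b => (((Icc 1 K).filter (fun k => Nat.Coprime (X + 1 + b + k) Q0)).card : ℝ) with hs
  have hs0 : ∀ b, 0 ≤ s b := fun b => Nat.cast_nonneg _
  set β : ℝ := 2 * (K : ℝ) * ((Nat.totient Q0 : ℝ) / (Q0 : ℝ)) with hβ
  have hβ0 : 0 < β := by positivity
  have h1' : ∑ b ∈ range Q0, s b = K * Nat.totient Q0 := h1
  have h2 : (((range Q0).filter (fun b => ¬ s b ≤ β)).card : ℝ) * β ≤ K * Nat.totient Q0 := by
    rw [← h1', ← nsmul_eq_mul]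
    refine (Finset.card_nsmul_le_sum _ s _ ?_).trans
      (Finset.sum_le_sum_of_subset_of_nonneg (Finset.filter_subset _ _) fun b _ _ => hs0 b)
    intro b hb
    exact (not_le.1 (Finset.mem_filter.1 hb).2).le
  have h3 : (((range Q0).filter (fun b => ¬ s b ≤ β)).card : ℝ) ≤ Q0 / 2 := by
    have e : (K : ℝ) * Nat.totient Q0 = Q0 / 2 * β := by
      rw [hβ]
      field_simp
    rw [e] at h2
    exact le_of_mul_le_mul_right h2 hβ0
  have h4 : ((range Q0).filter (fun b => s b ≤ β)).card +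
      ((range Q0).filter (fun b => ¬ s b ≤ β)).card = Q0 := by
    rw [Finset.card_filter_add_card_filter_not, Finset.card_range]
  have h5 : (((range Q0).filter (fun b => s b ≤ β)).card : ℝ) +
      (((range Q0).filter (fun b => ¬ s b ≤ β)).card : ℝ) = Q0 := by
    exact_mod_cast h4
  have h6 : (Q0 : ℝ) / 2 ≤ (((range Q0).filter (fun b => s b ≤ β)).card : ℝ) := by linarith
  exact h6

theorem Fin_ev {L r1 c0 x1 : ℝ} (hL : 1 ≤ L) (hr1 : 0 < r1) (hc : 0 < c0) :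
    ∃ x0 : ℝ, ∀ x : ℝ, x0 ≤ x →
      x1 ≤ x ∧ 1 ≤ x ∧ 1 ≤ Real.log x ∧ 2 + x ^ (1 / 50 : ℝ) + L * Real.log x ≤ x ∧
      Real.log x / 100 ≤ x ^ r1 ∧ x ^ (1 / 50 : ℝ) ≤ x / 2 ∧ x ^ (1 / 2 : ℝ) + 1 ≤ c0 / 8 * x := by
  have hL0 : 0 < L := by linarith
  have e1 := Filter.eventually_ge_atTop x1
  have e2 := Filter.eventually_ge_atTop (Real.exp 1)
  have e3 := (isLittleO_log_rpow_atTop (r := 1) one_pos).bound
    (show (0 : ℝ) < 1 / (4 * L) by positivity)
  have e4 := (isLittleO_log_rpow_atTop hr1).bound (show (0 : ℝ) < 1 by norm_num)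
  have e5 := (tendsto_rpow_atTop (show (0 : ℝ) < 1 / 2 by norm_num)).eventually_ge_atTop 8
  have e6 := (tendsto_rpow_atTop (show (0 : ℝ) < 1 / 2 by norm_num)).eventually_ge_atTop (16 / c0)
  refine Filter.eventually_atTop.1 ?_
  filter_upwards [e1, e2, e3, e4, e5, e6] with x a1 a2 a3 a4 a5 a6
  have hx1 : 1 ≤ x := by
    have := Real.add_one_le_exp (1 : ℝ)
    linarith
  have hx0 : 0 < x := by linarith
  have hlog : 1 ≤ Real.log x := by
    rw [← Real.log_exp 1]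
    exact Real.log_le_log (Real.exp_pos 1) a2
  have hsq : x ^ (1 / 2 : ℝ) * x ^ (1 / 2 : ℝ) = x := by
    rw [← Real.rpow_add hx0]
    norm_num
  have h50 : x ^ (1 / 50 : ℝ) ≤ x ^ (1 / 2 : ℝ) := Real.rpow_le_rpow_of_exponent_le hx1 (by norm_num)
  set y := x ^ (1 / 2 : ℝ)
  have hy : y ≤ x / 8 := by nlinarith
  have a3' : Real.log x ≤ 1 / (4 * L) * x := by
    have := (le_abs_self (Real.log x)).trans a3
    rwa [Real.rpow_one, Real.norm_eq_abs, abs_of_pos hx0] at this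
  have a3'' : L * Real.log x ≤ x / 4 := by
    have := mul_le_mul_of_nonneg_left a3' hL0.le
    have e : L * (1 / (4 * L) * x) = x / 4 := by field_simp
    linarith
  have a4' : Real.log x ≤ x ^ r1 := by
    have := (le_abs_self (Real.log x)).trans a4
    rwa [one_mul, Real.norm_eq_abs, abs_of_pos (Real.rpow_pos_of_pos hx0 r1)] at this
  have hx8 : 64 ≤ x := by nlinarith
  refine ⟨a1, hx1, hlog, ?_, ?_, ?_, ?_⟩
  · linarith
  · linarith
  · linarith
  · rw [div_le_iff₀ hc] at a6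
    nlinarith

open Classical in
/-- one residue class -/
theorem Fin_map (Q0 X T : ℕ) (B : Finset ℕ) (G : ℕ → Finset ℕ) (c : ℝ) (hQ : 0 < Q0)
    (hB : B ⊆ range Q0) (hG : ∀ b ∈ B, G b ⊆ range T) (hc : ∀ b ∈ B, c ≤ ((G b).card : ℝ)) :
    (B.card : ℝ) * c ≤ ((((B.sigma G).image (fun p => X + 1 + p.1 + Q0 * p.2))).card : ℝ) := by
  rw [Finset.card_image_of_injOn]
  · rw [Finset.card_sigma, Nat.cast_sum, ← nsmul_eq_mul]
    exact Finset.card_nsmul_le_sum _ _ _ hc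
  · rintro ⟨b, t⟩ h ⟨b', t'⟩ h' e
    simp only [Finset.coe_sigma, Set.mem_sigma_iff, Finset.mem_coe] at h h'
    have hb := Finset.mem_range.1 (hB h.1)
    have hb' := Finset.mem_range.1 (hB h'.1)
    have e' : X + 1 + b + Q0 * t = X + 1 + b' + Q0 * t' := e
    have e2 : b + Q0 * t = b' + Q0 * t' := by omega
    have e3 : b = b' := by
      have := congrArg (fun n => n % Q0) e2
      simpa [Nat.add_mul_mod_self_left, Nat.mod_eq_of_lt hb, Nat.mod_eq_of_lt hb'] using this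
    have e4 : t = t' := by
      rw [e3] at e2
      exact Nat.eq_of_mul_eq_mul_left hQ (Nat.add_left_cancel e2)
    rw [e3, e4]

theorem Fin_Fm (X b K z0 : ℕ) (hz : z0 ≤ K) (S : Finset ℕ) (hS : S ⊆ Icc 1 K) :
    Fm K (primorial z0) (fun k : {k // k ∈ S} => X + 1 + b + k.1) where
  pos := primorial_pos z0
  pr := fun p hp hd => (hp.dvd_primorial_iff.1 hd).trans hz
  inj := by
    intro i j h
    have h' : X + 1 + b + i.1 = X + 1 + b + j.1 := h
    exact Subtype.ext (by omega)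
  df := by
    intro i j
    have hi := Finset.mem_Icc.1 (hS i.2)
    have hj := Finset.mem_Icc.1 (hS j.2)
    rw [abs_le]
    constructor
    · push_cast
      omega
    · push_cast
      omega
  cpos := fun i => by
    show 1 ≤ X + 1 + b + i.1
    omega

open Classical in
theorem fin_main {lam r A : ℝ} (hlam : 0 < lam) (hr : 0 < r) (hA : 0 < A) :
    ∃ c : ℝ, 0 < c ∧ ∃ x0 : ℝ, ∀ x : ℝ, x0 ≤ x → ∀ X : ℕ, (X : ℝ) ≤ x ^ A →
      c * x ≤ (((Ioc X (X + ⌊x⌋₊)).filter (fun n : ℕ => ∀ k : ℕ, n < k → (k : ℝ) ≤ n + lam * Real.log x →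
        ¬ k.Prime ∧ (k.minFac : ℝ) ≤ x ^ r)).card : ℝ) := by
  set L : ℝ := max lam 1 with hLdef
  have hL : 1 ≤ L := le_max_right _ _
  have hlamL : lam ≤ L := le_max_left _ _
  set r1 : ℝ := min r (1 / 2) with hr1def
  have hr1 : 0 < r1 := lt_min hr (by norm_num)
  have hr1r : r1 ≤ r := min_le_left _ _
  have hr1h : r1 ≤ 1 / 2 := min_le_right _ _
  obtain ⟨c0, hc0, x1, hcore⟩ := core hL hr1 (show 0 < A + 1 by linarith)
  obtain ⟨x0, hev⟩ := Fin_ev (x1 := x1) hL hr1 hc0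
  refine ⟨c0 / 8, by positivity, x0, ?_⟩
  intro x hx X hX
  obtain ⟨hx1, h1x, hlog, hsz, hlx, hq, hcx⟩ := hev x hx
  have hx0 : 0 < x := by linarith
  set K : ℕ := ⌊L * Real.log x⌋₊ with hK
  set z0 : ℕ := ⌊Real.log x / 100⌋₊ with hz0
  set Q0 : ℕ := primorial z0 with hQ0
  set T : ℕ := ⌊x / (Q0 : ℝ)⌋₊ with hT
  have hQ : 0 < Q0 := primorial_pos z0
  have hQr : (0 : ℝ) < Q0 := by exact_mod_cast hQ
  have hQle : (Q0 : ℝ) ≤ x ^ (1 / 50 : ℝ) := prim_le h1x
  have hLl : 1 ≤ L * Real.log x := by nlinarith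
  have hKpos : 0 < K := Nat.floor_pos.2 hLl
  have hKle : (K : ℝ) ≤ L * Real.log x := Nat.floor_le (by linarith)
  have hzK : z0 ≤ K := Nat.floor_le_floor (by nlinarith)
  have hzr : (z0 : ℝ) ≤ x ^ r1 := (Nat.floor_le (by positivity)).trans hlx
  set S : ℕ → Finset ℕ := fun b => (Icc 1 K).filter (fun k => Nat.Coprime (X + 1 + b + k) Q0) with hS
  set B : Finset ℕ := (range Q0).filter (fun b =>
      (((Icc 1 K).filter (fun k => Nat.Coprime (X + 1 + b + k) Q0)).card : ℝ) ≤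
        2 * (K : ℝ) * ((Nat.totient Q0 : ℝ) / (Q0 : ℝ))) with hB
  have hBc : (Q0 : ℝ) / 2 ≤ (B.card : ℝ) := Fin_good Q0 X K hQ hKpos
  set G : ℕ → Finset ℕ := fun b => (range T).filter (fun t => ∀ k ∈ S b, ∃ p : ℕ, p.Prime ∧
    (p : ℝ) ≤ x ^ r1 ∧ p ∣ Q0 * t + (X + 1 + b + k)) with hG
  have hGc : ∀ b ∈ B, c0 * (T : ℝ) ≤ ((G b).card : ℝ) := by
    intro b hb
    have hbq := Finset.mem_range.1 (Finset.mem_filter.1 hb).1
    have hbs := (Finset.mem_filter.1 hb).2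
    have hSs : S b ⊆ Icc 1 K := Finset.filter_subset _ _
    have h1 := hcore x hx1 {k // k ∈ S b} (by
      rw [Fintype.card_coe]
      exact hbs) (fun k => X + 1 + b + k.1) (Fin_Fm X b K z0 hzK (S b) hSs) (by
      intro i
      have hi := Finset.mem_Icc.1 (hSs i.2)
      have hiK : (i.1 : ℝ) ≤ K := by exact_mod_cast hi.2
      have hbQ : (b : ℝ) ≤ Q0 := by exact_mod_cast hbq.le
      have hA1 : x ^ (A + 1) = x ^ A * x := by rw [Real.rpow_add hx0, Real.rpow_one]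
      have hA2 : 1 ≤ x ^ A := Real.one_le_rpow h1x hA.le
      rw [hA1]
      push_cast
      have h2 : (X : ℝ) + 1 + b + i.1 ≤ x ^ A + (1 + x ^ (1 / 50 : ℝ) + L * Real.log x) := by linarith
      have h3 : x ^ A + (1 + x ^ (1 / 50 : ℝ) + L * Real.log x) ≤ x ^ A + (x - 1) := by linarith
      have h4 : x ^ A + (x - 1) ≤ x ^ A * x := by nlinarith
      linarith)
    refine h1.trans ?_
    norm_cast
    refine Finset.card_le_card ?_
    intro t ht
    rw [Finset.mem_filter] at ht ⊢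
    exact ⟨ht.1, fun k hk => ht.2 ⟨k, hk⟩⟩
  have hBs : B ⊆ range Q0 := Finset.filter_subset _ _
  have hW := Fin_map Q0 X T B G (c0 * T) hQ hBs (fun b _ => Finset.filter_subset _ _) hGc
  set W : Finset ℕ := (B.sigma G).image (fun p => X + 1 + p.1 + Q0 * p.2) with hWdef
  have hQT : ((Q0 * T : ℕ) : ℝ) ≤ x := by
    have := Nat.floor_le (show 0 ≤ x / (Q0 : ℝ) by positivity)
    rw [le_div_iff₀ hQr] at this
    push_cast
    linarith
  have hQT' : Q0 * T ≤ ⌊x⌋₊ := Nat.le_floor hQT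
  have hTl : x - Q0 ≤ (Q0 : ℝ) * T := by
    have := Nat.lt_floor_add_one (x / (Q0 : ℝ))
    rw [div_lt_iff₀ hQr] at this
    have h2 : (⌊x / (Q0 : ℝ)⌋₊ : ℝ) = T := rfl
    rw [h2] at this
    nlinarith
  have hsub : W ⊆ ((Ioc X (X + ⌊x⌋₊)).filter (fun n : ℕ => ∀ k : ℕ, n < k →
      (k : ℝ) ≤ n + lam * Real.log x → ¬ k.Prime ∧ (k.minFac : ℝ) ≤ x ^ r)) ∪
        range (⌊x ^ (1 / 2 : ℝ)⌋₊ + 1) := by
    intro n hn
    obtain ⟨⟨b, t⟩, hbt, e⟩ := Finset.mem_image.1 hn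
    have e' : X + 1 + b + Q0 * t = n := e
    rw [Finset.mem_sigma] at hbt
    have hb : b ∈ B := hbt.1
    have ht : t ∈ G b := hbt.2
    have hbq := Finset.mem_range.1 (hBs hb)
    have ht1 := Finset.mem_range.1 (Finset.mem_filter.1 ht).1
    have ht2 := (Finset.mem_filter.1 ht).2
    have key : ∀ k : ℕ, n < k → (k : ℝ) ≤ n + lam * Real.log x →
        ∃ p : ℕ, p.Prime ∧ (p : ℝ) ≤ x ^ r1 ∧ p ∣ k := by
      intro k hnk hk
      obtain ⟨j, rfl⟩ := Nat.exists_eq_add_of_lt hnk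
      have hj : ((j + 1 : ℕ) : ℝ) ≤ L * Real.log x := by
        push_cast at hk ⊢
        have : lam * Real.log x ≤ L * Real.log x := mul_le_mul_of_nonneg_right hlamL (by linarith)
        linarith
      have hjK : j + 1 ≤ K := Nat.le_floor hj
      have ek : Q0 * t + (X + 1 + b + (j + 1)) = n + j + 1 := by omega
      by_cases hco : Nat.Coprime (X + 1 + b + (j + 1)) Q0
      · have hmem : j + 1 ∈ S b := Finset.mem_filter.2 ⟨Finset.mem_Icc.2 ⟨by omega, hjK⟩, hco⟩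
        obtain ⟨p, hp, hpr, hd⟩ := ht2 (j + 1) hmem
        rw [ek] at hd
        exact ⟨p, hp, hpr, hd⟩
      · obtain ⟨p, hp, hd1, hd2⟩ := Nat.Prime.not_coprime_iff_dvd.1 hco
        refine ⟨p, hp, ?_, ?_⟩
        · have : p ≤ z0 := hp.dvd_primorial_iff.1 hd2
          have h' : (p : ℝ) ≤ z0 := by exact_mod_cast this
          exact h'.trans hzr
        · rw [← ek]
          exact dvd_add (hd2.mul_right t) hd1
    by_cases hnx : n < ⌊x ^ (1 / 2 : ℝ)⌋₊ + 1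
    · exact Finset.mem_union_right _ (Finset.mem_range.2 hnx)
    · refine Finset.mem_union_left _ (Finset.mem_filter.2 ⟨?_, ?_⟩)
      · rw [Finset.mem_Ioc]
        have h1 : Q0 * (t + 1) ≤ Q0 * T := Nat.mul_le_mul_left _ ht1
        have h2 : Q0 * (t + 1) = Q0 * t + Q0 := by ring
        omega
      · intro k hnk hk
        obtain ⟨p, hp, hpr, hd⟩ := key k hnk hk
        refine ⟨?_, ?_⟩
        · intro hkp
          have hpk : p = k := (Nat.prime_dvd_prime_iff_eq hp hkp).1 hd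
          have h1 : (k : ℝ) ≤ x ^ (1 / 2 : ℝ) := by
            rw [← hpk]
            exact hpr.trans (Real.rpow_le_rpow_of_exponent_le h1x hr1h)
          have h2 : k ≤ ⌊x ^ (1 / 2 : ℝ)⌋₊ := Nat.le_floor h1
          omega
        · have h1 : k.minFac ≤ p := Nat.minFac_le_of_dvd hp.two_le hd
          have h2 : (k.minFac : ℝ) ≤ p := by exact_mod_cast h1
          exact h2.trans (hpr.trans (Real.rpow_le_rpow_of_exponent_le h1x hr1r))
  have hcard := (Finset.card_le_card hsub).trans (Finset.card_union_le _ _)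
  rw [Finset.card_range] at hcard
  have hcard' : (W.card : ℝ) ≤ (((Ioc X (X + ⌊x⌋₊)).filter (fun n : ℕ => ∀ k : ℕ, n < k →
      (k : ℝ) ≤ n + lam * Real.log x → ¬ k.Prime ∧ (k.minFac : ℝ) ≤ x ^ r)).card : ℝ) +
        ((⌊x ^ (1 / 2 : ℝ)⌋₊ : ℝ) + 1) := by exact_mod_cast hcard
  have hfl : (⌊x ^ (1 / 2 : ℝ)⌋₊ : ℝ) ≤ x ^ (1 / 2 : ℝ) := Nat.floor_le (by positivity)
  have hlow : c0 / 4 * x ≤ (B.card : ℝ) * (c0 * T) := by
    have h1 : x / 2 ≤ (Q0 : ℝ) * T := by linarith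
    have h2 : (Q0 : ℝ) / 2 * (c0 * T) ≤ (B.card : ℝ) * (c0 * T) :=
      mul_le_mul_of_nonneg_right hBc (by positivity)
    nlinarith
  linarith

end H69PG
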