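import Pool.Agent.H69.PG.Ab0

/-!
# MKV: Markov's inequality for configurations

`∑_{n ∈ Cf} (∑_i w(n_i)) ms(n) = ∑_i ∑_{n ∈ Cf, n_i ≠ 0} w(n_i) ms(n)` (`w 0 = 0`). Write `n = update n' i a` with `n'_i = 0`, `a = n_i ≥ 1`; then
`n' ∈ Cf` (fewer active coordinates, smaller cost, `v ≥ 0`), `sp n = insert i (sp n')`, `∏ s(n) = s(a) ∏ s(n')` (`s 0 = 1`). So the sum is at most
`∑_{n' ∈ Cf, |sp n'| < N} ∏ s(n') (∑_a w(a) s(a)) ∑_{i ∉ sp n'} V(insert i (sp n')) ≤ (∑_a w(a) s(a)) μ ∑_{n'} ms(n')`.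
-/

open Finset

namespace H69PG

variable {ι : Type} [Fintype ι] [DecidableEq ι]

lemma mkv_sp_erase {m : ℕ} (n : ι → Fin (m + 1)) (i : ι) :
    sp (Function.update n i 0) = (sp n).erase i := by
  ext j
  by_cases h : j = i
  · subst h
    simp [sp]
  · simp [sp, h, Function.update_of_ne h]

lemma mkv_prod {m : ℕ} {s : ℕ → ℝ} (hs0 : s 0 = 1) (n : ι → Fin (m + 1)) (i : ι) :
    s (n i) * ∏ j, s ((Function.update n i 0) j) = ∏ j, s (n j) := by
  rw [← Finset.mul_prod_erase univ (fun j => s (n j)) (mem_univ i),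
    ← Finset.mul_prod_erase univ (fun j => s ((Function.update n i 0) j)) (mem_univ i)]
  simp only [Function.update_self, Fin.val_zero, hs0, one_mul]
  congr 1
  refine Finset.prod_congr rfl fun j hj => ?_
  rw [Function.update_of_ne (Finset.ne_of_mem_erase hj)]

lemma mkv_cost {m : ℕ} {v : ℕ → ℝ} (hv : ∀ a, 0 ≤ v a) (hv0 : v 0 = 0) (n : ι → Fin (m + 1))
    (i : ι) : ∑ j, v ((Function.update n i 0) j) ≤ ∑ j, v (n j) := by
  refine Finset.sum_le_sum fun j _ => ?_
  by_cases h : j = i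
  · subst h
    simp only [Function.update_self, Fin.val_zero, hv0]
    exact hv _
  · rw [Function.update_of_ne h]

theorem mkv {m N : ℕ} {v : ℕ → ℝ} {l : ℝ} {V : Finset ι → ℝ} {μ : ℝ} (h : Vh V μ N) {s w : ℕ → ℝ}
    (hs : ∀ a, 0 ≤ s a) (hs0 : s 0 = 1) (hv : ∀ a, 0 ≤ v a) (hv0 : v 0 = 0) (hw : ∀ a, 0 ≤ w a) (hw0 : w 0 = 0) :
    ∑ n ∈ Cf ι m N v l, (∑ i, w (n i)) * ms V s n ≤ μ * (∑ a ∈ Icc 1 m, s a * w a) * MM m N v l V s := by
  classical
  have hW : ∑ a : Fin (m + 1), s a * w a = ∑ a ∈ Icc 1 m, s a * w a := by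
    rw [Fin.sum_univ_eq_sum_range (fun a => s a * w a) (m + 1), Finset.range_eq_Ico,
      Finset.sum_eq_sum_Ico_succ_bot (by omega), hw0, mul_zero, zero_add]
    rfl
  have hW0 : 0 ≤ ∑ a : Fin (m + 1), s a * w a :=
    Finset.sum_nonneg fun a _ => mul_nonneg (hs _) (hw _)
  have hP0 : ∀ n : ι → Fin (m + 1), 0 ≤ ∏ j, s (n j) := fun n =>
    Finset.prod_nonneg fun j _ => hs _
  -- step 1
  have key : ∀ i : ι, ∑ n ∈ Cf ι m N v l, w (n i) * ms V s n
      ≤ ∑ n ∈ (Cf ι m N v l).filter (fun n => n i = 0 ∧ (sp n).card < N),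
        (∑ a : Fin (m + 1), s a * w a) * ((∏ j, s (n j)) * V (insert i (sp n))) := by
    intro i
    have e1 : ∑ n ∈ Cf ι m N v l, w (n i) * ms V s n
        = ∑ n ∈ (Cf ι m N v l).filter (fun n => n i ≠ 0), w (n i) * ms V s n := by
      symm
      apply Finset.sum_subset (Finset.filter_subset _ _)
      intro n hn hn2
      have : n i = 0 := by
        by_contra hne
        exact hn2 (Finset.mem_filter.2 ⟨hn, hne⟩)
      rw [this, Fin.val_zero, hw0, zero_mul]
    let F : (ι → Fin (m + 1)) × Fin (m + 1) → ℝ := fun p =>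
      (s p.2 * w p.2) * ((∏ j, s (p.1 j)) * V (insert i (sp p.1)))
    have e2 : ∑ n ∈ (Cf ι m N v l).filter (fun n => n i ≠ 0), w (n i) * ms V s n
        = ∑ n ∈ (Cf ι m N v l).filter (fun n => n i ≠ 0), F (Function.update n i 0, n i) := by
      refine Finset.sum_congr rfl fun n hn => ?_
      have hni : n i ≠ 0 := (Finset.mem_filter.1 hn).2
      have hmem : i ∈ sp n := by simp [sp, hni]
      simp only [F]
      rw [mkv_sp_erase, Finset.insert_erase hmem, ms, ← mkv_prod hs0 n i]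
      ring
    rw [e1, e2]
    have hinj : Set.InjOn (fun n : ι → Fin (m + 1) => (Function.update n i 0, n i))
        ((Cf ι m N v l).filter (fun n => n i ≠ 0)) := by
      intro n _ n' _ hnn
      simp only [Prod.mk.injEq] at hnn
      funext j
      by_cases hj : j = i
      · subst hj
        exact hnn.2
      · have := congrFun hnn.1 j
        rwa [Function.update_of_ne hj, Function.update_of_ne hj] at this
    rw [← Finset.sum_image (f := F) (g := fun n : ι → Fin (m + 1) => (Function.update n i 0, n i))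
      hinj]
    have hsub : ((Cf ι m N v l).filter (fun n => n i ≠ 0)).image
        (fun n : ι → Fin (m + 1) => (Function.update n i 0, n i))
        ⊆ ((Cf ι m N v l).filter (fun n => n i = 0 ∧ (sp n).card < N)) ×ˢ
          (univ : Finset (Fin (m + 1))) := by
      intro p hp
      obtain ⟨n, hn, rfl⟩ := Finset.mem_image.1 hp
      rw [Finset.mem_filter] at hn
      obtain ⟨hn1, hn2⟩ := hn
      have hmem : i ∈ sp n := by simp [sp, hn2]
      rw [Cf, Finset.mem_filter] at hn1
      obtain ⟨-, hn3, hn4⟩ := hn1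
      have hc : ((sp n).erase i).card < (sp n).card := Finset.card_erase_lt_of_mem hmem
      rw [Finset.mem_product]
      refine ⟨?_, Finset.mem_univ _⟩
      rw [Finset.mem_filter, Cf, Finset.mem_filter]
      simp only [mkv_sp_erase]
      refine ⟨⟨Finset.mem_univ _, by omega, (mkv_cost hv hv0 n i).trans hn4⟩,
        Function.update_self _ _ _, by omega⟩
    refine (Finset.sum_le_sum_of_subset_of_nonneg hsub fun p _ _ => ?_).trans (le_of_eq ?_)
    · exact mul_nonneg (mul_nonneg (hs _) (hw _)) (mul_nonneg (hP0 _) (h.nonneg _))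
    · rw [Finset.sum_product]
      refine Finset.sum_congr rfl fun n _ => ?_
      simp only [F]
      rw [Finset.sum_mul]
  -- step 2
  calc ∑ n ∈ Cf ι m N v l, (∑ i, w (n i)) * ms V s n
      = ∑ i, ∑ n ∈ Cf ι m N v l, w (n i) * ms V s n := by
        rw [Finset.sum_comm]
        exact Finset.sum_congr rfl fun n _ => Finset.sum_mul _ _ _
    _ ≤ ∑ i, ∑ n ∈ (Cf ι m N v l).filter (fun n => n i = 0 ∧ (sp n).card < N),
        (∑ a : Fin (m + 1), s a * w a) * ((∏ j, s (n j)) * V (insert i (sp n))) :=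
        Finset.sum_le_sum fun i _ => key i
    _ = ∑ n ∈ (Cf ι m N v l).filter (fun n => (sp n).card < N), ∑ i ∈ (sp n)ᶜ,
        (∑ a : Fin (m + 1), s a * w a) * ((∏ j, s (n j)) * V (insert i (sp n))) := by
        apply Finset.sum_comm'
        intro i n
        simp only [Finset.mem_univ, Finset.mem_filter, true_and, Finset.mem_compl, sp,
          not_not]
        tauto
    _ ≤ ∑ n ∈ (Cf ι m N v l).filter (fun n => (sp n).card < N),
        (∑ a : Fin (m + 1), s a * w a) * (μ * ms V s n) := by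
        refine Finset.sum_le_sum fun n hn => ?_
        rw [← Finset.mul_sum, ← Finset.mul_sum]
        refine mul_le_mul_of_nonneg_left ?_ hW0
        calc (∏ j, s (n j)) * ∑ i ∈ (sp n)ᶜ, V (insert i (sp n))
            ≤ (∏ j, s (n j)) * (μ * V (sp n)) :=
              mul_le_mul_of_nonneg_left (h.step _ (Finset.mem_filter.1 hn).2) (hP0 n)
          _ = μ * ms V s n := by rw [ms]; ring
    _ ≤ ∑ n ∈ Cf ι m N v l, (∑ a : Fin (m + 1), s a * w a) * (μ * ms V s n) := by
        refine Finset.sum_le_sum_of_subset_of_nonneg (Finset.filter_subset _ _) fun n _ _ => ?_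
        exact mul_nonneg hW0 (mul_nonneg h.μ_nonneg (mul_nonneg (h.nonneg _) (hP0 n)))
    _ = μ * (∑ a ∈ Icc 1 m, s a * w a) * MM m N v l V s := by
        rw [← Finset.mul_sum, ← Finset.mul_sum, MM, hW]
        ring

end H69PG
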