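import Pool.Agent.H69.PG.Vsm

/-!
# PRS: sums over pairs of configurations

`pairs1`: group the pairs `(n, n')` by `U = sp n ∪ sp n'` (`|U| ≤ 2N`). For given `U` there are at most `(m+1)^(2|U|)` pairs (outside `U` both are
`0`), so the sum is at most `∑_{|U| ≤ 2N} ((m+1)^2)^|U| V(U)`; `vsum2` with `M = 2N`, `a = (m+1)^2`.
`pairs2`: the same with `W = insert k (sp n ∪ sp n')`, `|W| ≤ 2N+1`; `k ∉ sp n ∪ sp n'` because `n k = n' k = 0`. For given `W` there
are at most `|W|` choices of `k ∈ W` and then at most `(m+1)^(2|W|)` pairs. `vsum2` with `M = 2N+1`.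
-/

open Finset

namespace H69PG

variable {ι : Type} [Fintype ι] [DecidableEq ι]

/-- the configurations with support in `U` -/
def Prs_S (m : ℕ) (U : Finset ι) : Finset (ι → Fin (m + 1)) :=
  Fintype.piFinset fun i => if i ∈ U then univ else {0}

theorem Prs_card (m : ℕ) (U : Finset ι) : (Prs_S m U).card = (m + 1) ^ U.card := by
  unfold Prs_S
  rw [Fintype.card_piFinset]
  have h : ∀ i : ι, (if i ∈ U then (univ : Finset (Fin (m + 1))) else {0}).card = if i ∈ U then m + 1 else 1 := by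
    intro i
    split_ifs <;> simp
  rw [Finset.prod_congr rfl fun i _ => h i, Finset.prod_ite_mem, Finset.univ_inter, Finset.prod_const]

theorem Prs_mem {m : ℕ} {U : Finset ι} {n : ι → Fin (m + 1)} (h : sp n ⊆ U) : n ∈ Prs_S m U := by
  unfold Prs_S
  rw [Fintype.mem_piFinset]
  intro i
  split_ifs with hi
  · exact mem_univ _
  · rw [mem_singleton]
    by_contra hn
    exact hi (h (by
      unfold sp
      rw [mem_filter]
      exact ⟨mem_univ _, hn⟩))

theorem Prs_fib {m : ℕ} {V : Finset ι → ℝ} (hV : ∀ U, 0 ≤ V U)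
    (P : Finset ((ι → Fin (m + 1)) × (ι → Fin (m + 1))))
    (φ : (ι → Fin (m + 1)) × (ι → Fin (m + 1)) → Finset ι) (F : Finset (Finset ι)) (hφ : ∀ p ∈ P, φ p ∈ F)
    (hs : ∀ p ∈ P, sp p.1 ⊆ φ p ∧ sp p.2 ⊆ φ p) :
    ∑ p ∈ P, V (φ p) ≤ ∑ W ∈ F, (((m : ℝ) + 1) ^ 2) ^ W.card * V W := by
  rw [← Finset.sum_fiberwise_of_maps_to hφ]
  refine Finset.sum_le_sum fun W _ => ?_
  have h1 : ∑ p ∈ P with φ p = W, V (φ p) = ((P.filter fun p => φ p = W).card : ℝ) * V W := by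
    rw [Finset.sum_congr rfl (g := fun _ => V W) (fun p hp => by rw [(mem_filter.1 hp).2]), Finset.sum_const,
      nsmul_eq_mul]
  rw [h1]
  refine mul_le_mul_of_nonneg_right ?_ (hV W)
  have h2 : (P.filter fun p => φ p = W).card ≤ (Prs_S m W ×ˢ Prs_S m W).card := by
    refine Finset.card_le_card fun p hp => ?_
    obtain ⟨hp1, hp2⟩ := mem_filter.1 hp
    have h3 := hs p hp1
    rw [hp2] at h3
    exact mem_product.2 ⟨Prs_mem h3.1, Prs_mem h3.2⟩
  rw [Finset.card_product, Prs_card] at h2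
  have h3 : (((m : ℝ) + 1) ^ 2) ^ W.card = (((m + 1) ^ W.card * (m + 1) ^ W.card : ℕ) : ℝ) := by
    push_cast
    rw [← pow_mul, ← pow_add]
    congr 1
    ring
  rw [h3]
  exact_mod_cast h2

theorem Prs_Cf {m N : ℕ} {v : ℕ → ℝ} {l : ℝ} {n : ι → Fin (m + 1)} (h : n ∈ Cf ι m N v l) : (sp n).card ≤ N := by
  unfold Cf at h
  exact (mem_filter.1 h).2.1

theorem pairs1 {m N : ℕ} {v : ℕ → ℝ} {l : ℝ} {V : Finset ι → ℝ} {μ : ℝ} (h : Vh V μ (2 * N)) :
    ∑ n ∈ Cf ι m N v l, ∑ n' ∈ Cf ι m N v l, V (sp n ∪ sp n') ≤ (1 + ((m : ℝ) + 1) ^ 2 * μ) ^ (2 * N) := by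
  rw [← Finset.sum_product']
  refine le_trans (Prs_fib h.nonneg (Cf ι m N v l ×ˢ Cf ι m N v l) (fun p => sp p.1 ∪ sp p.2)
    ((univ : Finset (Finset ι)).filter (fun U => U.card ≤ 2 * N)) ?_ ?_) (vsum2 h (by positivity))
  · intro p hp
    obtain ⟨h1, h2⟩ := mem_product.1 hp
    have h3 := Prs_Cf h1
    have h4 := Prs_Cf h2
    have h5 := Finset.card_union_le (sp p.1) (sp p.2)
    exact mem_filter.2 ⟨mem_univ _, by omega⟩
  · intro p _
    exact ⟨subset_union_left, subset_union_right⟩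

theorem pairs2 {m N : ℕ} {v : ℕ → ℝ} {l : ℝ} {V : Finset ι → ℝ} {μ : ℝ} (h : Vh V μ (2 * N + 1)) :
    ∑ k : ι, ∑ n ∈ (Cf ι m N v l).filter (fun n => n k = 0), ∑ n' ∈ (Cf ι m N v l).filter (fun n => n k = 0),
      V (insert k (sp n ∪ sp n')) ≤ (2 * (N : ℝ) + 1) * (1 + ((m : ℝ) + 1) ^ 2 * μ) ^ (2 * N + 1) := by
  obtain ⟨a, ha⟩ : ∃ a : ℝ, a = ((m : ℝ) + 1) ^ 2 := ⟨_, rfl⟩
  obtain ⟨F, hF⟩ : ∃ F, F = (univ : Finset (Finset ι)).filter (fun U => U.card ≤ 2 * N + 1) := ⟨_, rfl⟩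
  have ha0 : 0 ≤ a := by rw [ha]; positivity
  have h1 : ∀ k : ι, ∑ n ∈ (Cf ι m N v l).filter (fun n => n k = 0), ∑ n' ∈ (Cf ι m N v l).filter (fun n => n k = 0),
      V (insert k (sp n ∪ sp n')) ≤ ∑ W ∈ F, if k ∈ W then a ^ W.card * V W else 0 := by
    intro k
    rw [← Finset.sum_product', ← Finset.sum_filter, ha]
    refine Prs_fib h.nonneg _ (fun p => insert k (sp p.1 ∪ sp p.2)) _ ?_ ?_
    · intro p hp
      obtain ⟨h1, h2⟩ := mem_product.1 hp
      have h3 := Prs_Cf (mem_filter.1 h1).1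
      have h4 := Prs_Cf (mem_filter.1 h2).1
      have h5 := Finset.card_union_le (sp p.1) (sp p.2)
      have h6 := Finset.card_insert_le k (sp p.1 ∪ sp p.2)
      rw [hF]
      exact mem_filter.2 ⟨mem_filter.2 ⟨mem_univ _, by omega⟩, mem_insert_self _ _⟩
    · intro p _
      exact ⟨subset_union_left.trans (subset_insert _ _), subset_union_right.trans (subset_insert _ _)⟩
  refine (Finset.sum_le_sum fun k _ => h1 k).trans ?_
  rw [Finset.sum_comm]
  have h2 : ∀ W ∈ F, ∑ k : ι, (if k ∈ W then a ^ W.card * V W else 0) ≤ (2 * (N : ℝ) + 1) * (a ^ W.card * V W) := by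
    intro W hW
    rw [Finset.sum_ite_mem, Finset.univ_inter, Finset.sum_const, nsmul_eq_mul]
    refine mul_le_mul_of_nonneg_right ?_ (mul_nonneg (pow_nonneg ha0 _) (h.nonneg W))
    rw [hF] at hW
    have h3 := (mem_filter.1 hW).2
    exact_mod_cast h3
  refine (Finset.sum_le_sum h2).trans ?_
  rw [← Finset.mul_sum, hF]
  refine mul_le_mul_of_nonneg_left ?_ (by positivity)
  have h4 := vsum2 h ha0
  rw [ha] at h4 ⊢
  exact h4

end H69PG
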