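import Pool.Agent.H69.PG.Crt
import Pool.Agent.H69.PG.Bh

/-!
# SC: the sieve for several linear forms

`bh` with the finite set `{t < T : ∀ i, D i ∣ Q0 t + c i}`, `B t p` = `∃ i, p ∣ Q0 t + c i`, `Y = T/∏ D i`, `r = 1`; the hypothesis is `crt`. `∏ i, th0 K z (Q0 t + c i)` is the
indicator of: no `p ∈ PK K z` with `B t p`.
-/

open Finset EG

namespace H69PG

theorem card_dec (s : Finset ℕ) (p : ℕ → Prop) (d1 d2 : DecidablePred p) :
    (@Finset.filter ℕ p d1 s).card = (@Finset.filter ℕ p d2 s).card := by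
  rw [Subsingleton.elim d1 d2]

open Classical in
theorem sc (j : ℕ) : ∃ C : ℕ, ∀ b0 : ℕ, C ≤ b0 → ∀ (ι : Type) [Fintype ι] [DecidableEq ι], Fintype.card ι = j →
    ∀ K z Q0 : ℕ, 2 * j ≤ K → 2 ≤ K → K ≤ z → ∀ c : ι → ℕ, Fm K Q0 c → ∀ T : ℕ, ∀ D : ι → ℕ,
    (∀ i, Squarefree (D i) ∧ Nat.Coprime (D i) (primorial z)) → (∀ i i', i ≠ i' → Nat.Coprime (D i) (D i')) →
    |∑ t ∈ range T, ∏ i, (th0 K z (Q0 * t + c i) * (if D i ∣ Q0 * t + c i then 1 else 0)) -
        (T : ℝ) / (∏ i, (D i : ℝ)) * VV K z j| ≤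
      Real.exp (-(b0 : ℝ)) * ((T : ℝ) / (∏ i, (D i : ℝ)) * VV K z j) + (z : ℝ) ^ (3 * (4 * b0 + 10)) := by
  obtain ⟨C, hC⟩ := bh j
  refine ⟨C, ?_⟩
  intro b0 hb0 ι _ _ hι K z Q0 h2j h2K hKz c hFm T D hD hco
  have h1 := hC b0 hb0 K z h2j h2K hKz ((range T).filter (fun t => ∀ i, D i ∣ Q0 * t + c i))
    (fun t p => ∃ i, p ∣ Q0 * t + c i) ((T : ℝ) / ∏ i, (D i : ℝ)) 1 (by positivity) zero_le_one
    (fun S hS _ => by
      have h2 := crt hKz hFm T D hD hco S hS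
      rw [hι] at h2
      rw [one_mul, Finset.filter_filter]
      refine le_of_eq_of_le ?_ h2
      exact congrArg (fun x : ℕ => |(x : ℝ) - (T : ℝ) / (∏ i, (D i : ℝ)) * ∏ p ∈ S, ((j : ℝ) / p)|)
        (card_dec _ _ _ _))
  rw [one_mul] at h1
  have h3 : ∑ t ∈ range T, ∏ i, (th0 K z (Q0 * t + c i) * (if D i ∣ Q0 * t + c i then 1 else 0)) =
      ((((range T).filter (fun t => ∀ i, D i ∣ Q0 * t + c i)).filter
        (fun t => ∀ p ∈ PK K z, ¬ ∃ i, p ∣ Q0 * t + c i)).card : ℝ) := by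
    rw [Finset.filter_filter, Finset.card_filter]
    push_cast
    refine Finset.sum_congr rfl fun t _ => ?_
    by_cases h : (∀ i, D i ∣ Q0 * t + c i) ∧ ∀ p ∈ PK K z, ¬ ∃ i, p ∣ Q0 * t + c i
    · rw [if_pos h]
      refine Finset.prod_eq_one fun i _ => ?_
      have e1 : th0 K z (Q0 * t + c i) = 1 := by
        unfold th0
        exact if_pos fun p hp hpi => h.2 p hp ⟨i, hpi⟩
      rw [e1, if_pos (h.1 i), one_mul]
    · rw [if_neg h]
      rw [not_and_or] at h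
      rcases h with h | h
      · rw [not_forall] at h
        obtain ⟨i, hi⟩ := h
        refine Finset.prod_eq_zero (Finset.mem_univ i) ?_
        rw [if_neg hi, mul_zero]
      · simp only [not_forall, not_not] at h
        obtain ⟨p, hp, i, hi⟩ := h
        refine Finset.prod_eq_zero (Finset.mem_univ i) ?_
        have e1 : th0 K z (Q0 * t + c i) = 0 := by
          unfold th0
          exact if_neg fun hh => hh p hp hi
        rw [e1, zero_mul]
  rw [h3]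
  refine le_of_eq_of_le ?_ h1
  exact congrArg (fun x : ℕ => |(x : ℝ) - (T : ℝ) / (∏ i, (D i : ℝ)) * VV K z j|) (card_dec _ _ _ _)

end H69PG
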