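import Pool.Agent.H69.PG.Prs

/-!
# SEC: the second moment from below

Expand `Ps^2 = ∑_{n, n'} ∏ g(n) g(n')`, sum over `t`, insert `h1`: the main terms are those with `n = n'`, their sum is
`|T| MM`; the errors are bounded by `pairs1`.
-/

open Finset

namespace H69PG

variable {ι : Type} [Fintype ι] [DecidableEq ι]

theorem sec {m N : ℕ} {v : ℕ → ℝ} {l : ℝ} {V : Finset ι → ℝ} {μ : ℝ} (h : Vh V μ (2 * N)) {s : ℕ → ℝ}
    {T : Finset ℕ} {g : ι → ℕ → ℕ → ℝ} {η : ℝ} (hη : 0 ≤ η)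
    (h1 : ∀ n ∈ Cf ι m N v l, ∀ n' ∈ Cf ι m N v l,
      |∑ t ∈ T, ∏ i, (g i (n i) t * g i (n' i) t) - (T.card : ℝ) * (if n = n' then ms V s n else 0)| ≤
        (T.card : ℝ) * (η * V (sp n ∪ sp n'))) :
    (T.card : ℝ) * (MM m N v l V s - η * (1 + ((m : ℝ) + 1) ^ 2 * μ) ^ (2 * N)) ≤
      ∑ t ∈ T, Ps m N v l g t ^ 2 := by
  have hT : (0 : ℝ) ≤ (T.card : ℝ) := Nat.cast_nonneg _
  have e1 : ∑ t ∈ T, Ps m N v l g t ^ 2 =
      ∑ n ∈ Cf ι m N v l, ∑ n' ∈ Cf ι m N v l, ∑ t ∈ T, ∏ i, (g i (n i) t * g i (n' i) t) := by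
    have : ∀ t ∈ T, Ps m N v l g t ^ 2 =
        ∑ n ∈ Cf ι m N v l, ∑ n' ∈ Cf ι m N v l, ∏ i, (g i (n i) t * g i (n' i) t) := by
      intro t _
      unfold Ps
      rw [sq, Finset.sum_mul_sum]
      refine Finset.sum_congr rfl (fun n _ => Finset.sum_congr rfl (fun n' _ => ?_))
      rw [Finset.prod_mul_distrib]
    rw [Finset.sum_congr rfl this, Finset.sum_comm]
    refine Finset.sum_congr rfl (fun n _ => ?_)
    rw [Finset.sum_comm]
  have e2 : MM m N v l V s = ∑ n ∈ Cf ι m N v l, ∑ n' ∈ Cf ι m N v l, (if n = n' then ms V s n else 0) := by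
    unfold MM
    refine Finset.sum_congr rfl (fun n hn => ?_)
    rw [Finset.sum_ite_eq, if_pos hn]
  have hp := pairs1 (m := m) (N := N) (v := v) (l := l) h
  have e3 : (T.card : ℝ) * (MM m N v l V s -
      η * ∑ n ∈ Cf ι m N v l, ∑ n' ∈ Cf ι m N v l, V (sp n ∪ sp n')) ≤ ∑ t ∈ T, Ps m N v l g t ^ 2 := by
    rw [e1, e2, mul_sub, Finset.mul_sum, Finset.mul_sum, Finset.mul_sum, ← Finset.sum_sub_distrib]
    refine Finset.sum_le_sum (fun n hn => ?_)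
    rw [Finset.mul_sum, Finset.mul_sum, Finset.mul_sum, ← Finset.sum_sub_distrib]
    refine Finset.sum_le_sum (fun n' hn' => ?_)
    have := (abs_le.1 (h1 n hn n' hn')).1
    linarith
  refine le_trans ?_ e3
  have := mul_le_mul_of_nonneg_left hp hη
  exact mul_le_mul_of_nonneg_left (by linarith) hT

end H69PG
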