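import Pool.Agent.H69.PG.Ab0

/-!
# VSM: sums of `V` over sets of given size

`vsum`: induction on `j`: `(j+1) ∑_{|U| = j+1} V(U) = ∑_{|A| = j} ∑_{k ∉ A} V(A ∪ {k}) ≤ μ ∑_{|A| = j} V(A)` (every `U` with `j+1` elements
is `insert k A` for exactly `j+1` pairs `(A, k)`).
`vsum2`: group by the cardinality `j`, `∑_{j ≤ M} a^j μ^j/j! ≤ ∑_j choose(M,j) (a μ)^j = (1 + a μ)^M`.
-/

open Finset

namespace H69PG

variable {ι : Type} [Fintype ι] [DecidableEq ι]

theorem Vsm_count (V : Finset ι → ℝ) (j : ℕ) :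
    ((j : ℝ) + 1) * ∑ U ∈ (univ : Finset (Finset ι)).filter (fun U => U.card = j + 1), V U =
      ∑ A ∈ (univ : Finset (Finset ι)).filter (fun A => A.card = j), ∑ k ∈ Aᶜ, V (insert k A) := by
  have h1 : ((j : ℝ) + 1) * ∑ U ∈ (univ : Finset (Finset ι)).filter (fun U => U.card = j + 1), V U =
      ∑ U ∈ (univ : Finset (Finset ι)).filter (fun U => U.card = j + 1), ∑ _k ∈ U, V U := by
    rw [Finset.mul_sum]
    refine Finset.sum_congr rfl fun U hU => ?_
    rw [Finset.mem_filter] at hU
    rw [Finset.sum_const, hU.2, nsmul_eq_mul]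
    push_cast
    ring
  rw [h1, Finset.sum_sigma', Finset.sum_sigma']
  refine Finset.sum_bij' (fun x _ => (⟨x.1.erase x.2, x.2⟩ : Σ _ : Finset ι, ι))
    (fun x _ => (⟨insert x.2 x.1, x.2⟩ : Σ _ : Finset ι, ι)) ?_ ?_ ?_ ?_ ?_
  · rintro ⟨U, k⟩ h
    simp only [Finset.mem_sigma, Finset.mem_filter, Finset.mem_univ, true_and,
      Finset.mem_compl] at h ⊢
    refine ⟨?_, Finset.notMem_erase k U⟩
    rw [Finset.card_erase_of_mem h.2, h.1]
    rfl
  · rintro ⟨A, k⟩ h
    simp only [Finset.mem_sigma, Finset.mem_filter, Finset.mem_univ, true_and,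
      Finset.mem_compl] at h ⊢
    refine ⟨?_, Finset.mem_insert_self k A⟩
    rw [Finset.card_insert_of_notMem h.2, h.1]
  · rintro ⟨U, k⟩ h
    simp only [Finset.mem_sigma] at h
    show (⟨insert k (U.erase k), k⟩ : Σ _ : Finset ι, ι) = ⟨U, k⟩
    rw [Finset.insert_erase h.2]
  · rintro ⟨A, k⟩ h
    simp only [Finset.mem_sigma, Finset.mem_compl] at h
    show (⟨(insert k A).erase k, k⟩ : Σ _ : Finset ι, ι) = ⟨A, k⟩
    rw [Finset.erase_insert h.2]
  · rintro ⟨U, k⟩ h
    simp only [Finset.mem_sigma] at h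
    show V U = V (insert k (U.erase k))
    rw [Finset.insert_erase h.2]

theorem vsum {V : Finset ι → ℝ} {μ : ℝ} {M : ℕ} (h : Vh V μ M) (j : ℕ) (hj : j ≤ M) :
    ∑ U ∈ (univ : Finset (Finset ι)).filter (fun U => U.card = j), V U ≤ μ ^ j / (j.factorial : ℝ) := by
  induction j with
  | zero =>
    have e : (univ : Finset (Finset ι)).filter (fun U => U.card = 0) = {∅} := by
      ext U
      rw [Finset.mem_filter, Finset.mem_singleton, Finset.card_eq_zero]
      exact ⟨fun h => h.2, fun h => ⟨Finset.mem_univ _, h⟩⟩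
    rw [e, Finset.sum_singleton, h.empty]
    simp
  | succ j ih =>
    have ih' := ih (by omega)
    have h1 := Vsm_count V j
    have h2 : ∑ A ∈ (univ : Finset (Finset ι)).filter (fun A => A.card = j), ∑ k ∈ Aᶜ, V (insert k A) ≤
        μ * ∑ A ∈ (univ : Finset (Finset ι)).filter (fun A => A.card = j), V A := by
      rw [Finset.mul_sum]
      refine Finset.sum_le_sum fun A hA => ?_
      rw [Finset.mem_filter] at hA
      exact h.step A (by omega)
    rw [← h1] at h2
    have h3 := h2.trans (mul_le_mul_of_nonneg_left ih' h.μ_nonneg)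
    have hj0 : (0 : ℝ) < (j : ℝ) + 1 := by positivity
    have hf : (0 : ℝ) < (j.factorial : ℝ) := by exact_mod_cast Nat.factorial_pos j
    have e : μ ^ (j + 1) / ((j + 1).factorial : ℝ) = (μ * (μ ^ j / (j.factorial : ℝ))) / ((j : ℝ) + 1) := by
      rw [Nat.factorial_succ]
      push_cast
      field_simp
      ring
    rw [e, le_div_iff₀ hj0, mul_comm]
    exact h3

theorem vsum2 {V : Finset ι → ℝ} {μ : ℝ} {M : ℕ} (h : Vh V μ M) {a : ℝ} (ha : 0 ≤ a) :
    ∑ U ∈ (univ : Finset (Finset ι)).filter (fun U => U.card ≤ M), a ^ U.card * V U ≤ (1 + a * μ) ^ M := by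
  have hμ := h.μ_nonneg
  have h1 : ∑ U ∈ (univ : Finset (Finset ι)).filter (fun U => U.card ≤ M), a ^ U.card * V U =
      ∑ j ∈ range (M + 1), ∑ U ∈ (univ : Finset (Finset ι)).filter (fun U => U.card = j), a ^ j * V U := by
    rw [← Finset.sum_fiberwise_of_maps_to (s := (univ : Finset (Finset ι)).filter (fun U => U.card ≤ M))
      (t := range (M + 1)) (g := fun U => U.card)
      (fun U hU => by
        rw [Finset.mem_filter] at hU
        rw [Finset.mem_range]
        omega)]
    refine Finset.sum_congr rfl fun j hj => ?_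
    rw [Finset.mem_range] at hj
    have e : ((univ : Finset (Finset ι)).filter (fun U => U.card ≤ M)).filter (fun U => U.card = j) =
        (univ : Finset (Finset ι)).filter (fun U => U.card = j) := by
      ext U
      simp only [Finset.mem_filter, Finset.mem_univ, true_and]
      omega
    rw [e]
    refine Finset.sum_congr rfl fun U hU => ?_
    rw [Finset.mem_filter] at hU
    rw [hU.2]
  rw [h1, add_comm 1 (a * μ), add_pow]
  refine Finset.sum_le_sum fun j hj => ?_
  rw [Finset.mem_range] at hj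
  have hjM : j ≤ M := by omega
  rw [← Finset.mul_sum, one_pow, mul_one]
  have h2 := vsum h j hjM
  have hf : (1 : ℝ) ≤ (j.factorial : ℝ) := by exact_mod_cast Nat.factorial_pos j
  have hc : (1 : ℝ) ≤ (M.choose j : ℝ) := by exact_mod_cast Nat.choose_pos hjM
  have h3 : μ ^ j / (j.factorial : ℝ) ≤ μ ^ j := div_le_self (by positivity) hf
  have h4 : a ^ j * ∑ U ∈ (univ : Finset (Finset ι)).filter (fun U => U.card = j), V U ≤ a ^ j * μ ^ j :=
    mul_le_mul_of_nonneg_left (h2.trans h3) (by positivity)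
  refine h4.trans ?_
  rw [← mul_pow]
  have h5 : 0 ≤ (a * μ) ^ j := by positivity
  nlinarith

end H69PG
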