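import Pool.Agent.H69.PG.Ar0

/-!
# ZFL: size of the parameters

`zf ε x = ⌊x^ε⌋`. `zfl`: `x^ε - 1 ≤ zf ≤ x^ε`, and `x^ε - 1 ≥ x^(ε/2)` for large `x`. `zf_zero`: `x^0 = 1`. `zf_mono`: `x ≥ 1`.
`tlow`: `primorial n ≤ 4^n` (Mathlib `primorial_le_4_pow`), so with `n = ⌊log x/100⌋₊`: `primorial n ≤ e^(log 4 log x/100) = x^(log 4/100) ≤ x^(1/50)`, `x/primorial n ≥ x^(49/50)`, minus `1`.
`vs` are the costs `v/B^(m-a)` (`a ≥ 1`), `vs 0 = 0`.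
-/

open Finset EG

namespace H69PG

/-- `⌊x^ε⌋` -/
noncomputable def zf (ε x : ℝ) : ℕ := ⌊x ^ ε⌋₊

/-- the costs of the scales -/
noncomputable def vs (B m : ℕ) (v : ℝ) (a : ℕ) : ℝ := if a = 0 then 0 else v / (B : ℝ) ^ (m - a)

theorem zf_zero (x : ℝ) : zf 0 x = 1 := by
  unfold zf
  rw [Real.rpow_zero, Nat.floor_one]

theorem zf_le {ε x : ℝ} (hx : 0 ≤ x) : (zf ε x : ℝ) ≤ x ^ ε :=
  Nat.floor_le (Real.rpow_nonneg hx ε)

theorem zf_mono {ε ε' x : ℝ} (hx : 1 ≤ x) (h : ε ≤ ε') : zf ε x ≤ zf ε' x :=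
  Nat.floor_mono (Real.rpow_le_rpow_of_exponent_le hx h)

theorem vs_nonneg {B m : ℕ} {v : ℝ} (hv : 0 ≤ v) (a : ℕ) : 0 ≤ vs B m v a := by
  unfold vs
  split_ifs
  · exact le_rfl
  · exact div_nonneg hv (pow_nonneg (Nat.cast_nonneg _) _)

theorem vs_mono {B m : ℕ} {v : ℝ} (hB : 1 ≤ B) (hv : 0 ≤ v) : Monotone (vs B m v) := by
  intro a b hab
  by_cases ha : a = 0
  · have h0 : vs B m v a = 0 := by
      unfold vs
      rw [if_pos ha]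
    rw [h0]
    exact vs_nonneg hv b
  · have hb : b ≠ 0 := by omega
    have hB' : (1 : ℝ) ≤ B := by exact_mod_cast hB
    unfold vs
    rw [if_neg ha, if_neg hb]
    exact div_le_div_of_nonneg_left hv (pow_pos (by linarith) _)
      (pow_le_pow_right₀ hB' (by omega))

theorem vs_le {B m : ℕ} {v : ℝ} (hB : 1 ≤ B) (hv : 0 ≤ v) (a : ℕ) : vs B m v a ≤ v := by
  have hB' : (1 : ℝ) ≤ B := by exact_mod_cast hB
  unfold vs
  split_ifs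
  · exact hv
  · exact div_le_self hv (one_le_pow₀ hB')

theorem zfl {ε : ℝ} (hε : 0 < ε) : ∃ x0 : ℝ, ∀ x : ℝ, x0 ≤ x →
    ε / 2 * Real.log x ≤ Real.log (zf ε x) ∧ Real.log (zf ε x) ≤ ε * Real.log x := by
  refine ⟨(2 : ℝ) ^ (2 / ε), fun x hx => ?_⟩
  have h0 : (0 : ℝ) < (2 : ℝ) ^ (2 / ε) := Real.rpow_pos_of_pos two_pos _
  have hx0 : 0 < x := h0.trans_le hx
  have hy : (2 : ℝ) ≤ x ^ (ε / 2) := by
    have h1 : ((2 : ℝ) ^ (2 / ε)) ^ (ε / 2) ≤ x ^ (ε / 2) :=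
      Real.rpow_le_rpow h0.le hx (by positivity)
    rw [← Real.rpow_mul two_pos.le] at h1
    have h2 : 2 / ε * (ε / 2) = 1 := by
      field_simp
    rw [h2, Real.rpow_one] at h1
    exact h1
  have hsq : x ^ ε = x ^ (ε / 2) * x ^ (ε / 2) := by
    rw [← Real.rpow_add hx0]
    congr 1
    ring
  have hge : x ^ (ε / 2) ≤ x ^ ε - 1 := by
    rw [hsq]
    nlinarith
  have hfl : x ^ ε < (zf ε x : ℝ) + 1 := Nat.lt_floor_add_one _
  have hzl : x ^ (ε / 2) ≤ (zf ε x : ℝ) := by linarith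
  have hzpos : (0 : ℝ) < (zf ε x : ℝ) := by linarith
  constructor
  · rw [← Real.log_rpow hx0]
    exact Real.log_le_log (by linarith) hzl
  · rw [← Real.log_rpow hx0]
    exact Real.log_le_log hzpos (zf_le hx0.le)

theorem prim_le {x : ℝ} (hx : 1 ≤ x) : (primorial ⌊Real.log x / 100⌋₊ : ℝ) ≤ x ^ (1 / 50 : ℝ) := by
  have hx0 : 0 < x := by linarith
  have hl : 0 ≤ Real.log x := Real.log_nonneg hx
  have h1 : (primorial ⌊Real.log x / 100⌋₊ : ℝ) ≤ (4 : ℝ) ^ ⌊Real.log x / 100⌋₊ := by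
    exact_mod_cast primorial_le_four_pow _
  have h2 : ((4 : ℝ) ^ ⌊Real.log x / 100⌋₊) = Real.exp (Real.log 4 * (⌊Real.log x / 100⌋₊ : ℕ)) := by
    rw [← Real.rpow_natCast, Real.rpow_def_of_pos (by norm_num)]
  have h3 : (⌊Real.log x / 100⌋₊ : ℝ) ≤ Real.log x / 100 := Nat.floor_le (by positivity)
  have h4 : Real.log 4 ≤ 2 := by
    have h5 : (4 : ℝ) = 2 ^ (2 : ℕ) := by norm_num
    rw [h5, Real.log_pow]
    have := Real.log_two_lt_d9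
    push_cast
    linarith
  have h4' : 0 ≤ Real.log 4 := Real.log_nonneg (by norm_num)
  refine h1.trans ?_
  rw [h2, Real.rpow_def_of_pos hx0]
  refine Real.exp_le_exp.2 ?_
  calc Real.log 4 * (⌊Real.log x / 100⌋₊ : ℕ) ≤ 2 * (Real.log x / 100) :=
        mul_le_mul h4 h3 (Nat.cast_nonneg _) (by norm_num)
    _ = Real.log x * (1 / 50) := by ring

theorem tlow : ∃ x0 : ℝ, ∀ x : ℝ, x0 ≤ x →
    x ^ (97 / 100 : ℝ) ≤ (⌊x / (primorial ⌊Real.log x / 100⌋₊ : ℝ)⌋₊ : ℝ) := by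
  refine ⟨(2 : ℝ) ^ (100 : ℝ), fun x hx => ?_⟩
  have h0 : (0 : ℝ) < (2 : ℝ) ^ (100 : ℝ) := Real.rpow_pos_of_pos two_pos _
  have hx0 : 0 < x := h0.trans_le hx
  have hx1 : 1 ≤ x := by
    refine le_trans ?_ hx
    exact Real.one_le_rpow (by norm_num) (by norm_num)
  have hy : (2 : ℝ) ≤ x ^ (1 / 100 : ℝ) := by
    have h1 : ((2 : ℝ) ^ (100 : ℝ)) ^ (1 / 100 : ℝ) ≤ x ^ (1 / 100 : ℝ) :=
      Real.rpow_le_rpow h0.le hx (by norm_num)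
    rw [← Real.rpow_mul two_pos.le] at h1
    norm_num at h1 ⊢
    exact h1
  have hp0 : (0 : ℝ) < (primorial ⌊Real.log x / 100⌋₊ : ℝ) := by
    exact_mod_cast primorial_pos _
  have hdiv : x ^ (49 / 50 : ℝ) ≤ x / (primorial ⌊Real.log x / 100⌋₊ : ℝ) := by
    rw [le_div_iff₀ hp0]
    calc x ^ (49 / 50 : ℝ) * (primorial ⌊Real.log x / 100⌋₊ : ℝ)
        ≤ x ^ (49 / 50 : ℝ) * x ^ (1 / 50 : ℝ) :=
          mul_le_mul_of_nonneg_left (prim_le hx1) (Real.rpow_nonneg hx0.le _)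
      _ = x := by
          rw [← Real.rpow_add hx0]
          norm_num
  have h97 : (1 : ℝ) ≤ x ^ (97 / 100 : ℝ) := Real.one_le_rpow hx1 (by norm_num)
  have hsplit : x ^ (49 / 50 : ℝ) = x ^ (1 / 100 : ℝ) * x ^ (97 / 100 : ℝ) := by
    rw [← Real.rpow_add hx0]
    norm_num
  have hfl : x / (primorial ⌊Real.log x / 100⌋₊ : ℝ) <
      (⌊x / (primorial ⌊Real.log x / 100⌋₊ : ℝ)⌋₊ : ℝ) + 1 := Nat.lt_floor_add_one _
  have hge : x ^ (97 / 100 : ℝ) + 1 ≤ x ^ (49 / 50 : ℝ) := by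
    rw [hsplit]
    nlinarith
  linarith

end H69PG
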